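import Pool.Agent.Work.MP_6f5fa7_al.Embed

/-!
# The conditions are necessary
-/

set_option autoImplicit false

namespace Pool.Agent.Work.MP_6f5fa7_al

open Subgroup
open scoped commutatorElement

variable {W : Set (FreeGroup ℕ)}

/-- In a primitive variety, quasi-identities pass to quotients. -/
lemma IsPrimitive.satQ (hprim : IsPrimitive W) {K H : Type} [Group K] [Group H]
    (hK : InVar W K) (π : K →* H) (hπ : Function.Surjective π) (q : QuasiId) (hq : SatQ K q) :
    SatQ H q := by
  obtain ⟨W', hW'⟩ := hprim {q | SatQ K q} (by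
    intro G _ hG w hw v
    exact hG ⟨[], w⟩ (fun v _ => hK w hw v) v (fun u hu => by simp at hu))
  have h1 : InVar W' K := (hW' K).1 (fun q hq => hq)
  have h2 : InVar W' H := h1.of_surj π hπ
  exact (hW' H).2 h2 q hq

/-- In a primitive variety, the homomorphisms from a finite quotient of `K` to `K` separate
points. -/
lemma IsPrimitive.sep (hprim : IsPrimitive W) {K H : Type} [Group K] [Group H] [Finite H]
    (hK : InVar W K) (π : K →* H) (hπ : Function.Surjective π) (h : H) (hh : h ≠ 1) :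
    ∃ φ : H →* K, φ h ≠ 1 := by
  classical
  by_contra hcon
  push Not at hcon
  obtain ⟨n, ⟨e⟩⟩ := Finite.exists_equiv_fin H
  let fin : Fintype H := Fintype.ofFinite H
  let x : H → FreeGroup ℕ := fun a => FreeGroup.of (e a : ℕ)
  let rel : H × H → FreeGroup ℕ := fun ab => x ab.1 * x ab.2 * (x (ab.1 * ab.2))⁻¹
  let q : QuasiId := ⟨(Finset.univ : Finset (H × H)).toList.map rel, x h⟩
  have hx : ∀ (G : Type) [Group G] (v : ℕ → G) (a : H), FreeGroup.lift v (x a) = v (e a) := by
    intro G _ v a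
    simp [x]
  have hrel : ∀ (G : Type) [Group G] (v : ℕ → G) (a b : H),
      FreeGroup.lift v (rel (a, b)) = v (e a) * v (e b) * (v (e (a * b)))⁻¹ := by
    intro G _ v a b
    simp only [rel, map_mul, map_inv, hx]
  have hqK : SatQ K q := by
    intro v hv
    let φ : H →* K := MonoidHom.mk' (fun a => v (e a)) (by
      intro a b
      have h1 := hv (rel (a, b)) (by
        show rel (a, b) ∈ (Finset.univ : Finset (H × H)).toList.map rel
        exact List.mem_map_of_mem (by simp))
      rw [hrel, mul_inv_eq_one] at h1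
      exact h1.symm)
    show FreeGroup.lift v (x h) = 1
    rw [hx]
    exact hcon φ
  have hqH := hprim.satQ hK π hπ q hqK
  let v : ℕ → H := fun i => if hi : i < n then e.symm ⟨i, hi⟩ else 1
  have hv : ∀ a, v (e a) = a := by
    intro a
    simp only [v, dif_pos (e a).2, Fin.eta, Equiv.symm_apply_apply]
  have h2 := hqH v (by
    intro u hu
    obtain ⟨⟨a, b⟩, -, rfl⟩ := List.mem_map.1 hu
    rw [hrel, hv, hv, hv, mul_inv_cancel])
  have h3 : FreeGroup.lift v (x h) = 1 := h2
  rw [hx, hv] at h3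
  exact hh h3

/-- A finite nonabelian `p`-group has a nontrivial central element in the commutator subgroup. -/
lemma exists_central_comm {P : Type} [Group P] [Finite P] {p : ℕ} [Fact p.Prime]
    (hP : IsPGroup p P) (hnc : ¬ ∀ a b : P, a * b = b * a) :
    ∃ z : P, z ≠ 1 ∧ z ∈ commutator P ∧ ∀ g : P, z * g = g * z := by
  have hne : commutator P ≠ ⊥ := by
    intro h
    apply hnc
    intro a b
    have h1 : ⁅a, b⁆ ∈ commutator P := commutator_mem_commutator (mem_top a) (mem_top b)
    rw [h, Subgroup.mem_bot, commutatorElement_eq_one_iff_mul_comm] at h1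
    exact h1
  have hC : IsPGroup p (commutator P) := hP.to_subgroup _
  have hdvd : p ∣ Nat.card (commutator P) := by
    obtain ⟨n, hn⟩ := IsPGroup.iff_card.1 hC
    have hn0 : n ≠ 0 := by
      rintro rfl
      rw [pow_zero] at hn
      exact hne (Subgroup.eq_bot_of_card_eq _ hn)
    rw [hn]
    exact dvd_pow_self p hn0
  have hact : IsPGroup p (ConjAct P) := hP.of_equiv ConjAct.toConjAct
  obtain ⟨b, hb, hb1⟩ := hact.exists_fixed_point_of_prime_dvd_card_of_fixed_point
    (commutator P) hdvd (a := (1 : commutator P)) (fun g => smul_one g)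
  refine ⟨b, fun h => hb1 (Subtype.ext h.symm), b.2, fun g => ?_⟩
  have h1 := hb (ConjAct.toConjAct g)
  have h2 : g * (b : P) * g⁻¹ = b := congrArg Subtype.val h1
  rw [mul_inv_eq_iff_eq_mul] at h2
  exact h2.symm

/-- finite `p`-groups in a primitive variety are abelian -/
theorem nec_ab (hprim : IsPrimitive W) (p : ℕ) (hp : p.Prime) : ∀ (n : ℕ) (P : Type) [Group P]
    [Finite P], Nat.card P = n → InVar W P → IsPGroup p P → ∀ a b : P, a * b = b * a := by
  intro n
  induction n using Nat.strong_induction_on with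
  | _ n ih =>
  intro P _ _ hcard hPV hP
  have hpf : Fact p.Prime := ⟨hp⟩
  by_contra hnc
  obtain ⟨z, hz1, hz2, hz3⟩ := exists_central_comm hP hnc
  -- proper subgroups are abelian
  have hsub : ∀ S : Subgroup P, (¬ ∀ a ∈ S, ∀ b ∈ S, a * b = b * a) → S = ⊤ := by
    intro S hS
    by_contra hne
    apply hS
    intro a ha b hb
    have hlt : Nat.card S < n := by
      rw [← hcard]
      refine lt_of_le_of_ne (Subgroup.card_le_card_group S) (fun h => hne ?_)
      exact Subgroup.eq_top_of_card_eq S h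
    have := ih _ hlt S rfl (hPV.of_inj S.subtype S.subtype_injective) (hP.to_subgroup S)
      ⟨a, ha⟩ ⟨b, hb⟩
    exact congrArg Subtype.val this
  -- the central product
  let Z : Subgroup (P × P) := zpowers (z, z⁻¹)
  have hZ : Z.Normal := by
    constructor
    rintro _ ⟨k, rfl⟩ ⟨g1, g2⟩
    have e1 : g1 * z * g1⁻¹ = z := by rw [← hz3, mul_inv_cancel_right]
    have e2 : g2 * z⁻¹ * g2⁻¹ = z⁻¹ := by
      have := congrArg (fun t => t⁻¹) (hz3 g2)
      simp only [mul_inv_rev] at this
      have h3 : Commute z g2 := hz3 g2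
      rw [(h3.inv_left).eq.symm, mul_inv_cancel_right]
    refine ⟨k, ?_⟩
    show (z, z⁻¹) ^ k = (g1, g2) * (z, z⁻¹) ^ k * (g1, g2)⁻¹
    rw [← conj_zpow]
    congr 1
    show (z, z⁻¹) = (g1 * z * g1⁻¹, g2 * z⁻¹ * g2⁻¹)
    rw [e1, e2]
  let π : P × P →* (P × P) ⧸ Z := QuotientGroup.mk' Z
  have hπ : Function.Surjective π := QuotientGroup.mk'_surjective Z
  have hzz : π (z, 1) = π (1, z) := by
    have h1 : (z, z⁻¹) ∈ Z := mem_zpowers _
    have h2 : π (z, z⁻¹) = 1 := (QuotientGroup.eq_one_iff _).2 h1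
    have h3 : ((z, 1) : P × P) = (z, z⁻¹) * (1, z) := by
      show (z, (1 : P)) = (z * 1, z⁻¹ * z)
      rw [mul_one, inv_mul_cancel]
    rw [h3, map_mul, h2, one_mul]
  have hne : π (z, 1) ≠ 1 := by
    intro h
    have h1 : ((z, 1) : P × P) ∈ Z := (QuotientGroup.eq_one_iff _).1 h
    obtain ⟨k, hk⟩ := Subgroup.mem_zpowers_iff.1 h1
    have h2 : z ^ k = z := congrArg Prod.fst hk
    have h3 : z⁻¹ ^ k = 1 := congrArg Prod.snd hk
    rw [inv_zpow, inv_eq_one, h2] at h3
    exact hz1 h3
  obtain ⟨φ, hφ⟩ := hprim.sep (hPV.prod hPV) π hπ _ hne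
  -- a coordinate
  obtain ⟨ψ, hψ⟩ : ∃ ψ : (P × P) ⧸ Z →* P, ψ (π (z, 1)) ≠ 1 := by
    by_contra hcon
    push Not at hcon
    apply hφ
    apply Prod.ext
    · exact hcon ((MonoidHom.fst P P).comp φ)
    · exact hcon ((MonoidHom.snd P P).comp φ)
  let f1 : P →* P := (ψ.comp π).comp (MonoidHom.inl P P)
  let f2 : P →* P := (ψ.comp π).comp (MonoidHom.inr P P)
  have hf1 : f1 z ≠ 1 := hψ
  have hf2 : f2 z ≠ 1 := by
    show ψ (π (1, z)) ≠ 1
    rw [← hzz]; exact hψ
  have hcomm : ∀ a b, f1 a * f2 b = f2 b * f1 a := by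
    intro a b
    show ψ (π (a, 1)) * ψ (π (1, b)) = ψ (π (1, b)) * ψ (π (a, 1))
    rw [← map_mul, ← map_mul, ← map_mul, ← map_mul]
    congr 2
    show (a * 1, 1 * b) = (1 * a, b * 1)
    simp
  have hrange : ∀ f : P →* P, f z ≠ 1 → f.range = ⊤ := by
    intro f hf
    apply hsub
    intro hc
    apply hf
    have h1 : commutator P ≤ f.ker := by
      rw [commutator_def, Subgroup.commutator_le]
      intro a _ b _
      rw [MonoidHom.mem_ker, map_commutatorElement, commutatorElement_eq_one_iff_mul_comm]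
      exact hc _ ⟨a, rfl⟩ _ ⟨b, rfl⟩
    exact h1 hz2
  have hr1 := hrange f1 hf1
  have hr2 := hrange f2 hf2
  apply hnc
  intro a b
  have ha : a ∈ f1.range := by rw [hr1]; trivial
  have hb : b ∈ f2.range := by rw [hr2]; trivial
  obtain ⟨a', rfl⟩ := ha
  obtain ⟨b', rfl⟩ := hb
  exact hcomm a' b'

/-- both factors of a splitting are characteristic -/
lemma split_char {C : Type} [Group C] [Finite C] {p : ℕ} [Fact p.Prime] (hCab : AbSyl p C)
    {A X : Subgroup C} [hA : A.Normal] [hX : X.Normal]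
    (hAX1 : A ⊓ X = ⊥) (hAX2 : A ⊔ X = ⊤) (hAp : IsPGroup p A)
    (hXidx : ∀ M : Subgroup X, M.Normal → M.index ≠ p) : A.Characteristic ∧ X.Characteristic := by
  constructor
  · rw [characteristic_iff_le_comap]
    intro φ z hz
    rw [split_A_mem hCab hAX1 hAX2 hAp hXidx] at hz
    obtain ⟨hz1, n, hn⟩ := hz
    show φ z ∈ A
    rw [split_A_mem hCab hAX1 hAX2 hAp hXidx]
    refine ⟨fun g => ?_, n, by rw [← map_pow, hn, map_one]⟩
    obtain ⟨g', rfl⟩ := φ.surjective g
    rw [← map_mul, ← map_mul, hz1]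
  · rw [split_X_eq hCab hAX1 hAX2 hAp hXidx, characteristic_iff_le_comap]
    intro φ
    rw [Opp, closure_le]
    intro g hg
    apply Subgroup.subset_closure
    show (orderOf (φ g)).Coprime p
    rw [MulEquiv.orderOf_eq]
    exact hg

/-- nonabelian monolithic groups have no normal subgroup of index `p` -/
theorem nec_noIdx (hprim : IsPrimitive W) (p : ℕ) (hp : p.Prime)
    (hV : InVar W (Multiplicative (ZMod (p ^ 2)))) : ∀ (n : ℕ) (T : Type) [Group T]
    [Finite T], Nat.card T = n → InVar W T → Monolithic T → (¬ ∀ a b : T, a * b = b * a) →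
    NoIdx p T := by
  intro n
  induction n using Nat.strong_induction_on with
  | _ n ih =>
  intro T _ _ hcard hT hmono hnc M0 hM0 hM0idx
  have hpf : Fact p.Prime := ⟨hp⟩
  have hab : AbSyl p T := by
    intro Q hQ a ha b hb
    have := nec_ab hprim p hp _ Q rfl (hT.of_inj Q.subtype Q.subtype_injective) hQ ⟨a, ha⟩ ⟨b, hb⟩
    exact congrArg Subtype.val this
  obtain ⟨h, hh1, hh⟩ := hmono
  -- the homomorphism onto the cyclic group of order `p`
  have hcyc : IsCyclic (T ⧸ M0) := isCyclic_of_prime_card (p := p) hM0idx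
  have hcard1 : Nat.card (T ⧸ M0) = Nat.card (Multiplicative (ZMod p)) := by
    show M0.index = Nat.card (ZMod p)
    rw [Nat.card_zmod, hM0idx]
  let e : T ⧸ M0 ≃* Multiplicative (ZMod p) := mulEquivOfCyclicCardEq hcard1
  let φ : T →* Multiplicative (ZMod p) := e.toMonoidHom.comp (QuotientGroup.mk' M0)
  have hφ : Function.Surjective φ := e.surjective.comp (QuotientGroup.mk'_surjective M0)
  let red0 : ZMod (p ^ 2) →+* ZMod p := ZMod.castHom (dvd_pow_self p two_ne_zero) (ZMod p)
  have hred0 : Function.Surjective red0 := ZMod.castHom_surjective _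
  let red : Multiplicative (ZMod (p ^ 2)) →* Multiplicative (ZMod p) :=
    AddMonoidHom.toMultiplicative red0.toAddMonoidHom
  have hred : Function.Surjective red := fun y => by
    obtain ⟨x, hx⟩ := hred0 y.toAdd
    exact ⟨Multiplicative.ofAdd x, hx⟩
  have hpp : NeZero (p ^ 2) := ⟨pow_ne_zero 2 hp.ne_zero⟩
  have hfin2 : Finite (Multiplicative (ZMod (p ^ 2))) := inferInstanceAs (Finite (ZMod (p ^ 2)))
  -- the fibre product
  let K : Subgroup (T × Multiplicative (ZMod (p ^ 2))) :=
    MonoidHom.eqLocus (φ.comp (MonoidHom.fst T (Multiplicative (ZMod (p ^ 2)))))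
      (red.comp (MonoidHom.snd T (Multiplicative (ZMod (p ^ 2)))))
  have hKV : InVar W K := (hT.prod hV).of_inj K.subtype K.subtype_injective
  let π : K →* T := (MonoidHom.fst T (Multiplicative (ZMod (p ^ 2)))).comp K.subtype
  have hπ : Function.Surjective π := by
    intro t
    obtain ⟨c, hc⟩ := hred (φ t)
    exact ⟨⟨(t, c), hc.symm⟩, rfl⟩
  obtain ⟨ψ, hψ⟩ := hprim.sep hKV π hπ h hh1
  let α : T →* T := π.comp ψ
  let θ : T →* Multiplicative (ZMod (p ^ 2)) :=
    (MonoidHom.snd T (Multiplicative (ZMod (p ^ 2)))).comp (K.subtype.comp ψ)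
  have hαθ : ∀ t, φ (α t) = red (θ t) := fun t => (ψ t).2
  have hinj : ∀ {G : Type} [Group G] (f : T →* G), f h ≠ 1 → Function.Injective f := by
    intro G _ f hf
    rw [← MonoidHom.ker_eq_bot_iff]
    by_contra hne
    exact hf (hh f.ker inferInstance hne)
  have hθ : θ h = 1 := by
    by_contra hne
    apply hnc
    intro a b
    apply hinj θ hne
    rw [map_mul, map_mul, mul_comm]
  have hα : α h ≠ 1 := by
    intro hα
    apply hψ
    apply Subtype.ext
    exact Prod.ext hα hθ
  have hαs : Function.Surjective α := Finite.surjective_of_injective (hinj α hα)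
  -- the new normal subgroup of index `p`
  let T1 : Subgroup T := (red.comp θ).ker
  have hT1n : T1.Normal := inferInstance
  have hredθ : Function.Surjective (red.comp θ) := by
    intro y
    obtain ⟨t, rfl⟩ := (hφ.comp hαs) y
    exact ⟨t, (hαθ t).symm⟩
  have hT1idx : T1.index = p := by
    show (red.comp θ).ker.index = p
    rw [Subgroup.index_ker, MonoidHom.range_eq_top.2 hredθ, Subgroup.card_top]
    exact Nat.card_zmod p
  -- `T1` has a normal subgroup of index `p`
  have hT1no : ¬ NoIdx p T1 := by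
    intro hno
    obtain ⟨t, ht⟩ := hredθ (Multiplicative.ofAdd 1)
    let θ1 : T1 →* Multiplicative (ZMod (p ^ 2)) := θ.comp T1.subtype
    have htp : t ^ p ∈ T1 := by
      rw [← hT1idx]; exact Subgroup.pow_index_mem T1 t
    have hne : θ1 ⟨t ^ p, htp⟩ ≠ 1 := by
      intro h1
      have h2 : (θ t) ^ p = 1 := by
        rw [← map_pow]; exact h1
      have h3 : p • (θ t).toAdd = 0 := h2
      have h4 : red0 (θ t).toAdd = 1 := ht
      have h5 : ((p * (θ t).toAdd.val : ℕ) : ZMod (p ^ 2)) = 0 := by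
        rw [Nat.cast_mul, ZMod.natCast_zmod_val, ← nsmul_eq_mul, h3]
      rw [ZMod.natCast_eq_zero_iff] at h5
      have h6 : p ∣ (θ t).toAdd.val :=
        Nat.dvd_of_mul_dvd_mul_left hp.pos (by rw [← pow_two]; exact h5)
      have h7 : red0 (((θ t).toAdd.val : ℕ) : ZMod (p ^ 2)) = 0 := by
        rw [map_natCast, ZMod.natCast_eq_zero_iff]
        exact h6
      rw [ZMod.natCast_zmod_val, h4] at h7
      exact one_ne_zero h7
    have hpg : IsPGroup p (Multiplicative (ZMod (p ^ 2))) :=
      IsPGroup.of_card (n := 2) (Nat.card_zmod (p ^ 2))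
    have hR : IsPGroup p θ1.range := hpg.to_subgroup _
    have : Nontrivial θ1.range :=
      ⟨⟨⟨θ1 ⟨t ^ p, htp⟩, _, rfl⟩, 1, fun h => hne (congrArg Subtype.val h)⟩⟩
    obtain ⟨M, hM1, hM2⟩ := exists_index_p hR (fun a b => Subtype.ext (mul_comm a.1 b.1))
    exact noIdx_of_surj hno θ1.rangeRestrict θ1.rangeRestrict_surjective M hM1 hM2
  have hlt : Nat.card T1 < n := by
    rw [← hcard]
    refine lt_of_le_of_ne (Subgroup.card_le_card_group T1) (fun h => ?_)
    rw [Subgroup.eq_top_of_card_eq T1 h, Subgroup.index_top] at hT1idx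
    exact hp.one_lt.ne hT1idx
  have hT1ab : AbSyl p T1 := hab.of_inj T1.subtype T1.subtype_injective
  have hT1V : InVar W T1 := hT.of_inj T1.subtype T1.subtype_injective
  obtain ⟨A, X, hA, hX, hAX1, hAX2, hAp, hAc, hXidx⟩ := splits_of_monolithic (p := p) hT1ab (by
    intro L _ hLm hLn
    refine ih (Nat.card (T1 ⧸ L)) (lt_of_le_of_lt ?_ hlt) (T1 ⧸ L) rfl
      (hT1V.of_surj (QuotientGroup.mk' L) (QuotientGroup.mk'_surjective L)) hLm hLn
    exact Nat.le_of_dvd Nat.card_pos (Subgroup.card_quotient_dvd_card L))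
  obtain ⟨hAch, hXch⟩ := split_char hT1ab hAX1 hAX2 hAp hXidx
  have hA0 : (A.map T1.subtype).Normal := ConjAct.normal_of_characteristic_of_normal
  have hX0 : (X.map T1.subtype).Normal := ConjAct.normal_of_characteristic_of_normal
  by_cases hAb : A = ⊥
  · -- no normal subgroup of index `p` in `T1`
    apply hT1no
    rw [hAb, bot_sup_eq] at hAX2
    refine noIdx_of_surj hXidx X.subtype ?_
    intro x
    exact ⟨⟨x, by rw [hAX2]; trivial⟩, rfl⟩
  by_cases hXb : X = ⊥
  · rw [hXb, sup_bot_eq] at hAX2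
    obtain ⟨m, hm⟩ := IsPGroup.iff_card.1 hAp
    have hT1card : Nat.card T1 = p ^ m := by
      rw [← hm, hAX2]
      exact (Nat.card_congr (Subgroup.topEquiv (G := T1)).toEquiv).symm
    have hTp : IsPGroup p T := by
      refine IsPGroup.of_card (n := m + 1) ?_
      rw [← T1.card_mul_index, hT1card, hT1idx, pow_succ]
    exact hnc (nec_ab hprim p hp _ T rfl hT hTp)
  · have hne : ∀ S : Subgroup T1, S ≠ ⊥ → S.map T1.subtype ≠ ⊥ := by
      intro S hS hbot
      rw [Subgroup.map_eq_bot_iff_of_injective _ T1.subtype_injective] at hbot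
      exact hS hbot
    obtain ⟨a, ha, ha1⟩ := hh _ hA0 (hne A hAb)
    obtain ⟨x, hx, hx1⟩ := hh _ hX0 (hne X hXb)
    have hax : a = x := T1.subtype_injective (ha1.trans hx1.symm)
    have h3 : a ∈ A ⊓ X := ⟨ha, by rw [hax]; exact hx⟩
    rw [hAX1, Subgroup.mem_bot] at h3
    apply hh1
    rw [← ha1, h3, map_one]

theorem nec (hprim : IsPrimitive W) : Cond W where
  ab := fun p hp G _ _ hG hpG => nec_ab hprim p hp _ G rfl hG hpG
  split := by
    intro p hp hV G _ _ hG
    have hpf : Fact p.Prime := ⟨hp⟩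
    have hab : AbSyl p G := by
      intro Q hQ a ha b hb
      have := nec_ab hprim p hp _ Q rfl (hG.of_inj Q.subtype Q.subtype_injective) hQ
        ⟨a, ha⟩ ⟨b, hb⟩
      exact congrArg Subtype.val this
    refine splits_of_monolithic hab (fun L _ hLm hLn => ?_)
    exact nec_noIdx hprim p hp hV _ (G ⧸ L) rfl
      (hG.of_surj (QuotientGroup.mk' L) (QuotientGroup.mk'_surjective L)) hLm hLn

end Pool.Agent.Work.MP_6f5fa7_al
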