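import Mathlib

/-!
# Averaging arguments: complements of abelian normal subgroups
-/

set_option autoImplicit false

namespace Pool.Agent.Work.MP_6f5fa7_al

open Subgroup

section avg

variable {G : Type*} [Group G] [Finite G]

/-- coset representatives -/
noncomputable def rp (P : Subgroup G) (c : G ⧸ P) : G := Quotient.out c

omit [Finite G] in
lemma rp_mk (P : Subgroup G) (c : G ⧸ P) : ((rp P c : G) : G ⧸ P) = c := QuotientGroup.out_eq' c

omit [Finite G] in
lemma rp_mem (P : Subgroup G) (k : G) (c : G ⧸ P) : (rp P (k • c))⁻¹ * k * rp P c ∈ P := by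
  rw [mul_assoc, ← QuotientGroup.eq, rp_mk]
  conv_lhs => rw [← rp_mk P c]
  rfl

/-- **Gaschütz's theorem** for an abelian Sylow subgroup. -/
theorem gaschutz (P N : Subgroup G) [hN : N.Normal] (hNP : N ≤ P)
    (hP : ∀ a ∈ P, ∀ b ∈ P, a * b = b * a) (hcop : (Nat.card N).Coprime P.index)
    (r : P →* G) (hr1 : ∀ x, r x ∈ N) (hr2 : ∀ x : P, (x : G) ∈ N → r x = x) :
    ∃ U : Subgroup G, U ⊓ N = ⊥ ∧ U ⊔ N = ⊤ := by
  classical
  let _ : CommGroup N := { (inferInstance : Group N) with
    mul_comm := fun a b => Subtype.ext (hP _ (hNP a.2) _ (hNP b.2)) }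
  let _ : Fintype (G ⧸ P) := Fintype.ofFinite _
  let A : G → G ⧸ P → P := fun k c => ⟨(rp P (k • c))⁻¹ * k * rp P c, rp_mem P k c⟩
  let term : G → G ⧸ P → N := fun k c =>
    ⟨rp P (k • c) * r (A k c) * (rp P (k • c))⁻¹, hN.conj_mem _ (hr1 _) _⟩
  let g : G → N := fun k => ∏ c, term k c
  have hterm : ∀ k k' c, term (k * k') c =
      term k (k' • c) * MulAut.conjNormal k (term k' c) := by
    intro k k' c
    apply Subtype.ext
    rw [Subgroup.coe_mul, MulAut.conjNormal_apply]
    show rp P ((k * k') • c) * r (A (k * k') c) * (rp P ((k * k') • c))⁻¹ =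
      (rp P (k • k' • c) * r (A k (k' • c)) * (rp P (k • k' • c))⁻¹) *
        (k * (rp P (k' • c) * r (A k' c) * (rp P (k' • c))⁻¹) * k⁻¹)
    have h1 : A (k * k') c = A k (k' • c) * A k' c := by
      apply Subtype.ext
      show (rp P ((k * k') • c))⁻¹ * (k * k') * rp P c =
        ((rp P (k • k' • c))⁻¹ * k * rp P (k' • c)) * ((rp P (k' • c))⁻¹ * k' * rp P c)
      rw [mul_smul]; group
    rw [h1, map_mul, mul_smul]
    set s := rp P (k • k' • c) with hs
    have h2 : k * rp P (k' • c) = s * (A k (k' • c) : G) := by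
      show k * rp P (k' • c) = s * ((rp P (k • k' • c))⁻¹ * k * rp P (k' • c))
      rw [← hs]; group
    have h3 : (A k (k' • c) : G) * r (A k' c) = r (A k' c) * (A k (k' • c) : G) :=
      hP _ (A k (k' • c)).2 _ (hNP (hr1 _))
    calc s * (r (A k (k' • c)) * r (A k' c)) * s⁻¹
        = (s * r (A k (k' • c)) * s⁻¹) * (s * r (A k' c) * s⁻¹) := by group
      _ = (s * r (A k (k' • c)) * s⁻¹) *
          (s * (A k (k' • c) : G) * r (A k' c) * (A k (k' • c) : G)⁻¹ * s⁻¹) := by
          congr 1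
          calc s * r (A k' c) * s⁻¹ = s * (r (A k' c) * (A k (k' • c) : G)) *
                (A k (k' • c) : G)⁻¹ * s⁻¹ := by group
            _ = _ := by rw [← h3]; group
      _ = (s * r (A k (k' • c)) * s⁻¹) *
          ((k * rp P (k' • c)) * r (A k' c) * (k * rp P (k' • c))⁻¹) := by
          rw [h2]; group
      _ = _ := by group
  have hg : ∀ k k', g (k * k') = g k * MulAut.conjNormal k (g k') := by
    intro k k'
    show ∏ c, term (k * k') c = (∏ c, term k c) * MulAut.conjNormal k (∏ c, term k' c)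
    rw [map_prod, ← Equiv.prod_comp (MulAction.toPerm k' : Equiv.Perm (G ⧸ P)) (term k),
      ← Finset.prod_mul_distrib]
    exact Finset.prod_congr rfl (fun c _ => hterm k k' c)
  have hgN : ∀ n : N, g n = n ^ P.index := by
    intro n
    have h1 : ∀ c, term n c = n := by
      intro c
      have h2 : (n : G) • c = c := by
        conv_lhs => rw [← rp_mk P c]
        conv_rhs => rw [← rp_mk P c]
        show (((n : G) * rp P c : G) : G ⧸ P) = _
        rw [QuotientGroup.eq]
        apply hNP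
        have := hN.conj_mem _ (N.inv_mem n.2) (rp P c)⁻¹
        rw [inv_inv] at this
        convert this using 1
        group
      have h3 : (A n c : G) ∈ N := by
        show (rp P ((n : G) • c))⁻¹ * n * rp P c ∈ N
        rw [h2]
        have := hN.conj_mem _ n.2 (rp P c)⁻¹
        rwa [inv_inv] at this
      apply Subtype.ext
      show rp P ((n : G) • c) * r (A n c) * (rp P ((n : G) • c))⁻¹ = n
      rw [hr2 _ h3]
      show rp P ((n : G) • c) * ((rp P ((n : G) • c))⁻¹ * n * rp P c) *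
        (rp P ((n : G) • c))⁻¹ = n
      rw [h2]; group
    show ∏ c, term n c = n ^ P.index
    rw [Finset.prod_congr rfl (fun c _ => h1 c), Finset.prod_const, Finset.card_univ,
      ← Nat.card_eq_fintype_card]
    rfl
  have hg1 : g 1 = 1 := by
    have := hg 1 1
    rw [mul_one, map_one] at this
    simpa using this
  have hpow : ∀ n : N, n ^ P.index = 1 → n = 1 := by
    intro n hn
    have := (powCoprime hcop).injective (a₁ := n) (a₂ := 1)
    apply this
    show n ^ P.index = 1 ^ P.index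
    rw [hn, one_pow]
  refine ⟨{ carrier := {k | g k = 1}
            mul_mem' := ?_
            one_mem' := hg1
            inv_mem' := ?_ }, ?_, ?_⟩
  · intro a b ha hb
    show g (a * b) = 1
    rw [hg, show g a = 1 from ha, show g b = 1 from hb, map_one, mul_one]
  · intro a ha
    show g a⁻¹ = 1
    have h1 := hg a⁻¹ a
    rw [inv_mul_cancel, hg1, show g a = 1 from ha, map_one, mul_one] at h1
    exact h1.symm
  · rw [eq_bot_iff]
    rintro x ⟨hx1, hx2⟩
    have h1 : g x = 1 := hx1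
    have h2 := hgN ⟨x, hx2⟩
    rw [show g ((⟨x, hx2⟩ : N) : G) = g x from rfl, h1] at h2
    have := hpow _ h2.symm
    exact Subgroup.mem_bot.2 (congrArg Subtype.val this)
  · rw [eq_top_iff]
    intro k _
    let n0 : N := (powCoprime hcop).symm (g k)
    have hn0 : n0 ^ P.index = g k := (powCoprime hcop).apply_symm_apply (g k)
    have hcomm : MulAut.conjNormal ((n0 : G)⁻¹) (g k) = g k := by
      apply Subtype.ext
      rw [MulAut.conjNormal_apply, inv_inv]
      have := congrArg Subtype.val (mul_comm (g k) n0)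
      simp only [Subgroup.coe_mul] at this
      rw [mul_assoc, this]; group
    have h1 : g ((n0 : G)⁻¹ * k) = 1 := by
      rw [hg, hcomm]
      have h2 := hgN n0⁻¹
      rw [Subgroup.coe_inv] at h2
      rw [h2, inv_pow, hn0, inv_mul_cancel]
    have h2 : k = (n0 : G) * ((n0 : G)⁻¹ * k) := by group
    rw [h2]
    exact Subgroup.mul_mem _ (Subgroup.mem_sup_right n0.2) (Subgroup.mem_sup_left h1)

/-- **Maschke's theorem**, in the language of normal subgroups. -/
theorem maschke (P E B : Subgroup G) [hE : E.Normal] [hB : B.Normal] (hBE : B ≤ E)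
    (hPE : ∀ a ∈ P, ∀ x ∈ E, a * x = x * a) (hEc : ∀ a ∈ E, ∀ b ∈ E, a * b = b * a)
    (hcop : (Nat.card B).Coprime P.index)
    (r : E →* G) (hr1 : ∀ x, r x ∈ B) (hr2 : ∀ x : E, (x : G) ∈ B → r x = x) :
    ∃ B' : Subgroup G, B'.Normal ∧ B' ≤ E ∧ B ⊓ B' = ⊥ ∧ B ⊔ B' = E := by
  classical
  let _ : CommGroup B := { (inferInstance : Group B) with
    mul_comm := fun a b => Subtype.ext (hEc _ (hBE a.2) _ (hBE b.2)) }
  let _ : Fintype (G ⧸ P) := Fintype.ofFinite _
  have hc : ∀ (x : E) (t : G), t⁻¹ * x * t ∈ E := fun x t => by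
    have := hE.conj_mem _ x.2 t⁻¹
    rwa [inv_inv] at this
  let cj : G → E → E := fun t x => ⟨t⁻¹ * x * t, hc x t⟩
  have hcj : ∀ t x y, cj t (x * y) = cj t x * cj t y := by
    intro t x y
    apply Subtype.ext
    show t⁻¹ * (x * y) * t = (t⁻¹ * x * t) * (t⁻¹ * y * t)
    group
  let term : E → G ⧸ P → B := fun x c =>
    ⟨rp P c * r (cj (rp P c) x) * (rp P c)⁻¹, hB.conj_mem _ (hr1 _) _⟩
  let ρ : E → B := fun x => ∏ c, term x c
  have hmul : ∀ x y, ρ (x * y) = ρ x * ρ y := by
    intro x y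
    show ∏ c, term (x * y) c = (∏ c, term x c) * ∏ c, term y c
    rw [← Finset.prod_mul_distrib]
    refine Finset.prod_congr rfl (fun c _ => ?_)
    apply Subtype.ext
    show rp P c * r (cj (rp P c) (x * y)) * (rp P c)⁻¹ =
      (rp P c * r (cj (rp P c) x) * (rp P c)⁻¹) * (rp P c * r (cj (rp P c) y) * (rp P c)⁻¹)
    rw [hcj, map_mul]; group
  have hequiv : ∀ (k : G) (x : E), ρ (MulAut.conjNormal k x) = MulAut.conjNormal k (ρ x) := by
    intro k x
    show ∏ c, term (MulAut.conjNormal k x) c = MulAut.conjNormal k (∏ c, term x c)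
    rw [map_prod, ← Equiv.prod_comp (MulAction.toPerm k : Equiv.Perm (G ⧸ P))]
    refine Finset.prod_congr rfl (fun c _ => ?_)
    apply Subtype.ext
    rw [MulAut.conjNormal_apply]
    show rp P (k • c) * r (cj (rp P (k • c)) (MulAut.conjNormal k x)) * (rp P (k • c))⁻¹ =
      k * (rp P c * r (cj (rp P c) x) * (rp P c)⁻¹) * k⁻¹
    obtain ⟨a, ha, hka⟩ : ∃ a ∈ P, k * rp P c = rp P (k • c) * a :=
      ⟨_, rp_mem P k c, by group⟩
    have h1 : cj (rp P (k • c)) (MulAut.conjNormal k x) = cj (rp P c) x := by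
      apply Subtype.ext
      show (rp P (k • c))⁻¹ * (MulAut.conjNormal k x : E) * rp P (k • c) =
        (rp P c)⁻¹ * x * rp P c
      rw [MulAut.conjNormal_apply]
      have h2 : rp P (k • c) = k * rp P c * a⁻¹ := by rw [hka]; group
      rw [h2]
      have h3 := hPE a ha _ (hc x (rp P c))
      calc (k * rp P c * a⁻¹)⁻¹ * (k * x * k⁻¹) * (k * rp P c * a⁻¹)
          = a * ((rp P c)⁻¹ * x * rp P c) * a⁻¹ := by group
        _ = (rp P c)⁻¹ * x * rp P c := by rw [h3]; group
    rw [h1]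
    have h4 := hPE a ha _ (hBE (hr1 (cj (rp P c) x)))
    have h5 : rp P (k • c) = k * rp P c * a⁻¹ := by rw [hka]; group
    rw [h5]
    have h6 : a⁻¹ * r (cj (rp P c) x) * a = r (cj (rp P c) x) := by
      rw [mul_assoc, ← h4]; group
    calc k * rp P c * a⁻¹ * r (cj (rp P c) x) * (k * rp P c * a⁻¹)⁻¹
        = k * rp P c * (a⁻¹ * r (cj (rp P c) x) * a) * (k * rp P c)⁻¹ := by group
      _ = _ := by rw [h6]; group
  have hρB : ∀ b : E, ∀ hb : (b : G) ∈ B, ρ b = ⟨b, hb⟩ ^ P.index := by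
    intro b hb
    have h1 : ∀ c, term b c = ⟨b, hb⟩ := by
      intro c
      have h3 : (cj (rp P c) b : G) ∈ B := by
        show (rp P c)⁻¹ * b * rp P c ∈ B
        have := hB.conj_mem _ hb (rp P c)⁻¹
        rwa [inv_inv] at this
      apply Subtype.ext
      show rp P c * r (cj (rp P c) b) * (rp P c)⁻¹ = b
      rw [hr2 _ h3]
      show rp P c * ((rp P c)⁻¹ * b * rp P c) * (rp P c)⁻¹ = b
      group
    show ∏ c, term b c = _
    rw [Finset.prod_congr rfl (fun c _ => h1 c), Finset.prod_const, Finset.card_univ,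
      ← Nat.card_eq_fintype_card]
    rfl
  have hpow : ∀ n : B, n ^ P.index = 1 → n = 1 := by
    intro n hn
    have := (powCoprime hcop).injective (a₁ := n) (a₂ := 1)
    apply this
    show n ^ P.index = 1 ^ P.index
    rw [hn, one_pow]
  let ρ' : E →* B := MonoidHom.mk' ρ hmul
  refine ⟨ρ'.ker.map E.subtype, ?_, ?_, ?_, ?_⟩
  · constructor
    rintro _ ⟨x, hx, rfl⟩ k
    refine ⟨MulAut.conjNormal k x, ?_, ?_⟩
    · show ρ (MulAut.conjNormal k x) = 1
      rw [hequiv, show ρ x = 1 from hx, map_one]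
    · rw [Subgroup.coe_subtype, MulAut.conjNormal_apply]
  · rintro _ ⟨x, -, rfl⟩
    exact x.2
  · rw [eq_bot_iff]
    rintro _ ⟨hx1, ⟨x, hx, rfl⟩⟩
    have h1 := hρB x hx1
    rw [show ρ x = 1 from hx] at h1
    have := hpow _ h1.symm
    exact Subgroup.mem_bot.2 (congrArg Subtype.val this)
  · apply le_antisymm
    · refine sup_le hBE ?_
      rintro _ ⟨x, -, rfl⟩
      exact x.2
    · intro k hk
      let n0 : B := (powCoprime hcop).symm (ρ ⟨k, hk⟩)
      have hn0 : n0 ^ P.index = ρ ⟨k, hk⟩ := (powCoprime hcop).apply_symm_apply _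
      let n1 : E := ⟨n0, hBE n0.2⟩
      have h1 : ρ (n1⁻¹ * ⟨k, hk⟩) = 1 := by
        rw [hmul, ← hn0]
        have h2 : ρ n1⁻¹ = (ρ n1)⁻¹ := map_inv ρ' n1
        rw [h2, hρB n1 n0.2, inv_mul_cancel]
      have h2 : k = (n0 : G) * ((n0 : G)⁻¹ * k) := by group
      rw [h2]
      refine Subgroup.mul_mem _ (Subgroup.mem_sup_left n0.2) (Subgroup.mem_sup_right ?_)
      exact ⟨n1⁻¹ * ⟨k, hk⟩, h1, rfl⟩

end avg

lemma exists_retract_add {A : Type*} [AddCommGroup A] {p : ℕ} [Fact p.Prime] (N : AddSubgroup A)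
    (hexp : ∀ x : A, p • x = 0) :
    ∃ r : A →+ A, (∀ x, r x ∈ N) ∧ ∀ x ∈ N, r x = x := by
  let _ : Module (ZMod p) A := AddCommGroup.zmodModule (n := p) hexp
  obtain ⟨Q, hQ⟩ := Submodule.exists_isCompl (AddSubgroup.toZModSubmodule p N)
  refine ⟨((AddSubgroup.toZModSubmodule p N).projection Q hQ).toAddMonoidHom, ?_, ?_⟩
  · intro x
    have h1 := (((AddSubgroup.toZModSubmodule p N).projectionOnto Q hQ) x).2
    rw [Submodule.coe_projectionOnto_apply] at h1
    exact h1
  · intro x hx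
    have h2 := Submodule.projectionOnto_apply_of_mem_left hQ (x := x) hx
    have h3 := Submodule.coe_projectionOnto_apply hQ x
    rw [h2] at h3
    exact h3.symm

lemma exists_retract_comm {A : Type*} [CommGroup A] {p : ℕ} [Fact p.Prime] (N : Subgroup A)
    (hexp : ∀ x : A, x ^ p = 1) :
    ∃ r : A →* A, (∀ x, r x ∈ N) ∧ ∀ x ∈ N, r x = x := by
  obtain ⟨r, hr1, hr2⟩ := exists_retract_add (A := Additive A) (p := p) (Subgroup.toAddSubgroup N)
    (fun x => hexp x.toMul)
  exact ⟨AddMonoidHom.toMultiplicative r, fun x => hr1 x, fun x hx => hr2 x hx⟩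

/-- Elementary abelian groups are completely reducible: there is a retraction. -/
theorem exists_retract {G : Type*} [Group G] {p : ℕ} [Fact p.Prime] (P N : Subgroup G)
    (hP : ∀ a ∈ P, ∀ b ∈ P, a * b = b * a) (hexp : ∀ x ∈ P, x ^ p = 1) :
    ∃ r : P →* G, (∀ x, r x ∈ N) ∧ ∀ x : P, (x : G) ∈ N → r x = x := by
  let cg : CommGroup P := { (inferInstance : Group P) with
    mul_comm := fun a b => Subtype.ext (hP _ a.2 _ b.2) }
  obtain ⟨r, hr1, hr2⟩ := @exists_retract_comm P cg p _ (N.subgroupOf P)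
    (fun x => Subtype.ext (hexp _ x.2))
  refine ⟨P.subtype.comp r, fun x => hr1 x, fun x hx => ?_⟩
  exact congrArg Subtype.val (hr2 x hx)

end Pool.Agent.Work.MP_6f5fa7_al
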