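import Pool.Agent.Work.MP_6f5fa7_al.OneWord
import Pool.Agent.Work.MP_6f5fa7_al.Mon.BB

/-!
# The black box `Mon.BB` and the negative answer to Q2 of MP_6f5fa7_al
-/

set_option autoImplicit false

namespace Pool.Agent.Work.MP_6f5fa7_al.BBox

open Pool.Agent.Work.MP_6f5fa7_al.OneWord

open scoped commutatorElement

theorem Ew_hom (Q N : ℕ) {G H : Type} [Group G] [Group H] (f : G →* H) (x y : G) :
    f (Mon.Ew Q N x y) = Mon.Ew Q N (f x) (f y) := by
  unfold Mon.Ew Mon.Ww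
  rw [map_list_prod, List.map_map]
  congr 1
  apply List.map_congr_left
  intro j _
  simp [Mon.Uw]

theorem Ew_comm (Q N : ℕ) {G : Type} [Group G] (x y : G) (h : x * y = y * x) :
    Mon.Ew Q N x y = x ^ Mon.sig Q N := by
  have hU : Mon.Uw Q x y = x ^ (Q + Q ^ 2 + Q ^ 3 + Q ^ 4) := by
    have h1 : y * x * y⁻¹ = x := by rw [← h, mul_inv_cancel_right]
    unfold Mon.Uw
    rw [h1, ← pow_add, ← pow_add, ← pow_add]
  unfold Mon.Ew Mon.Ww Mon.sig
  rw [hU]
  have key : ∀ l : List ℕ,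
      (l.map fun j => (x ^ (Q + Q ^ 2 + Q ^ 3 + Q ^ 4)) ^ (Q ^ (j + 1)) * x).prod =
        x ^ (l.length + (Q + Q ^ 2 + Q ^ 3 + Q ^ 4) * (l.map fun j => Q ^ (j + 1)).sum) := by
    intro l
    induction l with
    | nil => simp
    | cons j l ih =>
      rw [List.map_cons, List.prod_cons, ih, List.map_cons, List.sum_cons, List.length_cons,
        ← pow_mul, ← pow_succ, ← pow_add]
      congr 1
      ring
  rw [key, List.length_range]

theorem Ew_commutator (Q N : ℕ) : Mon.Ew Q N (FreeGroup.of 0) (FreeGroup.of 1) *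
    (FreeGroup.of 0 : FreeGroup (Fin 2))⁻¹ ^ Mon.sig Q N ∈ commutator (FreeGroup (Fin 2)) := by
  rw [← QuotientGroup.eq_one_iff]
  show (QuotientGroup.mk' (commutator (FreeGroup (Fin 2)))) _ = 1
  rw [map_mul, Ew_hom, map_pow, map_inv, Ew_comm, inv_pow, mul_inv_cancel]
  rw [← map_mul, ← map_mul]
  apply QuotientGroup.eq.2
  rw [_root_.commutator_def]
  have h1 : ((FreeGroup.of 0 : FreeGroup (Fin 2)) * FreeGroup.of 1)⁻¹ *
      (FreeGroup.of 1 * FreeGroup.of 0) =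
      ⁅(FreeGroup.of 1 : FreeGroup (Fin 2))⁻¹, (FreeGroup.of 0 : FreeGroup (Fin 2))⁻¹⁆ := by
    rw [commutatorElement_def]; group
  rw [h1]
  exact Subgroup.commutator_mem_commutator (Subgroup.mem_top _) (Subgroup.mem_top _)

/-- The data of the black box in the form used below. -/
theorem data (h : Mon.BB) : ∃ (p : ℕ) (T : Type) (_ : Group T) (Φ : FreeGroup (Fin 2)),
    p.Prime ∧ (∀ x : T, x ^ p = 1) ∧ (∃ a b : T, Subgroup.closure {a, b} = ⊤ ∧ a * b ≠ b * a) ∧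
    Φ ∈ commutator (FreeGroup (Fin 2)) ∧ Star Φ T := by
  obtain ⟨p, Q, N, T, iT, hp, hN, hQ, hsig, hexp, hab, hE⟩ := h
  have hpos : 0 < Mon.sig Q N := by unfold Mon.sig; omega
  have hco : Nat.Coprime (Mon.sig Q N) p := ((Nat.Prime.coprime_iff_not_dvd hp).2
      (fun hd => absurd (Nat.le_of_dvd hpos hd) (not_le.2 hsig))).symm
  obtain ⟨Φ, hΦ, hS⟩ := exists_phi (Mon.Ew Q N (FreeGroup.of 0) (FreeGroup.of 1)) (Mon.sig Q N) p
    hp hco (Ew_commutator Q N) T hexp (by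
      intro x y hxy
      rw [Ew_hom]
      simpa using hE x y hxy)
  exact ⟨p, T, iT, Φ, hp, hexp, hab, hΦ, hS⟩

/-- **Negative answer to Q2 from the black box.** -/
theorem q2_of_BB (h : Mon.BB) : ∃ W : Set (FreeGroup ℕ), IsPrimitive W ∧ ¬ IsLocFinite W := by
  obtain ⟨p, T, _, Φ, hp, hexp, ⟨a, b, -, hab⟩, hΦ, hS⟩ := data h
  exact ⟨laws T, primitive hΦ hS hp hexp, not_locFinite hΦ hS hp hexp ⟨a, b, hab⟩⟩

end Pool.Agent.Work.MP_6f5fa7_al.BBox
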