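import Pool.Agent.Work.MP_6f5fa7_al.Embed

/-!
# Groups with a normal abelian Sylow subgroup
-/

set_option autoImplicit false

namespace Pool.Agent.Work.MP_6f5fa7_al

open Subgroup

/-- the `p`-elements commute -/
def CommP (p : ℕ) (G : Type*) [Group G] : Prop :=
  ∀ (x y : G) (m n : ℕ), x ^ (p ^ m) = 1 → y ^ (p ^ n) = 1 → x * y = y * x

section

variable {G : Type*} [Group G] {p : ℕ}

/-- the subgroup of `p`-elements -/
def pEl (hc : CommP p G) : Subgroup G where
  carrier := {x | ∃ m : ℕ, x ^ (p ^ m) = 1}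
  one_mem' := ⟨0, one_pow _⟩
  mul_mem' := by
    rintro a b ⟨m, hm⟩ ⟨k, hk⟩
    have h : Commute a b := hc a b m k hm hk
    refine ⟨m + k, ?_⟩
    rw [h.mul_pow, pow_add, pow_mul, hm, one_pow, mul_comm (p ^ m), pow_mul, hk, one_pow, one_mul]
  inv_mem' := by
    rintro a ⟨m, hm⟩
    exact ⟨m, by rw [inv_pow, hm, inv_one]⟩

lemma pEl_normal (hc : CommP p G) : (pEl hc).Normal := by
  constructor
  rintro x ⟨m, hm⟩ g
  exact ⟨m, by rw [conj_pow, hm, mul_one, mul_inv_cancel]⟩

lemma pEl_pgroup (hc : CommP p G) : IsPGroup p (pEl hc) := by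
  rintro ⟨x, m, hm⟩
  exact ⟨m, Subtype.ext hm⟩

lemma pEl_comm (hc : CommP p G) : ∀ a ∈ pEl hc, ∀ b ∈ pEl hc, a * b = b * a := by
  rintro a ⟨m, hm⟩ b ⟨k, hk⟩
  exact hc a b m k hm hk

lemma CommP.abSyl (hc : CommP p G) : AbSyl p G := by
  intro Q hQ a ha b hb
  obtain ⟨m, hm⟩ := hQ ⟨a, ha⟩
  obtain ⟨k, hk⟩ := hQ ⟨b, hb⟩
  exact hc a b m k (congrArg Subtype.val hm) (congrArg Subtype.val hk)

variable [hp : Fact p.Prime]

lemma not_dvd_index_pEl [Finite G] (hc : CommP p G) : ¬ p ∣ (pEl hc).index := by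
  obtain ⟨P, hP⟩ := (pEl_pgroup hc).exists_le_sylow
  have h1 : pEl hc = P := by
    apply le_antisymm hP
    intro x hx
    obtain ⟨n, hn⟩ := P.isPGroup' ⟨x, hx⟩
    exact ⟨n, congrArg Subtype.val hn⟩
  rw [h1]
  exact P.not_dvd_index

/-- the subgroup generated by the `p'`-elements has no normal subgroup of index `p` -/
lemma noIdx_opp [Finite G] : NoIdx p (Opp p G) := by
  intro M hM hidx
  have h1 : Opp p G ≤ M.map (Opp p G).subtype := by
    conv_lhs => rw [Opp]
    rw [closure_le]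
    intro g hg
    have hg' : g ∈ Opp p G := Subgroup.subset_closure hg
    refine ⟨⟨g, hg'⟩, ?_, rfl⟩
    have h2 : (⟨g, hg'⟩ : Opp p G) ^ (p ^ 1) ∈ M := by
      rw [pow_one]
      have h6 := Subgroup.pow_index_mem M (⟨g, hg'⟩ : Opp p G)
      rw [hidx] at h6
      exact h6
    have h3 : (((⟨g, hg'⟩ : Opp p G) : Opp p G ⧸ M)) ^ (p ^ 1) = 1 :=
      (QuotientGroup.eq_one_iff _).2 h2
    have h4 : (orderOf ((⟨g, hg'⟩ : Opp p G) : Opp p G ⧸ M)).Coprime p := by
      refine Nat.Coprime.coprime_dvd_left (orderOf_map_dvd (QuotientGroup.mk' M) _) ?_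
      have h5 : orderOf (⟨g, hg'⟩ : Opp p G) = orderOf g := by
        rw [← Subgroup.orderOf_coe]
      rw [h5]; exact hg
    exact (QuotientGroup.eq_one_iff _).1 (eq_one_of_coprime_of_pow h4 h3)
  have h2 : M = ⊤ := by
    rw [eq_top_iff]
    intro x _
    obtain ⟨y, hy, hyx⟩ := h1 x.2
    have : y = x := Subtype.ext hyx
    rw [← this]; exact hy
  rw [h2, index_top] at hidx
  exact hp.1.one_lt.ne hidx

/-- A nonabelian monolithic group whose `p`-elements commute has no normal subgroup of index `p`. -/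
theorem noIdx_of_commP [Finite G] (hc : CommP p G)
    (hmono : Monolithic G) (hnc : ¬ ∀ a b : G, a * b = b * a) : NoIdx p G := by
  classical
  intro M hM hidx
  obtain ⟨h, hh1, hh⟩ := hmono
  obtain ⟨P, hPdef⟩ : ∃ P, P = pEl hc := ⟨_, rfl⟩
  have hPn : P.Normal := by rw [hPdef]; exact pEl_normal hc
  have hPc : ∀ a ∈ P, ∀ b ∈ P, a * b = b * a := by rw [hPdef]; exact pEl_comm hc
  have hPmem : ∀ x, x ∈ P ↔ ∃ m : ℕ, x ^ (p ^ m) = 1 := by rw [hPdef]; intro x; exact Iff.rfl
  have hPidx : ¬ p ∣ P.index := by rw [hPdef]; exact not_dvd_index_pEl hc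
  -- `Opp` is nontrivial
  have hOne : Opp p G ≠ ⊥ := by
    intro hbot
    apply hnc
    have h1 : ∀ x : G, ∃ m : ℕ, x ^ (p ^ m) = 1 := by
      intro x
      obtain ⟨n, hn⟩ := exists_pow_coprime (p := p) x
      refine ⟨n, ?_⟩
      have h2 : x ^ (p ^ n) ∈ Opp p G := Subgroup.subset_closure hn
      rw [hbot] at h2
      exact Subgroup.mem_bot.1 h2
    intro a b
    obtain ⟨m, hm⟩ := h1 a
    obtain ⟨k, hk⟩ := h1 b
    exact hc a b m k hm hk
  -- there is no nontrivial central `p`-element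
  have hZ : ∀ z ∈ P, (∀ g, g * z * g⁻¹ = z) → z = 1 := by
    intro z hz hzc
    by_contra hz1
    have hZn : (P ⊓ center G).Normal := inferInstance
    have h1 : P ⊓ center G ≠ ⊥ := by
      intro hbot
      apply hz1
      have h2 : z ∈ P ⊓ center G := by
        refine ⟨hz, Subgroup.mem_center_iff.2 ?_⟩
        intro g
        have := hzc g
        rwa [mul_inv_eq_iff_eq_mul] at this
      rw [hbot] at h2
      exact Subgroup.mem_bot.1 h2
    have h2 := hh _ hZn h1
    have h3 := hh _ (inferInstance : (Opp p G).Normal) hOne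
    obtain ⟨n, hn⟩ := (hPmem h).1 h2.1
    have h4 : (⟨h, h3⟩ : Opp p G) = 1 := by
      refine T1' (p := p) (n := n) (hc.abSyl.of_inj (Opp p G).subtype (Opp p G).subtype_injective)
        noIdx_opp (fun x => Subtype.ext ?_) (Subtype.ext hn)
      exact (Subgroup.mem_center_iff.1 h2.2 x).symm
    exact hh1 (congrArg Subtype.val h4)
  -- the averaging map
  let cg : CommGroup P := { (inferInstance : Group P) with
    mul_comm := fun a b => Subtype.ext (hPc _ a.2 _ b.2) }
  let _ : Fintype (G ⧸ P) := Fintype.ofFinite _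
  let term : P → G ⧸ P → P := fun x c => ⟨rp P c * x * (rp P c)⁻¹, hPn.conj_mem _ x.2 _⟩
  let t : P → P := fun x => ∏ c, term x c
  have hequiv : ∀ (g : G) (x : P), MulAut.conjNormal g (t x) = t x := by
    intro g x
    show MulAut.conjNormal g (∏ c, term x c) = ∏ c, term x c
    rw [map_prod]
    conv_rhs => rw [← Equiv.prod_comp (MulAction.toPerm g : Equiv.Perm (G ⧸ P))]
    refine Finset.prod_congr rfl (fun c _ => ?_)
    apply Subtype.ext
    rw [MulAut.conjNormal_apply]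
    show g * (rp P c * x * (rp P c)⁻¹) * g⁻¹ = rp P (g • c) * x * (rp P (g • c))⁻¹
    obtain ⟨a, ha, hka⟩ : ∃ a ∈ P, g * rp P c = rp P (g • c) * a :=
      ⟨_, rp_mem P g c, by group⟩
    calc g * (rp P c * x * (rp P c)⁻¹) * g⁻¹
        = (g * rp P c) * x * (g * rp P c)⁻¹ := by group
      _ = rp P (g • c) * (a * x) * a⁻¹ * (rp P (g • c))⁻¹ := by rw [hka]; group
      _ = rp P (g • c) * x * (rp P (g • c))⁻¹ := by rw [hPc a ha x x.2]; group
  have ht1 : ∀ x : P, t x = 1 := by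
    intro x
    apply Subtype.ext
    apply hZ _ (t x).2
    intro g
    have := congrArg Subtype.val (hequiv g x)
    rwa [MulAut.conjNormal_apply] at this
  have hPM : P ≤ M := by
    intro x hx
    have hMn : (M.subgroupOf P).Normal := inferInstance
    have h1 : QuotientGroup.mk' (M.subgroupOf P) (t ⟨x, hx⟩) =
        (QuotientGroup.mk' (M.subgroupOf P) ⟨x, hx⟩) ^ P.index := by
      show QuotientGroup.mk' (M.subgroupOf P) (∏ c, term ⟨x, hx⟩ c) = _
      rw [map_prod]
      have h2 : ∀ c ∈ (Finset.univ : Finset (G ⧸ P)),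
          QuotientGroup.mk' (M.subgroupOf P) (term ⟨x, hx⟩ c) =
            QuotientGroup.mk' (M.subgroupOf P) ⟨x, hx⟩ := by
        intro c _
        rw [← mul_inv_eq_one, ← map_inv, ← map_mul]
        refine (QuotientGroup.eq_one_iff _).2 ?_
        show (rp P c * x * (rp P c)⁻¹) * x⁻¹ ∈ M
        exact comm_mem_of_index hidx _ _
      rw [Finset.prod_congr rfl h2, Finset.prod_const, Finset.card_univ,
        ← Nat.card_eq_fintype_card]
      rfl
    rw [ht1, map_one, ← map_pow] at h1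
    have h2' : (⟨x, hx⟩ : P) ^ P.index ∈ M.subgroupOf P := (QuotientGroup.eq_one_iff _).1 h1.symm
    have h2 : x ^ P.index ∈ M := h2'
    obtain ⟨m, hm⟩ := (hPmem x).1 hx
    have h3 : (P.index).Coprime (p ^ m) :=
      ((Nat.Prime.coprime_iff_not_dvd hp.1).2 hPidx).symm.pow_right m
    have h4 : ((x : G) : G ⧸ M) ^ P.index = 1 := (QuotientGroup.eq_one_iff _).2 h2
    have h5 : ((x : G) : G ⧸ M) ^ (p ^ m) = 1 := by
      rw [← QuotientGroup.mk_pow, hm]; rfl
    rw [← QuotientGroup.eq_one_iff, ← orderOf_eq_one_iff]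
    exact Nat.eq_one_of_dvd_coprimes h3 (orderOf_dvd_of_pow_eq_one h4)
      (orderOf_dvd_of_pow_eq_one h5)
  apply hPidx
  rw [← hidx]
  exact Subgroup.index_dvd_of_le hPM

end

end Pool.Agent.Work.MP_6f5fa7_al
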