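import Mathlib

/-!
# Varieties and quasivarieties of groups

Group words are elements of the free group on countably many letters `x₀, x₁, …`.
-/

set_option autoImplicit false

namespace Pool.Agent.Work.MP_6f5fa7_al

/-- The identity `w = 1` holds in the group `G`. -/
def SatLaw (G : Type) [Group G] (w : FreeGroup ℕ) : Prop :=
  ∀ v : ℕ → G, FreeGroup.lift v w = 1

/-- The variety of groups defined by a set `W` of words: `G` satisfies `w = 1` for all `w ∈ W`. -/
def InVar (W : Set (FreeGroup ℕ)) (G : Type) [Group G] : Prop :=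
  ∀ w ∈ W, SatLaw G w

/-- A quasi-identity `(u₁ = 1 ∧ … ∧ u_k = 1) → u = 1`. -/
structure QuasiId where
  /-- the words `u₁, …, u_k` -/
  prem : List (FreeGroup ℕ)
  /-- the word `u` -/
  concl : FreeGroup ℕ

/-- The quasi-identity `q` holds in the group `G`. -/
def SatQ (G : Type) [Group G] (q : QuasiId) : Prop :=
  ∀ v : ℕ → G, (∀ u ∈ q.prem, FreeGroup.lift v u = 1) → FreeGroup.lift v q.concl = 1

/-- The quasivariety of groups defined by a set `Θ` of quasi-identities. -/
def InQVar (Θ : Set QuasiId) (G : Type) [Group G] : Prop :=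
  ∀ q ∈ Θ, SatQ G q

/-- The variety defined by `W` is primitive: every quasivariety contained in it is a variety. -/
def IsPrimitive (W : Set (FreeGroup ℕ)) : Prop :=
  ∀ Θ : Set QuasiId, (∀ (G : Type) [Group G], InQVar Θ G → InVar W G) →
    ∃ W' : Set (FreeGroup ℕ), ∀ (G : Type) [Group G], InQVar Θ G ↔ InVar W' G

/-- The variety defined by `W` is locally finite: its finitely generated members are finite. -/
def IsLocFinite (W : Set (FreeGroup ℕ)) : Prop :=
  ∀ (G : Type) [Group G], InVar W G → Group.FG G → Finite G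

/-- `G` is the internal direct product of an abelian `p`-group `A` and a subgroup `X` which has no
normal subgroup of index `p`. -/
def SplitsAt (p : ℕ) (G : Type) [Group G] : Prop :=
  ∃ A X : Subgroup G, A.Normal ∧ X.Normal ∧ A ⊓ X = ⊥ ∧ A ⊔ X = ⊤ ∧
    IsPGroup p A ∧ (∀ a ∈ A, ∀ b ∈ A, a * b = b * a) ∧
    ∀ M : Subgroup X, M.Normal → M.index ≠ p

end Pool.Agent.Work.MP_6f5fa7_al
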