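import Pool.Agent.Work.MP_6f5fa7_al.Defs

/-!
# Closure properties of varieties and quasivarieties
-/

set_option autoImplicit false

namespace Pool.Agent.Work.MP_6f5fa7_al

lemma lift_hom {G H : Type*} [Group G] [Group H] (f : G →* H) (v : ℕ → G) (w : FreeGroup ℕ) :
    f (FreeGroup.lift v w) = FreeGroup.lift (fun i => f (v i)) w := by
  have h : f.comp (FreeGroup.lift v) = FreeGroup.lift (fun i => f (v i)) := by
    apply FreeGroup.ext_hom
    intro a
    simp
  rw [← h]; rfl

variable {W : Set (FreeGroup ℕ)}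

lemma SatLaw.of_inj {G H : Type} [Group G] [Group H] {w : FreeGroup ℕ} (h : SatLaw G w)
    (f : H →* G) (hf : Function.Injective f) : SatLaw H w := by
  intro v
  apply hf
  rw [lift_hom, map_one]
  exact h _

lemma SatLaw.of_surj {G H : Type} [Group G] [Group H] {w : FreeGroup ℕ} (h : SatLaw G w)
    (f : G →* H) (hf : Function.Surjective f) : SatLaw H w := by
  intro v
  choose u hu using fun i => hf (v i)
  have h1 : v = fun i => f (u i) := funext fun i => (hu i).symm
  rw [h1, ← lift_hom, h u, map_one]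

lemma SatLaw.pi {ι : Type} {G : ι → Type} [∀ i, Group (G i)] {w : FreeGroup ℕ}
    (h : ∀ i, SatLaw (G i) w) : SatLaw (∀ i, G i) w := by
  intro v
  funext i
  have h1 := lift_hom (Pi.evalMonoidHom G i) v w
  rw [h i] at h1
  exact h1

lemma SatLaw.prod {G H : Type} [Group G] [Group H] {w : FreeGroup ℕ}
    (h1 : SatLaw G w) (h2 : SatLaw H w) : SatLaw (G × H) w := by
  intro v
  apply Prod.ext
  · have h := lift_hom (MonoidHom.fst G H) v w
    rw [h1] at h
    exact h
  · have h := lift_hom (MonoidHom.snd G H) v w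
    rw [h2] at h
    exact h

lemma InVar.of_inj {G H : Type} [Group G] [Group H] (h : InVar W G)
    (f : H →* G) (hf : Function.Injective f) : InVar W H :=
  fun w hw => (h w hw).of_inj f hf

lemma InVar.of_surj {G H : Type} [Group G] [Group H] (h : InVar W G)
    (f : G →* H) (hf : Function.Surjective f) : InVar W H :=
  fun w hw => (h w hw).of_surj f hf

lemma InVar.prod {G H : Type} [Group G] [Group H] (h1 : InVar W G) (h2 : InVar W H) :
    InVar W (G × H) :=
  fun w hw => (h1 w hw).prod (h2 w hw)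

lemma InVar.pi {ι : Type} {G : ι → Type} [∀ i, Group (G i)] (h : ∀ i, InVar W (G i)) :
    InVar W (∀ i, G i) :=
  fun w hw => SatLaw.pi (fun i => h i w hw)

/-- group elements of order divisible by `p ^ 2` give a cyclic group of order `p ^ 2` -/
lemma InVar.cyclic {G : Type} [Group G] (h : InVar W G) {n : ℕ} (g : G)
    (hg : orderOf g = n) : InVar W (Multiplicative (ZMod n)) := by
  have hcard : Nat.card (Multiplicative (ZMod n)) = Nat.card (Subgroup.zpowers g) := by
    rw [Nat.card_zpowers, hg]
    show Nat.card (ZMod n) = n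
    exact Nat.card_zmod n
  let e : Multiplicative (ZMod n) ≃* Subgroup.zpowers g := mulEquivOfCyclicCardEq hcard
  exact h.of_inj ((Subgroup.zpowers g).subtype.comp e.toMonoidHom)
    ((Subgroup.zpowers g).subtype_injective.comp e.injective)

lemma InVar.cyclic_pow {G : Type} [Group G] (h : InVar W G) {p n k : ℕ} (hp : p.Prime) (g : G)
    (hg : orderOf g = p ^ n) (hk : k ≤ n) : InVar W (Multiplicative (ZMod (p ^ k))) := by
  refine h.cyclic (g ^ (p ^ (n - k))) ?_
  rw [orderOf_pow' _ (pow_ne_zero _ hp.ne_zero), hg,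
    Nat.gcd_eq_right (pow_dvd_pow p (Nat.sub_le n k)),
    Nat.pow_div (Nat.sub_le n k) hp.pos, Nat.sub_sub_self hk]

/-- if the cyclic group of order `p ^ 2` is not in the variety, `p`-elements have order `p` -/
lemma InVar.exp_p {G : Type} [Group G] (h : InVar W G) {p : ℕ} (hp : p.Prime)
    (hno : ¬ InVar W (Multiplicative (ZMod (p ^ 2)))) (x : G) {n : ℕ} (hx : x ^ (p ^ n) = 1) :
    x ^ p = 1 := by
  obtain ⟨m, -, hm⟩ := (Nat.dvd_prime_pow hp).1 (orderOf_dvd_of_pow_eq_one hx)
  by_cases hm2 : 2 ≤ m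
  · exact absurd (h.cyclic_pow hp x hm hm2) hno
  · rw [← orderOf_dvd_iff_pow_eq_one, hm]
    exact (pow_dvd_pow p (by omega : m ≤ 1)).trans (by rw [pow_one])

end Pool.Agent.Work.MP_6f5fa7_al
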