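import Pool.Agent.Work.MP_6f5fa7_al.Uni
import Pool.Agent.Work.MP_6f5fa7_al.InVar

/-!
# Monolithic quotients embed
-/

set_option autoImplicit false

namespace Pool.Agent.Work.MP_6f5fa7_al

open Subgroup

/-- coprime order and index for a `p`-subgroup containing all `p`-elements -/
lemma coprime_of_all {K : Type*} [Group K] [Finite K] {p : ℕ} [hp : Fact p.Prime] (C : Subgroup K)
    (hC : IsPGroup p C) (hall : ∀ (x : K) (n : ℕ), x ^ (p ^ n) = 1 → x ∈ C) :
    (Nat.card C).Coprime C.index := by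
  obtain ⟨P, hP⟩ := hC.exists_le_sylow
  have h1 : C = P := by
    apply le_antisymm hP
    intro x hx
    obtain ⟨n, hn⟩ := P.isPGroup' ⟨x, hx⟩
    exact hall x n (congrArg Subtype.val hn)
  rw [h1]
  exact P.card_coprime_index

/-- a retraction onto a complement of a normal subgroup -/
lemma exists_compl_retract {K : Type*} [Group K] (C L : Subgroup K) [hC : C.Normal]
    (h1 : C ⊓ L = ⊥) (h2 : C ⊔ L = ⊤) :
    ∃ f : K →* K, (∀ g, f g ∈ L) ∧ (∀ c ∈ C, f c = 1) ∧ ∀ g, g * (f g)⁻¹ ∈ C := by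
  classical
  have hex : ∀ g : K, ∃ x ∈ L, g * x⁻¹ ∈ C := by
    intro g
    have hg : g ∈ (↑(C ⊔ L) : Set K) := by rw [h2]; trivial
    rw [Subgroup.normal_mul] at hg
    obtain ⟨a, ha, x, hx, rfl⟩ := hg
    exact ⟨x, hx, by simpa using ha⟩
  choose f hf1 hf2 using hex
  have huniq : ∀ g x, x ∈ L → g * x⁻¹ ∈ C → f g = x := by
    intro g x hx hgx
    have h3 : (f g) * x⁻¹ ∈ C ⊓ L := by
      refine ⟨?_, L.mul_mem (hf1 g) (L.inv_mem hx)⟩
      have := C.mul_mem (C.inv_mem (hf2 g)) hgx
      have h4 : (g * (f g)⁻¹)⁻¹ * (g * x⁻¹) = f g * x⁻¹ := by group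
      rwa [h4] at this
    rw [h1, Subgroup.mem_bot, mul_inv_eq_one] at h3
    exact h3
  refine ⟨MonoidHom.mk' f ?_, hf1, ?_, hf2⟩
  · intro a b
    apply huniq _ _ (L.mul_mem (hf1 a) (hf1 b))
    have h4 : a * b * (f a * f b)⁻¹ = (a * (b * (f b)⁻¹) * a⁻¹) * (a * (f a)⁻¹) := by group
    rw [h4]
    exact C.mul_mem (hC.conj_mem _ (hf2 b) a) (hf2 a)
  · intro a ha
    apply huniq _ _ L.one_mem
    simpa using ha

/-- If the kernel of `π` is the group of elements of order dividing `q` in a normal abelian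
Hall subgroup, then the image embeds. -/
lemma embed_of_ker {K H : Type*} [Group K] [Finite K] [Group H] (C : Subgroup K) [hC : C.Normal]
    (hCc : ∀ a ∈ C, ∀ b ∈ C, a * b = b * a) (hcop : (Nat.card C).Coprime C.index)
    (π : K →* H) (hπ : Function.Surjective π) (hNC : π.ker ≤ C) (q : ℕ)
    (hq : ∀ x ∈ C, x ∈ π.ker ↔ x ^ q = 1) : ∃ ι : H →* K, Function.Injective ι := by
  obtain ⟨L, hL⟩ := Subgroup.exists_right_complement'_of_coprime hcop
  have hL1 : C ⊓ L = ⊥ := hL.disjoint.eq_bot
  have hL2 : C ⊔ L = ⊤ := hL.sup_eq_top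
  obtain ⟨f, hf1, hf2, hf3⟩ := exists_compl_retract C L hL1 hL2
  let ψ : K →* K := MonoidHom.mk' (fun k => (k * (f k)⁻¹) ^ q * f k) (by
    intro a b
    have h1 : a * b * (f (a * b))⁻¹ = (a * (f a)⁻¹) * (f a * (b * (f b)⁻¹) * (f a)⁻¹) := by
      rw [map_mul]; group
    have h2 : Commute (a * (f a)⁻¹) (f a * (b * (f b)⁻¹) * (f a)⁻¹) :=
      hCc _ (hf3 a) _ (hC.conj_mem _ (hf3 b) _)
    show (a * b * (f (a * b))⁻¹) ^ q * f (a * b) = (a * (f a)⁻¹) ^ q * f a *
      ((b * (f b)⁻¹) ^ q * f b)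
    rw [h1, h2.mul_pow, conj_pow, map_mul]
    group)
  have hψ : ∀ k, ψ k = (k * (f k)⁻¹) ^ q * f k := fun k => rfl
  have hker : ∀ k, ψ k = 1 ↔ k ∈ π.ker := by
    intro k
    constructor
    · intro hk
      rw [hψ] at hk
      have h1 : f k = ((k * (f k)⁻¹) ^ q)⁻¹ := eq_inv_of_mul_eq_one_right hk
      have h2 : f k ∈ C ⊓ L := by
        refine ⟨?_, hf1 k⟩
        rw [h1]
        exact C.inv_mem (C.pow_mem (hf3 k) q)
      rw [hL1, Subgroup.mem_bot] at h2
      rw [h2, inv_one, mul_one, mul_one] at hk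
      have h3 := hf3 k
      rw [h2, inv_one, mul_one] at h3
      exact (hq k h3).2 hk
    · intro hk
      have h3 := hNC hk
      rw [hψ, hf2 k h3, inv_one, mul_one, mul_one]
      exact (hq k h3).1 hk
  let ι : H →* K := π.liftOfSurjective hπ ⟨ψ, fun k hk => (hker k).2 hk⟩
  have hι : ∀ k, ι (π k) = ψ k := fun k => MonoidHom.liftOfRightInverse_comp_apply _ _ _ _ k
  refine ⟨ι, ?_⟩
  rw [injective_iff_map_eq_one]
  intro h hh
  obtain ⟨k, rfl⟩ := hπ h
  rw [hι] at hh
  exact (hker k).1 hh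

/-- the two conditions -/
structure Cond (W : Set (FreeGroup ℕ)) : Prop where
  ab : ∀ p : ℕ, p.Prime → ∀ (G : Type) [Group G] [Finite G], InVar W G → IsPGroup p G →
    ∀ a b : G, a * b = b * a
  split : ∀ p : ℕ, p.Prime → InVar W (Multiplicative (ZMod (p ^ 2))) →
    ∀ (G : Type) [Group G] [Finite G], InVar W G → SplitsAt p G

variable {W : Set (FreeGroup ℕ)}

lemma Cond.abSyl (hW : Cond W) {p : ℕ} (hp : p.Prime) {G : Type} [Group G] [Finite G]
    (hG : InVar W G) : AbSyl p G := by
  intro Q hQ a ha b hb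
  have := hW.ab p hp Q (hG.of_inj Q.subtype Q.subtype_injective) hQ ⟨a, ha⟩ ⟨b, hb⟩
  exact congrArg Subtype.val this

section

variable {K : Type} [Group K] [Finite K] {H : Type} [Group H] {p : ℕ} [hp : Fact p.Prime]

lemma no_retract (π : K →* H) (hN : π.ker ≠ ⊥)
    (hfrat : ∀ U : Subgroup K, U ⊔ π.ker = ⊤ → U = ⊤) (hab : AbSyl p K)
    (P : Subgroup K) (hPp : IsPGroup p P) (hcop : (Nat.card P).Coprime P.index)
    (hNP : π.ker ≤ P)
    (r : P →* K) (hr1 : ∀ x, r x ∈ π.ker) (hr2 : ∀ x : P, (x : K) ∈ π.ker → r x = x) : False := by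
  have hcop' : (Nat.card π.ker).Coprime P.index :=
    Nat.Coprime.coprime_dvd_left (Subgroup.card_dvd_of_le hNP) hcop
  obtain ⟨U, hU1, hU2⟩ := gaschutz P π.ker hNP (hab P hPp) hcop' r hr1 hr2
  have hU := hfrat U hU2
  rw [hU, top_inf_eq] at hU1
  exact hN hU1

/-- the case where the kernel is a `p`-group -/
theorem embed_pgroup (hW : Cond W) (hK : InVar W K) (π : K →* H) (hπ : Function.Surjective π)
    (hmono : Monolithic H) (hN : π.ker ≠ ⊥)
    (hfrat : ∀ U : Subgroup K, U ⊔ π.ker = ⊤ → U = ⊤) (hNp : IsPGroup p π.ker) :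
    ∃ ι : H →* K, Function.Injective ι := by
  classical
  have hab : AbSyl p K := hW.abSyl hp.1 hK
  by_cases hV : InVar W (Multiplicative (ZMod (p ^ 2)))
  · -- the subgroup generated by the `p`-elements
    let C : Subgroup K := closure {x | ∃ n : ℕ, x ^ (p ^ n) = 1}
    have hCn : C.Normal := by
      apply closure_normal_of_conj
      rintro s ⟨n, hn⟩ g
      exact ⟨n, by rw [conj_pow, hn, mul_one, mul_inv_cancel]⟩
    have hall : ∀ (x : K) (n : ℕ), x ^ (p ^ n) = 1 → x ∈ C := fun x n hx => subset_closure ⟨n, hx⟩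
    have hNC : π.ker ≤ C := by
      intro a ha
      obtain ⟨n, hn⟩ := hNp ⟨a, ha⟩
      exact hall a n (congrArg Subtype.val hn)
    have hcen : ∀ a ∈ π.ker, ∀ c ∈ C, a * c = c * a := by
      intro a ha c hc
      induction hc using Subgroup.closure_induction with
      | mem x hx =>
        obtain ⟨n, hn⟩ := hx
        have hzp : IsPGroup p (zpowers x) := by
          rintro ⟨y, hy⟩
          obtain ⟨k, rfl⟩ := Subgroup.mem_zpowers_iff.1 hy
          refine ⟨n, Subtype.ext ?_⟩
          show (x ^ k) ^ (p ^ n) = 1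
          rw [← zpow_natCast, ← zpow_mul, mul_comm, zpow_mul, zpow_natCast, hn, one_zpow]
        exact hab _ (hNp.to_sup_of_normal_left hzp) a (Subgroup.mem_sup_left ha) x
          (Subgroup.mem_sup_right (Subgroup.mem_zpowers x))
      | one => simp
      | mul x y _ _ hx hy => rw [← mul_assoc, hx, mul_assoc, hy, mul_assoc]
      | inv x _ hx =>
        rw [eq_inv_mul_iff_mul_eq, ← mul_assoc, ← hx, mul_inv_cancel_right]
    have hCab : AbSyl p C := hab.of_inj C.subtype C.subtype_injective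
    obtain ⟨A, X, hA, hX, hAX1, hAX2, hAp, hAc, hXidx⟩ := hW.split p hp.1 hV C
      (hK.of_inj C.subtype C.subtype_injective)
    have hAch : A.Characteristic := by
      rw [characteristic_iff_le_comap]
      intro φ z hz
      rw [split_A_mem hCab hAX1 hAX2 hAp hXidx] at hz
      obtain ⟨hz1, n, hn⟩ := hz
      show φ z ∈ A
      rw [split_A_mem hCab hAX1 hAX2 hAp hXidx]
      refine ⟨fun g => ?_, n, by rw [← map_pow, hn, map_one]⟩
      obtain ⟨g', rfl⟩ := φ.surjective g
      rw [← map_mul, ← map_mul, hz1]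
    have hXch : X.Characteristic := by
      rw [split_X_eq hCab hAX1 hAX2 hAp hXidx, characteristic_iff_le_comap]
      intro φ
      rw [Opp, closure_le]
      intro g hg
      apply Subgroup.subset_closure
      show (orderOf (φ g)).Coprime p
      rw [MulEquiv.orderOf_eq]
      exact hg
    have hA0 : (A.map C.subtype).Normal := ConjAct.normal_of_characteristic_of_normal
    have hX0 : (X.map C.subtype).Normal := ConjAct.normal_of_characteristic_of_normal
    have hNA : ∀ a (ha : a ∈ π.ker), (⟨a, hNC ha⟩ : C) ∈ A := by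
      intro a ha
      rw [split_A_mem hCab hAX1 hAX2 hAp hXidx]
      refine ⟨fun g => Subtype.ext (hcen a ha g g.2), ?_⟩
      obtain ⟨n, hn⟩ := hNp ⟨a, ha⟩
      have hn' : a ^ (p ^ n) = 1 := congrArg Subtype.val hn
      exact ⟨n, Subtype.ext hn'⟩
    have hdis : ∀ x : C, x ∈ A → x ∈ X → x = 1 := by
      intro x h1 h2
      have h3 : x ∈ A ⊓ X := ⟨h1, h2⟩
      rw [hAX1] at h3
      exact Subgroup.mem_bot.1 h3
    obtain ⟨h, hh1, hh⟩ := hmono
    by_cases hXb : X = ⊥
    · -- `C` is a normal abelian Sylow subgroup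
      rw [hXb, sup_bot_eq] at hAX2
      have hCp : IsPGroup p C := by
        intro c
        have hc : c ∈ A := by rw [hAX2]; trivial
        obtain ⟨n, hn⟩ := hAp ⟨c, hc⟩
        exact ⟨n, congrArg Subtype.val hn⟩
      have hCc := hab C hCp
      have hcop := coprime_of_all C hCp hall
      obtain ⟨j, hj⟩ := ker_eq_om C hCc hCp hcop π hπ hNC hfrat ⟨h, hh1, hh⟩
      exact embed_of_ker C hCc hcop π hπ hNC _ hj
    · exfalso
      have h1 : (X.map C.subtype).map π ≠ ⊥ := by
        intro hbot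
        apply hXb
        rw [eq_bot_iff]
        intro x hx
        have h2 : π x ∈ (X.map C.subtype).map π := ⟨x, ⟨x, hx, rfl⟩, rfl⟩
        rw [hbot, Subgroup.mem_bot] at h2
        have h3 := hNA x h2
        exact Subgroup.mem_bot.2 (hdis x h3 hx)
      have h2 : (A.map C.subtype).map π = ⊥ := by
        by_contra hne
        have hA1 := hh _ (hA0.map π hπ) hne
        have hX1 := hh _ (hX0.map π hπ) h1
        obtain ⟨_, ⟨a, ha, rfl⟩, hah⟩ := hA1
        obtain ⟨_, ⟨x, hx, rfl⟩, hxh⟩ := hX1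
        have h3 : ((a : K)⁻¹ * x) ∈ π.ker := by
          rw [MonoidHom.mem_ker, map_mul, map_inv]
          have e1 : π a = h := hah
          have e2 : π x = h := hxh
          rw [e1, e2, inv_mul_cancel]
        have h4 := hNA _ h3
        have h5 : x ∈ A := by
          have h6 : (⟨(a : K)⁻¹ * x, hNC h3⟩ : C) = a⁻¹ * x := rfl
          rw [h6] at h4
          have h7 := A.mul_mem ha h4
          rwa [mul_inv_cancel_left] at h7
        have h8 := hdis x h5 hx
        apply hh1
        rw [← hxh, h8]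
        exact map_one π
      have h3 : ∀ a : C, a ∈ A → (a : K) ∈ π.ker := by
        intro a ha
        have h4 : π a ∈ (A.map C.subtype).map π := ⟨a, ⟨a, ha, rfl⟩, rfl⟩
        rw [h2, Subgroup.mem_bot] at h4
        exact h4
      obtain ⟨P, hP⟩ := hNp.exists_le_sylow
      have hPC : (P : Subgroup K) ≤ C := by
        intro x hx
        obtain ⟨n, hn⟩ := P.isPGroup' ⟨x, hx⟩
        exact hall x n (congrArg Subtype.val hn)
      obtain ⟨f, hf1, hf2, hf3, hf4⟩ := exists_proj X A (by rw [inf_comm, hAX1])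
        (by rw [sup_comm, hAX2])
      refine no_retract π hN hfrat hab (P : Subgroup K) P.isPGroup' P.card_coprime_index hP
        ((C.subtype.comp f).comp (Subgroup.inclusion hPC))
        (fun x => h3 _ (hf1 _)) (fun x hx => ?_)
      have h4 : Subgroup.inclusion hPC x ∈ A := hNA _ hx
      have h5 := hf2 _ h4
      show ((f (Subgroup.inclusion hPC x) : C) : K) = x
      rw [h5]
      rfl
  · exfalso
    obtain ⟨P, hP⟩ := hNp.exists_le_sylow
    obtain ⟨r, hr1, hr2⟩ := exists_retract (p := p) (P : Subgroup K) π.ker (hab P P.isPGroup')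
      (fun x hx => by
        obtain ⟨n, hn⟩ := P.isPGroup' ⟨x, hx⟩
        exact hK.exp_p hp.1 hV x (n := n) (congrArg Subtype.val hn))
    exact no_retract π hN hfrat hab (P : Subgroup K) P.isPGroup' P.card_coprime_index hP r hr1 hr2

end

/-- **Monolithic quotients embed.** -/
theorem embed (hW : Cond W) {H : Type} [Group H] (hmono : Monolithic H) :
    ∀ (n : ℕ) (K : Type) [Group K] [Finite K], InVar W K → Nat.card K = n →
      ∀ π : K →* H, Function.Surjective π → ∃ ι : H →* K, Function.Injective ι := by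
  intro n
  induction n using Nat.strong_induction_on with
  | _ n ih =>
  intro K _ _ hK hcard π hπ
  classical
  -- induction step for proper supplements
  have hstep : ∀ (U : Subgroup K), U ≠ ⊤ → ∀ ρ : U →* H, Function.Surjective ρ →
      ∃ ι : H →* K, Function.Injective ι := by
    intro U hU ρ hρ
    have hlt : Nat.card U < n := by
      rw [← hcard]
      refine lt_of_le_of_ne (Subgroup.card_le_card_group U) (fun h => hU ?_)
      exact Subgroup.eq_top_of_card_eq U h
    obtain ⟨ι, hι⟩ := ih _ hlt U (hK.of_inj U.subtype U.subtype_injective) rfl ρ hρ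
    exact ⟨U.subtype.comp ι, U.subtype_injective.comp hι⟩
  by_cases hfrat : ∀ U : Subgroup K, U ⊔ π.ker = ⊤ → U = ⊤
  swap
  · push Not at hfrat
    obtain ⟨U, hU1, hU2⟩ := hfrat
    refine hstep U hU2 (π.comp U.subtype) ?_
    intro h
    obtain ⟨k, rfl⟩ := hπ h
    have hk : k ∈ (↑(U ⊔ π.ker) : Set K) := by rw [hU1]; trivial
    rw [Subgroup.mul_normal] at hk
    obtain ⟨u, hu, x, hx, rfl⟩ := hk
    refine ⟨⟨u, hu⟩, ?_⟩
    show π u = π (u * x)
    rw [map_mul, show π x = 1 from hx, mul_one]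
  by_cases hN : π.ker = ⊥
  · let e : K ≃* H := MulEquiv.ofBijective π ⟨(MonoidHom.ker_eq_bot_iff π).1 hN, hπ⟩
    exact ⟨e.symm.toMonoidHom, e.symm.injective⟩
  have hNcard : Nat.card π.ker ≠ 1 := fun h => hN (Subgroup.eq_bot_of_card_eq _ h)
  obtain ⟨p, hp, hpdvd⟩ := Nat.exists_prime_and_dvd hNcard
  have hpf : Fact p.Prime := ⟨hp⟩
  let S : Sylow p π.ker := default
  have hSn : ((S : Subgroup π.ker).map π.ker.subtype).Normal := by
    rw [← Subgroup.normalizer_eq_top_iff]
    exact hfrat _ (Sylow.normalizer_sup_eq_top S)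
  have hSle : (S : Subgroup π.ker).map π.ker.subtype ≤ π.ker := by
    rintro _ ⟨x, -, rfl⟩
    exact x.2
  by_cases hS : (S : Subgroup π.ker).map π.ker.subtype = π.ker
  · have hNp : IsPGroup p π.ker := by
      rw [← hS]
      exact S.isPGroup'.map _
    exact embed_pgroup hW hK π hπ hmono hN hfrat hNp
  · set S0 := (S : Subgroup π.ker).map π.ker.subtype with hS0
    let π' : K ⧸ S0 →* H := QuotientGroup.lift S0 π hSle
    have hπ' : Function.Surjective π' := by
      intro h
      obtain ⟨k, rfl⟩ := hπ h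
      exact ⟨(k : K ⧸ S0), rfl⟩
    have hSne : S0 ≠ ⊥ := by
      intro hbot
      have h1 : (S : Subgroup π.ker) = ⊥ := by
        rw [hS0, Subgroup.map_eq_bot_iff_of_injective _ π.ker.subtype_injective] at hbot
        exact hbot
      have h2 := S.ne_bot_of_dvd_card hpdvd
      exact h2 h1
    have hlt : Nat.card (K ⧸ S0) < n := by
      rw [← hcard, S0.card_eq_card_quotient_mul_card_subgroup]
      have h1 : 1 < Nat.card S0 := by
        rw [Subgroup.one_lt_card_iff_ne_bot]; exact hSne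
      have h2 : 0 < Nat.card (K ⧸ S0) := Nat.card_pos
      exact lt_mul_of_one_lt_right h2 h1
    obtain ⟨ι, hι⟩ := ih _ hlt (K ⧸ S0)
      (hK.of_surj (QuotientGroup.mk' S0) (QuotientGroup.mk'_surjective S0)) rfl π' hπ'
    have hU : ι.range.comap (QuotientGroup.mk' S0) ≠ ⊤ := by
      intro htop
      apply hS
      have h1 : Function.Surjective ι := by
        intro x
        obtain ⟨k, rfl⟩ := QuotientGroup.mk_surjective x
        have : k ∈ ι.range.comap (QuotientGroup.mk' S0) := by rw [htop]; trivial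
        exact this
      have h2 : Nat.card H = Nat.card (K ⧸ S0) := Nat.card_congr (Equiv.ofBijective ι ⟨hι, h1⟩)
      have h3 : Nat.card H = Nat.card (K ⧸ π.ker) :=
        Nat.card_congr (QuotientGroup.quotientKerEquivOfSurjective π hπ).toEquiv.symm
      have h4 := S0.card_eq_card_quotient_mul_card_subgroup
      have h5 := π.ker.card_eq_card_quotient_mul_card_subgroup
      rw [← h2] at h4
      rw [← h3] at h5
      have h6 : 0 < Nat.card H := by rw [h3]; exact Nat.card_pos
      apply Subgroup.eq_of_le_of_card_ge hSle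
      exact (Nat.eq_of_mul_eq_mul_left h6 (h5.symm.trans h4)).le
    let e : H ≃* ι.range := MonoidHom.ofInjective hι
    refine hstep _ hU (e.symm.toMonoidHom.comp
      ((QuotientGroup.mk' S0).subgroupComap ι.range)) ?_
    exact e.symm.surjective.comp ((QuotientGroup.mk' S0).subgroupComap_surjective_of_surjective
      ι.range (QuotientGroup.mk'_surjective S0))

end Pool.Agent.Work.MP_6f5fa7_al
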