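import Pool.Agent.Work.MP_6f5fa7_al.Suff

/-!
# The one-word criterion

Let `T` be a nonabelian group of prime exponent `p` and `Φ` a word in the commutator subgroup of
the free group on `x, y` such that `y = Φ(x, y)` for all noncommuting `x, y` in `T`.  Then the
variety of `T` is primitive and not locally finite.
-/

set_option autoImplicit false

namespace Pool.Agent.Work.MP_6f5fa7_al.OneWord

open Subgroup

open scoped commutatorElement

/-! ### Values of a two-letter word -/

/-- The value of the word `Φ` at `a, b`. -/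
def ev (Φ : FreeGroup (Fin 2)) {G : Type*} [Group G] (a b : G) : G := FreeGroup.lift ![a, b] Φ

theorem ev_hom (Φ : FreeGroup (Fin 2)) {G H : Type*} [Group G] [Group H] (f : G →* H) (a b : G) :
    f (ev Φ a b) = ev Φ (f a) (f b) := by
  have h : f.comp (FreeGroup.lift ![a, b]) = FreeGroup.lift ![f a, f b] := by
    apply FreeGroup.ext_hom
    intro i
    fin_cases i <;> simp
  exact DFunLike.congr_fun h Φ

/-- If `z` commutes with `a` and `b` then `Φ(a, z b) = Φ(a, b) z^e`. -/
theorem ev_central_aux {G : Type*} [Group G] (a b z : G) (ha : z * a = a * z) (hb : z * b = b * z)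
    (w : FreeGroup (Fin 2)) : FreeGroup.lift ![a, z * b] w =
      FreeGroup.lift ![a, b] w * FreeGroup.lift ![1, z] w ∧
      Commute (FreeGroup.lift ![1, z] w) a ∧ Commute (FreeGroup.lift ![1, z] w) b := by
  induction w using FreeGroup.induction_on with
  | C1 => simp
  | of i =>
    fin_cases i
    · simp
    · refine ⟨?_, ?_, ?_⟩
      · simp [hb]
      · simpa using (show Commute z a from ha)
      · simpa using (show Commute z b from hb)
  | inv_of i _ =>
    fin_cases i
    · simp
    · refine ⟨?_, ?_, ?_⟩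
      · simp [mul_inv_rev]
      · simpa using (show Commute z a from ha).inv_left
      · simpa using (show Commute z b from hb).inv_left
  | mul x y hx hy =>
    obtain ⟨h1, h2, h3⟩ := hx
    obtain ⟨h4, h5, h6⟩ := hy
    have hc : ∀ (c : G), Commute c a → Commute c b → ∀ v : FreeGroup (Fin 2),
        Commute c (FreeGroup.lift ![a, b] v) := by
      intro c hca hcb v
      induction v using FreeGroup.induction_on with
      | C1 => simp
      | of i => fin_cases i <;> simpa
      | inv_of i _ => fin_cases i <;> simp [hca, hcb]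
      | mul v v' h h' => rw [map_mul]; exact h.mul_right h'
    refine ⟨?_, ?_, ?_⟩
    · rw [map_mul, map_mul, map_mul, h1, h4]
      have := (hc _ h2 h3 y).eq
      calc FreeGroup.lift ![a, b] x * FreeGroup.lift ![1, z] x *
            (FreeGroup.lift ![a, b] y * FreeGroup.lift ![1, z] y)
          = FreeGroup.lift ![a, b] x * (FreeGroup.lift ![1, z] x *
            FreeGroup.lift ![a, b] y) * FreeGroup.lift ![1, z] y := by group
        _ = _ := by rw [this]; group
    · rw [map_mul]; exact h2.mul_left h5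
    · rw [map_mul]; exact h3.mul_left h6

/-- A word of the commutator subgroup is trivial at commuting elements. -/
theorem ev_comm {Φ : FreeGroup (Fin 2)} (hΦ : Φ ∈ commutator (FreeGroup (Fin 2))) {G : Type*}
    [Group G] (a b : G) (h : a * b = b * a) : ev Φ a b = 1 := by
  have hab : ∀ v w : FreeGroup (Fin 2), Commute (FreeGroup.lift ![a, b] v)
      (FreeGroup.lift ![a, b] w) := by
    have h1 : ∀ (c : G), Commute c a → Commute c b → ∀ v : FreeGroup (Fin 2),
        Commute c (FreeGroup.lift ![a, b] v) := by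
      intro c hca hcb v
      induction v using FreeGroup.induction_on with
      | C1 => simp
      | of i => fin_cases i <;> simpa
      | inv_of i _ => fin_cases i <;> simp [hca, hcb]
      | mul v v' h h' => rw [map_mul]; exact h.mul_right h'
    intro v w
    apply h1
    · exact (h1 a (Commute.refl a) h v).symm
    · exact (h1 b (Commute.symm h) (Commute.refl b) v).symm
  have hle : commutator (FreeGroup (Fin 2)) ≤ (FreeGroup.lift ![a, b]).ker := by
    rw [commutator_def, Subgroup.commutator_le]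
    intro v _ w _
    rw [MonoidHom.mem_ker, map_commutatorElement]
    exact (commutatorElement_eq_one_iff_commute).2 (hab v w)
  exact hle hΦ

theorem ev_one_right {Φ : FreeGroup (Fin 2)} (hΦ : Φ ∈ commutator (FreeGroup (Fin 2)))
    {G : Type*} [Group G] (a : G) : ev Φ a 1 = 1 := ev_comm hΦ a 1 (by simp)

theorem ev_one_left {Φ : FreeGroup (Fin 2)} (hΦ : Φ ∈ commutator (FreeGroup (Fin 2)))
    {G : Type*} [Group G] (a : G) : ev Φ 1 a = 1 := ev_comm hΦ 1 a (by simp)

theorem ev_central {Φ : FreeGroup (Fin 2)} (hΦ : Φ ∈ commutator (FreeGroup (Fin 2)))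
    {G : Type*} [Group G] (a b z : G) (ha : z * a = a * z) (hb : z * b = b * z) :
    ev Φ a (z * b) = ev Φ a b := by
  have h := (ev_central_aux a b z ha hb Φ).1
  have h2 : FreeGroup.lift ![1, z] Φ = 1 := ev_comm hΦ 1 z (by simp)
  rw [h2, mul_one] at h
  exact h

/-- Values of `Φ` lie in the normal closure of the first argument. -/
theorem ev_mem {Φ : FreeGroup (Fin 2)} (hΦ : Φ ∈ commutator (FreeGroup (Fin 2)))
    {G : Type*} [Group G] (N : Subgroup G) [N.Normal] (a b : G) (ha : a ∈ N) : ev Φ a b ∈ N := by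
  rw [← QuotientGroup.eq_one_iff]
  have h := ev_hom Φ (QuotientGroup.mk' N) a b
  have h1 : (QuotientGroup.mk' N) a = 1 := (QuotientGroup.eq_one_iff a).2 ha
  rw [h1, ev_one_left hΦ] at h
  exact h

/-- The values lie in the commutator subgroup. -/
theorem ev_mem_commutator {Φ : FreeGroup (Fin 2)} (hΦ : Φ ∈ commutator (FreeGroup (Fin 2)))
    {G : Type*} [Group G] (a b : G) : ev Φ a b ∈ commutator G := by
  rw [← QuotientGroup.eq_one_iff]
  have h := ev_hom Φ (QuotientGroup.mk' (commutator G)) a b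
  have h1 : ev Φ ((QuotientGroup.mk' (commutator G)) a) ((QuotientGroup.mk' (commutator G)) b)
      = 1 := by
    apply ev_comm hΦ
    rw [← map_mul, ← map_mul]
    apply QuotientGroup.eq.2
    rw [commutator_def]
    have : (a * b)⁻¹ * (b * a) = ⁅b⁻¹, a⁻¹⁆ := by
      rw [commutatorElement_def]; group
    rw [this]
    exact Subgroup.commutator_mem_commutator (Subgroup.mem_top _) (Subgroup.mem_top _)
  rw [h1] at h
  exact h

/-! ### Groups with the property `y = Φ(x, y)` -/

/-- `y = Φ(x, y)` for all noncommuting `x, y`. -/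
def Star (Φ : FreeGroup (Fin 2)) (G : Type*) [Group G] : Prop :=
  ∀ x y : G, x * y = y * x ∨ ev Φ x y = y

/-- An element which commutes with a noncommuting pair is trivial. -/
theorem Star.eq_one {Φ : FreeGroup (Fin 2)} (hΦ : Φ ∈ commutator (FreeGroup (Fin 2)))
    {G : Type*} [Group G] (h : Star Φ G) (x y z : G) (hxy : x * y ≠ y * x) (hx : z * x = x * z)
    (hy : z * y = y * z) : z = 1 := by
  have h1 : ev Φ y x = x := by
    rcases h y x with h | h
    · exact absurd h.symm hxy
    · exact h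
  have h2 : ev Φ y (z * x) = z * x := by
    rcases h y (z * x) with h | h
    · exfalso
      apply hxy
      have h3 : z * (y * x) = z * (x * y) := by
        calc z * (y * x) = y * (z * x) := by rw [← mul_assoc, hy, mul_assoc]
          _ = z * x * y := h
          _ = z * (x * y) := by rw [mul_assoc]
      exact (mul_left_cancel h3).symm
    · exact h
  rw [ev_central hΦ y x z hy hx, h1] at h2
  exact (mul_eq_right.1 h2.symm)

/-! ### Chains -/

/-- Iterated `u ↦ u⁻¹ Φ(a, u)`. -/
def chain (Φ : FreeGroup (Fin 2)) {G : Type*} [Group G] (u : G) (l : List G) : G :=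
  l.foldl (fun u a => u⁻¹ * ev Φ a u) u

theorem chain_hom (Φ : FreeGroup (Fin 2)) {G H : Type*} [Group G] [Group H] (f : G →* H)
    (l : List G) : ∀ u : G, f (chain Φ u l) = chain Φ (f u) (l.map f) := by
  induction l with
  | nil => intro u; rfl
  | cons a l ih =>
    intro u
    show f (chain Φ (u⁻¹ * ev Φ a u) l) = chain Φ ((f u)⁻¹ * ev Φ (f a) (f u)) (l.map f)
    rw [ih, map_mul, map_inv, ev_hom]

theorem chain_one {Φ : FreeGroup (Fin 2)} (hΦ : Φ ∈ commutator (FreeGroup (Fin 2)))
    {G : Type*} [Group G] (l : List G) : chain Φ (1 : G) l = 1 := by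
  induction l with
  | nil => rfl
  | cons a l ih =>
    show chain Φ ((1 : G)⁻¹ * ev Φ a 1) l = 1
    rw [ev_one_right hΦ, inv_one, one_mul, ih]

theorem chain_comm {Φ : FreeGroup (Fin 2)} (hΦ : Φ ∈ commutator (FreeGroup (Fin 2)))
    {G : Type*} [Group G] (l : List G) : ∀ u : G, (∀ a ∈ l, a * u = u * a) →
      chain Φ u l = u ∨ chain Φ u l = u⁻¹ := by
  induction l with
  | nil => intro u _; exact Or.inl rfl
  | cons a l ih =>
    intro u hu
    have h1 : chain Φ u (a :: l) = chain Φ u⁻¹ l := by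
      show chain Φ (u⁻¹ * ev Φ a u) l = _
      rw [ev_comm hΦ a u (hu a List.mem_cons_self), mul_one]
    rw [h1]
    rcases ih u⁻¹ (fun b hb => (show Commute b u from hu b (List.mem_cons_of_mem _ hb)).inv_right)
      with h | h
    · exact Or.inr h
    · exact Or.inl (by rw [h, inv_inv])

theorem chain_star {Φ : FreeGroup (Fin 2)} (hΦ : Φ ∈ commutator (FreeGroup (Fin 2)))
    {G : Type*} [Group G] (hG : Star Φ G) (l : List G) : ∀ u : G, (∃ a ∈ l, a * u ≠ u * a) →
      chain Φ u l = 1 := by
  induction l with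
  | nil => intro u h; obtain ⟨a, ha, _⟩ := h; simp at ha
  | cons a l ih =>
    intro u hu
    by_cases hau : a * u = u * a
    · have h1 : chain Φ u (a :: l) = chain Φ u⁻¹ l := by
        show chain Φ (u⁻¹ * ev Φ a u) l = _
        rw [ev_comm hΦ a u hau, mul_one]
      rw [h1]
      apply ih
      obtain ⟨b, hb, hbu⟩ := hu
      rcases List.mem_cons.1 hb with rfl | hb
      · exact absurd hau hbu
      · refine ⟨b, hb, fun h => hbu ?_⟩
        have : Commute b u⁻¹ := h
        exact (Commute.inv_right_iff.1 this).eq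
    · have h1 : ev Φ a u = u := (hG a u).resolve_left hau
      show chain Φ (u⁻¹ * ev Φ a u) l = 1
      rw [h1, inv_mul_cancel, chain_one hΦ]

/-- The chain identity: with `z = ∏ [x, y]` and all letters. -/
theorem chain_law {Φ : FreeGroup (Fin 2)} (hΦ : Φ ∈ commutator (FreeGroup (Fin 2)))
    {G : Type*} [Group G] (hG : Star Φ G) (L : List (G × G)) :
    chain Φ (L.map fun q => ⁅q.1, q.2⁆).prod (L.map Prod.fst ++ L.map Prod.snd) = 1 := by
  set z := (L.map fun q => ⁅q.1, q.2⁆).prod with hz
  by_cases hc : ∃ a ∈ L.map Prod.fst ++ L.map Prod.snd, a * z ≠ z * a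
  · exact chain_star hΦ hG _ z hc
  · push Not at hc
    have hz1 : z = 1 := by
      by_cases hp : ∃ q ∈ L, q.1 * q.2 ≠ q.2 * q.1
      · obtain ⟨q, hq, hne⟩ := hp
        refine hG.eq_one hΦ q.1 q.2 z hne ?_ ?_
        · exact (hc q.1 (List.mem_append_left _ (List.mem_map_of_mem hq))).symm
        · exact (hc q.2 (List.mem_append_right _ (List.mem_map_of_mem hq))).symm
      · push Not at hp
        rw [hz]
        apply List.prod_eq_one
        intro c hc'
        obtain ⟨q, hq, rfl⟩ := List.mem_map.1 hc'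
        exact commutatorElement_eq_one_iff_commute.2 (hp q hq)
    rw [hz1, chain_one hΦ]

/-! ### Restrictions -/

/-- One step of the restriction of `z` to the coordinates where `w` is central. -/
def kap (Φ : FreeGroup (Fin 2)) {G : Type*} [Group G] (w s z : G) : G :=
  z * ev Φ w s * (ev Φ w (z * s))⁻¹

theorem kap_hom (Φ : FreeGroup (Fin 2)) {G H : Type*} [Group G] [Group H] (f : G →* H)
    (w s z : G) : f (kap Φ w s z) = kap Φ (f w) (f s) (f z) := by
  unfold kap
  rw [map_mul, map_mul, map_inv, ev_hom, ev_hom, map_mul]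

theorem kap_one {Φ : FreeGroup (Fin 2)} {G : Type*} [Group G] (w s : G) : kap Φ w s 1 = 1 := by
  unfold kap
  rw [one_mul, one_mul, mul_inv_cancel]

theorem kap_mem {Φ : FreeGroup (Fin 2)} (hΦ : Φ ∈ commutator (FreeGroup (Fin 2)))
    {G : Type*} [Group G] (N : Subgroup G) [N.Normal] (w s z : G) (hw : w ∈ N) :
    z⁻¹ * kap Φ w s z ∈ N := by
  have h : z⁻¹ * kap Φ w s z = ev Φ w s * (ev Φ w (z * s))⁻¹ := by
    unfold kap; group
  rw [h]
  exact N.mul_mem (ev_mem hΦ N w s hw) (N.inv_mem (ev_mem hΦ N w _ hw))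

theorem kap_comm {Φ : FreeGroup (Fin 2)} (hΦ : Φ ∈ commutator (FreeGroup (Fin 2)))
    {G : Type*} [Group G] (w s z : G) (h1 : w * z = z * w) (h2 : w * s = s * w) :
    kap Φ w s z = z := by
  unfold kap
  rw [ev_comm hΦ w s h2, ev_comm hΦ w (z * s) ((show Commute w z from h1).mul_right h2)]
  simp

theorem kap_star1 {Φ : FreeGroup (Fin 2)} (hΦ : Φ ∈ commutator (FreeGroup (Fin 2)))
    {G : Type*} [Group G] (hG : Star Φ G) (w z : G) (h : w * z ≠ z * w) : kap Φ w 1 z = 1 := by
  unfold kap
  rw [ev_one_right hΦ, mul_one, (hG w z).resolve_left h, mul_inv_cancel]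

theorem kap_star2 {Φ : FreeGroup (Fin 2)} {G : Type*} [Group G] (hG : Star Φ G) (w s z : G)
    (h1 : w * z = z * w) (h2 : w * s ≠ s * w) : kap Φ w s z = 1 := by
  have h3 : w * (z * s) ≠ z * s * w := by
    intro h
    apply h2
    have : z * (w * s) = z * (s * w) := by
      rw [← mul_assoc, ← h1, mul_assoc, h, mul_assoc]
    exact mul_left_cancel this
  unfold kap
  rw [(hG w s).resolve_left h2, (hG w (z * s)).resolve_left h3, mul_inv_cancel]

/-- The restriction of `z` to the coordinates where `w` is central (in the group generated by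
`l`). -/
def kapL (Φ : FreeGroup (Fin 2)) {G : Type*} [Group G] (l : List G) (w z : G) : G :=
  l.foldl (fun z s => kap Φ w s z) (kap Φ w 1 z)

theorem foldl_kap_hom (Φ : FreeGroup (Fin 2)) {G H : Type*} [Group G] [Group H] (f : G →* H)
    (w : G) (l : List G) : ∀ z : G, f (l.foldl (fun z s => kap Φ w s z) z) =
      (l.map f).foldl (fun z s => kap Φ (f w) s z) (f z) := by
  induction l with
  | nil => intro z; rfl
  | cons a l ih =>
    intro z
    simp only [List.foldl_cons, List.map_cons]
    rw [ih, kap_hom]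

theorem kapL_hom (Φ : FreeGroup (Fin 2)) {G H : Type*} [Group G] [Group H] (f : G →* H)
    (l : List G) (w z : G) : f (kapL Φ l w z) = kapL Φ (l.map f) (f w) (f z) := by
  unfold kapL
  rw [foldl_kap_hom, kap_hom, map_one]

theorem foldl_kap_one {Φ : FreeGroup (Fin 2)} {G : Type*} [Group G] (w : G) (l : List G) :
    l.foldl (fun z s => kap Φ w s z) 1 = 1 := by
  induction l with
  | nil => rfl
  | cons a l ih => simp only [List.foldl_cons]; rw [kap_one, ih]

theorem foldl_kap_mem {Φ : FreeGroup (Fin 2)} (hΦ : Φ ∈ commutator (FreeGroup (Fin 2)))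
    {G : Type*} [Group G] (N : Subgroup G) [N.Normal] (w : G) (hw : w ∈ N) (l : List G) :
    ∀ z : G, z⁻¹ * l.foldl (fun z s => kap Φ w s z) z ∈ N := by
  induction l with
  | nil => intro z; simp
  | cons a l ih =>
    intro z
    simp only [List.foldl_cons]
    have h1 := kap_mem hΦ N w a z hw
    have h2 := ih (kap Φ w a z)
    have h3 := N.mul_mem h1 h2
    have h4 : z⁻¹ * kap Φ w a z * ((kap Φ w a z)⁻¹ *
        List.foldl (fun z s => kap Φ w s z) (kap Φ w a z) l) =
        z⁻¹ * List.foldl (fun z s => kap Φ w s z) (kap Φ w a z) l := by group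
    rw [h4] at h3
    exact h3

theorem kapL_mem {Φ : FreeGroup (Fin 2)} (hΦ : Φ ∈ commutator (FreeGroup (Fin 2)))
    {G : Type*} [Group G] (N : Subgroup G) [N.Normal] (l : List G) (w z : G) (hw : w ∈ N) :
    z⁻¹ * kapL Φ l w z ∈ N := by
  have h1 := kap_mem hΦ N w 1 z hw
  have h2 := foldl_kap_mem hΦ N w hw l (kap Φ w 1 z)
  have h3 := N.mul_mem h1 h2
  have h4 : z⁻¹ * kap Φ w 1 z * ((kap Φ w 1 z)⁻¹ *
      List.foldl (fun z s => kap Φ w s z) (kap Φ w 1 z) l) = z⁻¹ * kapL Φ l w z := by
    unfold kapL; group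
  rw [h4] at h3
  exact h3

theorem foldl_kap_comm {Φ : FreeGroup (Fin 2)} (hΦ : Φ ∈ commutator (FreeGroup (Fin 2)))
    {G : Type*} [Group G] (w : G) (l : List G) : ∀ z : G, w * z = z * w →
      (∀ a ∈ l, w * a = a * w) → l.foldl (fun z s => kap Φ w s z) z = z := by
  induction l with
  | nil => intro z _ _; rfl
  | cons a l ih =>
    intro z hz ha
    simp only [List.foldl_cons]
    rw [kap_comm hΦ w a z hz (ha a List.mem_cons_self)]
    exact ih z hz (fun b hb => ha b (List.mem_cons_of_mem _ hb))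

theorem foldl_kap_star {Φ : FreeGroup (Fin 2)} (hΦ : Φ ∈ commutator (FreeGroup (Fin 2)))
    {G : Type*} [Group G] (hG : Star Φ G) (w : G) (l : List G) : ∀ z : G, w * z = z * w →
      (∃ a ∈ l, w * a ≠ a * w) → l.foldl (fun z s => kap Φ w s z) z = 1 := by
  induction l with
  | nil => intro z _ h; obtain ⟨a, ha, _⟩ := h; simp at ha
  | cons a l ih =>
    intro z hz ha
    simp only [List.foldl_cons]
    by_cases haw : w * a = a * w
    · rw [kap_comm hΦ w a z hz haw]
      apply ih z hz
      obtain ⟨b, hb, hbw⟩ := ha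
      rcases List.mem_cons.1 hb with rfl | hb
      · exact absurd haw hbw
      · exact ⟨b, hb, hbw⟩
    · rw [kap_star2 hG w a z hz haw, foldl_kap_one]

/-- The restriction when `w` is central. -/
theorem kapL_central {Φ : FreeGroup (Fin 2)} (hΦ : Φ ∈ commutator (FreeGroup (Fin 2)))
    {G : Type*} [Group G] (l : List G) (w z : G) (hw : w ∈ center G) : kapL Φ l w z = z := by
  have hc : ∀ a : G, w * a = a * w := fun a => (Subgroup.mem_center_iff.1 hw a).symm
  unfold kapL
  rw [kap_comm hΦ w 1 z (hc z) (hc 1)]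
  exact foldl_kap_comm hΦ w l z (hc z) (fun a _ => hc a)

/-- The restriction when `w` is not central. -/
theorem kapL_star {Φ : FreeGroup (Fin 2)} (hΦ : Φ ∈ commutator (FreeGroup (Fin 2)))
    {G : Type*} [Group G] (hG : Star Φ G) (l : List G) (hl : closure {x | x ∈ l} = ⊤) (w z : G)
    (hw : w ∉ center G) : kapL Φ l w z = 1 := by
  have hex : ∃ a ∈ l, w * a ≠ a * w := by
    by_contra hcon
    push Not at hcon
    apply hw
    rw [Subgroup.mem_center_iff]
    have h1 : closure {x | x ∈ l} ≤ centralizer {w} := by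
      rw [closure_le]
      intro a ha
      rw [SetLike.mem_coe, Subgroup.mem_centralizer_singleton_iff]
      exact (hcon a ha).symm
    intro g
    have h2 : g ∈ centralizer {w} := h1 (by rw [hl]; exact Subgroup.mem_top g)
    exact Subgroup.mem_centralizer_singleton_iff.1 h2
  unfold kapL
  by_cases h : w * z = z * w
  · have h1 : kap Φ w 1 z = z := kap_comm hΦ w 1 z h (by simp)
    rw [h1]
    exact foldl_kap_star hΦ hG w l z h hex
  · rw [kap_star1 hΦ hG w z h, foldl_kap_one]

/-- The restriction to the coordinates where all elements of `ws` are central. -/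
def kapS (Φ : FreeGroup (Fin 2)) {G : Type*} [Group G] (l ws : List G) (z : G) : G :=
  ws.foldl (fun z w => kapL Φ l w z) z

theorem kapS_hom (Φ : FreeGroup (Fin 2)) {G H : Type*} [Group G] [Group H] (f : G →* H)
    (l ws : List G) : ∀ z : G, f (kapS Φ l ws z) = kapS Φ (l.map f) (ws.map f) (f z) := by
  unfold kapS
  induction ws with
  | nil => intro z; rfl
  | cons a ws ih =>
    intro z
    simp only [List.foldl_cons, List.map_cons]
    rw [ih, kapL_hom]

theorem kapL_one {Φ : FreeGroup (Fin 2)} {G : Type*} [Group G] (l : List G) (w : G) :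
    kapL Φ l w 1 = 1 := by
  unfold kapL
  rw [kap_one, foldl_kap_one]

theorem kapS_one {Φ : FreeGroup (Fin 2)} {G : Type*} [Group G] (l ws : List G) :
    kapS Φ l ws 1 = 1 := by
  unfold kapS
  induction ws with
  | nil => rfl
  | cons a ws ih => simp only [List.foldl_cons]; rw [kapL_one, ih]

theorem kapS_mem {Φ : FreeGroup (Fin 2)} (hΦ : Φ ∈ commutator (FreeGroup (Fin 2)))
    {G : Type*} [Group G] (N : Subgroup G) [N.Normal] (l ws : List G) (hws : ∀ w ∈ ws, w ∈ N) :
    ∀ z : G, z⁻¹ * kapS Φ l ws z ∈ N := by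
  unfold kapS
  induction ws with
  | nil => intro z; simp
  | cons a ws ih =>
    intro z
    simp only [List.foldl_cons]
    have h1 := kapL_mem hΦ N l a z (hws a List.mem_cons_self)
    have h2 := ih (fun w hw => hws w (List.mem_cons_of_mem _ hw)) (kapL Φ l a z)
    have h3 := N.mul_mem h1 h2
    have h4 : z⁻¹ * kapL Φ l a z * ((kapL Φ l a z)⁻¹ *
        List.foldl (fun z w => kapL Φ l w z) (kapL Φ l a z) ws) =
        z⁻¹ * List.foldl (fun z w => kapL Φ l w z) (kapL Φ l a z) ws := by group
    rw [h4] at h3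
    exact h3

theorem kapS_central {Φ : FreeGroup (Fin 2)} (hΦ : Φ ∈ commutator (FreeGroup (Fin 2)))
    {G : Type*} [Group G] (l ws : List G) (hws : ∀ w ∈ ws, w ∈ center G) :
    ∀ z : G, kapS Φ l ws z = z := by
  unfold kapS
  induction ws with
  | nil => intro z; rfl
  | cons a ws ih =>
    intro z
    simp only [List.foldl_cons]
    rw [kapL_central hΦ l a z (hws a List.mem_cons_self)]
    exact ih (fun w hw => hws w (List.mem_cons_of_mem _ hw)) z

theorem kapS_star {Φ : FreeGroup (Fin 2)} (hΦ : Φ ∈ commutator (FreeGroup (Fin 2)))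
    {G : Type*} [Group G] (hG : Star Φ G) (l : List G) (hl : closure {x | x ∈ l} = ⊤)
    (ws : List G) (hws : ∃ w ∈ ws, w ∉ center G) : ∀ z : G, kapS Φ l ws z = 1 := by
  unfold kapS
  induction ws with
  | nil => obtain ⟨a, ha, _⟩ := hws; simp at ha
  | cons a ws ih =>
    intro z
    simp only [List.foldl_cons]
    by_cases ha : a ∈ center G
    · rw [kapL_central hΦ l a z ha]
      apply ih
      obtain ⟨b, hb, hbw⟩ := hws
      rcases List.mem_cons.1 hb with rfl | hb
      · exact absurd ha hbw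
      · exact ⟨b, hb, hbw⟩
    · rw [kapL_star hΦ hG l hl a z ha]
      exact kapS_one l ws

/-! ### Complements -/

theorem exists_compl {G : Type*} [Group G] {p : ℕ} (hp : p.Prime) (hexp : ∀ x : G, x ^ p = 1)
    (C : Subgroup G) (hCc : ∀ x ∈ C, x ∈ commutator G → x = 1) :
    ∃ D : Subgroup G, (∀ x ∈ D, x ∈ C → x = 1) ∧ ∀ g : G, ∃ c ∈ C, ∃ d ∈ D, g = c * d := by
  classical
  obtain ⟨D, hD0, hDmax⟩ := zorn_le_nonempty₀
    {D : Subgroup G | commutator G ≤ D ∧ ∀ x ∈ D, x ∈ C → x = 1} (by
      intro c hcs hc y hy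
      have hdir : DirectedOn (· ≤ ·) c := hc.directedOn
      refine ⟨sSup c, ⟨(hcs hy).1.trans (le_sSup hy), ?_⟩, fun z hz => le_sSup hz⟩
      intro x hx hxC
      obtain ⟨s, hs, hxs⟩ := (Subgroup.mem_sSup_of_directedOn ⟨y, hy⟩ hdir).1 hx
      exact (hcs hs).2 x hxs hxC)
    (commutator G) ⟨le_rfl, fun x hx hxC => hCc x hxC hx⟩
  have hDs : commutator G ≤ D ∧ ∀ x ∈ D, x ∈ C → x = 1 := hDmax.prop
  have hDn : D.Normal := Subgroup.Normal.of_commutator_le (G := G) hDs.1
  refine ⟨D, hDs.2, ?_⟩
  intro g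
  by_contra hcon
  push Not at hcon
  have hmem : (D ⊔ zpowers g) ∈
      {D : Subgroup G | commutator G ≤ D ∧ ∀ x ∈ D, x ∈ C → x = 1} := by
    refine ⟨hDs.1.trans le_sup_left, ?_⟩
    intro x hx hxC
    obtain ⟨d, hd, z, hz, rfl⟩ := (Subgroup.mem_sup_of_normal_left).1 hx
    obtain ⟨n, rfl⟩ := Subgroup.mem_zpowers_iff.1 hz
    by_cases hpn : (p : ℤ) ∣ n
    · obtain ⟨k, rfl⟩ := hpn
      have hg : g ^ ((p : ℤ) * k) = 1 := by
        rw [zpow_mul, zpow_natCast, hexp, one_zpow]
      rw [hg, mul_one] at hxC ⊢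
      exact hDs.2 d hd hxC
    · exfalso
      have hcop : IsCoprime n (p : ℤ) := by
        rw [Int.isCoprime_iff_gcd_eq_one, Int.gcd_comm]
        exact (Nat.Prime.coprime_iff_not_dvd hp).2 (fun h => hpn (Int.natCast_dvd.2 h))
      obtain ⟨a, b, hab⟩ := hcop
      have hxa : (d * g ^ n) ^ a ∈ C := C.zpow_mem hxC a
      have hga : g ^ (n * a) = g := by
        have : n * a = 1 - (p : ℤ) * b := by linarith
        rw [this, zpow_sub, zpow_one, zpow_mul, zpow_natCast, hexp, one_zpow, inv_one, mul_one]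
      have hDq : ((d * g ^ n) ^ a)⁻¹ * g ∈ D := by
        rw [← QuotientGroup.eq]
        have h1 : (QuotientGroup.mk' D) ((d * g ^ n) ^ a) = (QuotientGroup.mk' D) g := by
          rw [map_zpow, map_mul, map_zpow]
          have h2 : (QuotientGroup.mk' D) d = 1 := (QuotientGroup.eq_one_iff d).2 hd
          rw [h2, one_mul, ← zpow_mul, ← map_zpow, hga]
        exact h1
      exact hcon _ hxa _ hDq (by group)
  have h1 := hDmax.le_of_ge hmem le_sup_left
  have h2 : g ∈ D := h1 (Subgroup.mem_sup_right (Subgroup.mem_zpowers g))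
  exact hcon 1 C.one_mem g h2 (by rw [one_mul])

/-! ### Transfer of identities -/

/-- `G` is a quotient of a group which is separated by homomorphisms into `T`. -/
def Tr (T G : Type) [Group T] [Group G] : Prop :=
  ∃ (R : Type) (_ : Group R) (π : R →* G), Function.Surjective π ∧
    ∀ r : R, (∀ f : R →* T, f r = 1) → r = 1

theorem letters {α : Type} (w : FreeGroup α) : ∃ S : List α, ∀ (H : Type) [Group H]
    (f f' : α → H), (∀ a ∈ S, f a = f' a) → FreeGroup.lift f w = FreeGroup.lift f' w := by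
  induction w using FreeGroup.induction_on with
  | C1 => exact ⟨[], fun H _ f f' _ => by simp⟩
  | of a => exact ⟨[a], fun H _ f f' h => by simp [h a (by simp)]⟩
  | inv_of a _ => exact ⟨[a], fun H _ f f' h => by simp [h a (by simp)]⟩
  | mul x y hx hy =>
    obtain ⟨S, hS⟩ := hx
    obtain ⟨S', hS'⟩ := hy
    refine ⟨S ++ S', fun H _ f f' h => ?_⟩
    rw [map_mul, map_mul, hS H f f' (fun a ha => h a (List.mem_append_left _ ha)),
      hS' H f f' (fun a ha => h a (List.mem_append_right _ ha))]

/-- The laws of `T`. -/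
def laws (T : Type) [Group T] : Set (FreeGroup ℕ) := {w | SatLaw T w}

theorem tr_of_inVar (T G : Type) [Group T] [Group G] (h : InVar (laws T) G) : Tr T G := by
  classical
  let K : Subgroup (FreeGroup G) := ⨅ f : FreeGroup G →* T, f.ker
  have : K.Normal := Subgroup.normal_iInf_normal fun f => inferInstance
  have hK : ∀ w : FreeGroup G, w ∈ K ↔ ∀ f : FreeGroup G →* T, f w = 1 := by
    intro w
    simp only [K, Subgroup.mem_iInf, MonoidHom.mem_ker]
  have hker : ∀ w ∈ K, FreeGroup.lift (id : G → G) w = 1 := by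
    intro w hw
    rw [hK] at hw
    obtain ⟨S, hS⟩ := letters w
    let idx : G → ℕ := fun a => S.idxOf a
    let j : ℕ → G := fun n => S.getD n 1
    have h1 : SatLaw T (FreeGroup.map idx w) := by
      intro v
      have := hw ((FreeGroup.lift v).comp (FreeGroup.map idx))
      exact this
    have h2 := h _ h1 j
    have h3 : FreeGroup.lift j (FreeGroup.map idx w) = FreeGroup.lift (fun a => j (idx a)) w := by
      have : (FreeGroup.lift j).comp (FreeGroup.map idx) = FreeGroup.lift (fun a => j (idx a)) := by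
        apply FreeGroup.ext_hom
        intro a
        simp
      rw [← this]; rfl
    rw [h3] at h2
    rw [← h2]
    apply hS
    intro a ha
    have hlt : S.idxOf a < S.length := List.idxOf_lt_length_iff.2 ha
    show a = S.getD (S.idxOf a) 1
    rw [List.getD_eq_getElem _ _ hlt, List.getElem_idxOf]
  refine ⟨FreeGroup G ⧸ K, inferInstance, QuotientGroup.lift K (FreeGroup.lift id) hker, ?_, ?_⟩
  · intro g
    refine ⟨((FreeGroup.of g : FreeGroup G) : FreeGroup G ⧸ K), ?_⟩
    show FreeGroup.lift id (FreeGroup.of g) = g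
    simp
  · intro r hr
    obtain ⟨w, rfl⟩ := QuotientGroup.mk_surjective r
    rw [QuotientGroup.eq_one_iff, hK]
    intro f
    have h1 : ∀ v ∈ K, f v = 1 := fun v hv => (hK v).1 hv f
    exact hr (QuotientGroup.lift K f h1)

section vars

variable {Φ : FreeGroup (Fin 2)} (hΦ : Φ ∈ commutator (FreeGroup (Fin 2))) {T G : Type} [Group T]
  [Group G] (hT : Star Φ T) (hG : Tr T G)

include hT hG in
theorem id1 (x y g : G) : Commute (g * ⁅x, y⁆ * g⁻¹) (y⁻¹ * ev Φ x y) := by
  obtain ⟨R, _, π, hπ, hR⟩ := hG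
  obtain ⟨x, rfl⟩ := hπ x
  obtain ⟨y, rfl⟩ := hπ y
  obtain ⟨g, rfl⟩ := hπ g
  have h1 : ⁅g * ⁅x, y⁆ * g⁻¹, y⁻¹ * ev Φ x y⁆ = 1 := by
    apply hR
    intro f
    rw [map_commutatorElement, map_mul, map_mul, map_mul, map_commutatorElement, map_inv, map_inv,
      ev_hom, commutatorElement_eq_one_iff_commute]
    rcases hT (f x) (f y) with h | h
    · rw [(commutatorElement_eq_one_iff_commute).2 h, mul_one, mul_inv_cancel]
      exact Commute.one_left _
    · rw [h, inv_mul_cancel]
      exact Commute.one_right _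
  have h2 := congrArg π h1
  rw [map_commutatorElement, map_one, map_mul, map_mul, map_mul, map_commutatorElement, map_inv,
    map_inv, ev_hom, commutatorElement_eq_one_iff_commute] at h2
  exact h2

include hΦ hT hG in
theorem id4 (L : List (G × G)) :
    chain Φ (L.map fun q => ⁅q.1, q.2⁆).prod (L.map Prod.fst ++ L.map Prod.snd) = 1 := by
  obtain ⟨R, _, π, hπ, hR⟩ := hG
  obtain ⟨L', rfl⟩ : ∃ L' : List (R × R), L'.map (Prod.map π π) = L := by
    have hs : Function.Surjective (Prod.map π π) := hπ.prodMap hπ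
    exact (List.map_surjective_iff.2 hs) L
  have h1 : chain Φ (L'.map fun q => ⁅q.1, q.2⁆).prod (L'.map Prod.fst ++ L'.map Prod.snd) =
      1 := by
    apply hR
    intro f
    rw [chain_hom]
    have h2 := chain_law hΦ hT (L'.map (Prod.map f f))
    rw [← h2, map_list_prod, List.map_map, List.map_map, List.map_append, List.map_map,
      List.map_map, List.map_map, List.map_map]
    congr 2
    apply List.map_congr_left
    intro q _
    simp [map_commutatorElement]
  have h2 := congrArg π h1
  rw [chain_hom, map_one, map_list_prod, List.map_map, List.map_append, List.map_map,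
    List.map_map] at h2
  rw [← h2, List.map_map, List.map_map, List.map_map]
  congr 2
  apply List.map_congr_left
  intro q _
  simp [map_commutatorElement]

theorem mem_commutator_list (z : G) (hz : z ∈ commutator G) :
    ∃ L : List (G × G), z = (L.map fun q => ⁅q.1, q.2⁆).prod := by
  rw [commutator_eq_closure] at hz
  induction hz using Subgroup.closure_induction with
  | mem x hx =>
    obtain ⟨a, b, hab⟩ := hx
    exact ⟨[(a, b)], by simp [hab]⟩
  | one => exact ⟨[], rfl⟩
  | mul x y _ _ hx hy =>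
    obtain ⟨L, rfl⟩ := hx
    obtain ⟨L', rfl⟩ := hy
    exact ⟨L ++ L', by rw [List.map_append, List.prod_append]⟩
  | inv x _ hx =>
    obtain ⟨L, rfl⟩ := hx
    refine ⟨(L.map Prod.swap).reverse, ?_⟩
    rw [List.prod_inv_reverse, List.map_reverse, List.map_map, List.map_map]
    congr 2
    apply List.map_congr_left
    intro q _
    simp [commutatorElement_inv]

include hΦ hT hG in
/-- The center meets the commutator subgroup trivially. -/
theorem center_inf (z : G) (hz : z ∈ center G) (hz' : z ∈ commutator G) : z = 1 := by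
  obtain ⟨L, hL⟩ := mem_commutator_list z hz'
  have h1 := id4 hΦ hT hG L
  rw [← hL] at h1
  rcases chain_comm hΦ (L.map Prod.fst ++ L.map Prod.snd) z
    (fun a _ => Subgroup.mem_center_iff.1 hz a) with h | h
  · rw [← h, h1]
  · rw [h1] at h
    exact (inv_eq_one.1 h.symm)

end vars

/-! ### Separation by quotients with the property Star -/

theorem Tr.of_surj {T G H : Type} [Group T] [Group G] [Group H] (h : Tr T G) (f : G →* H)
    (hf : Function.Surjective f) : Tr T H := by
  obtain ⟨R, hR, π, hπ, hR'⟩ := h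
  exact ⟨R, hR, f.comp π, hf.comp hπ, hR'⟩

/-- Elements of the normal closures of `a` and `b` commute if all conjugates of `a` commute
with `b`. -/
theorem comm_closures {G : Type*} [Group G] (a b : G) (h : ∀ g : G, Commute (g * a * g⁻¹) b)
    (x y : G) (hx : x ∈ normalClosure {a}) (hy : y ∈ normalClosure {b}) : Commute x y := by
  have h1 : ∀ g k : G, Commute (g * a * g⁻¹) (k * b * k⁻¹) := by
    intro g k
    have := (h (k⁻¹ * g))
    have h2 : Commute (k * (k⁻¹ * g * a * (k⁻¹ * g)⁻¹) * k⁻¹) (k * b * k⁻¹) :=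
      (Commute.conj_iff k).2 this
    have h3 : k * (k⁻¹ * g * a * (k⁻¹ * g)⁻¹) * k⁻¹ = g * a * g⁻¹ := by group
    rw [h3] at h2
    exact h2
  have h2 : normalClosure {a} ≤ centralizer (Group.conjugatesOfSet {b}) := by
    apply closure_le _ |>.2
    intro u hu
    rw [SetLike.mem_coe, Subgroup.mem_centralizer_iff]
    intro v hv
    obtain ⟨a', ha', hu'⟩ := Group.mem_conjugatesOfSet_iff.1 hu
    obtain ⟨b', hb', hv'⟩ := Group.mem_conjugatesOfSet_iff.1 hv
    rw [Set.mem_singleton_iff] at ha' hb'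
    subst ha' hb'
    obtain ⟨g, hg⟩ := isConj_iff.1 hu'
    obtain ⟨k, hk⟩ := isConj_iff.1 hv'
    rw [← hg, ← hk]
    exact (h1 g k).symm
  have h3 : normalClosure {b} ≤ centralizer {x} := by
    apply closure_le _ |>.2
    intro v hv
    rw [SetLike.mem_coe, Subgroup.mem_centralizer_singleton_iff]
    exact ((Subgroup.mem_centralizer_iff.1 (h2 hx)) v hv)
  exact (Subgroup.mem_centralizer_singleton_iff.1 (h3 hy)).symm

section vars2

variable {Φ : FreeGroup (Fin 2)} (hΦ : Φ ∈ commutator (FreeGroup (Fin 2))) {T : Type} [Group T]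
  (hT : Star Φ T)

include hΦ hT in
/-- A monolithic group of the variety has the property Star. -/
theorem star_of_mono {K : Type} [Group K] (hK : Tr T K) (t : K) (ht : t ≠ 1)
    (hmono : ∀ N : Subgroup K, N.Normal → N ≠ ⊥ → t ∈ N) : Star Φ K := by
  have hmono' : ∀ a : K, a ≠ 1 → t ∈ normalClosure {a} := by
    intro a ha
    apply hmono _ inferInstance
    intro h
    apply ha
    have : a ∈ normalClosure {a} := subset_normalClosure (Set.mem_singleton a)
    rw [h] at this
    exact Subgroup.mem_bot.1 this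
  have hle : ∀ a : K, a ≠ 1 → normalClosure {t} ≤ normalClosure {a} := by
    intro a ha
    apply normalClosure_le_normal
    intro u hu
    rw [Set.mem_singleton_iff] at hu
    subst hu
    exact hmono' a ha
  by_contra hcon
  unfold Star at hcon
  push Not at hcon
  obtain ⟨x, y, hxy, hev⟩ := hcon
  have hD1 : ⁅x, y⁆ ≠ 1 := fun h => hxy (commutatorElement_eq_one_iff_commute.1 h)
  have hD2 : y⁻¹ * ev Φ x y ≠ 1 := by
    intro h
    exact hev (inv_mul_eq_one.1 h).symm
  have hcc : ∀ u v : K, u ∈ normalClosure {t} → v ∈ normalClosure {t} → Commute u v := by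
    intro u v hu hv
    exact comm_closures _ _ (fun g => id1 hT hK x y g) u v (hle _ hD1 hu) (hle _ hD2 hv)
  have hcentral : ∀ u ∈ normalClosure {t}, ∀ v : K, u * v = v * u := by
    intro u hu v
    by_contra hne
    have hD : ⁅u, v⁆ ≠ 1 := fun h => hne (commutatorElement_eq_one_iff_commute.1 h)
    have hDm : ⁅u, v⁆ ∈ normalClosure {t} := by
      rw [commutatorElement_def, mul_assoc, mul_assoc]
      apply Subgroup.mul_mem _ hu
      rw [← mul_assoc]
      exact (normalClosure_normal (s := {t})).conj_mem _ (Subgroup.inv_mem _ hu) v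
    have hPm : ev Φ u v ∈ normalClosure {t} := ev_mem hΦ _ u v hu
    have h1 : ∀ g : K, Commute (g * ⁅u, v⁆ * g⁻¹) v := by
      intro g
      have h2 := id1 hT hK u v g
      have h3 : Commute (g * ⁅u, v⁆ * g⁻¹) (ev Φ u v) :=
        hcc _ _ ((normalClosure_normal (s := {t})).conj_mem _ hDm g) hPm
      have h4 : Commute (g * ⁅u, v⁆ * g⁻¹) (v⁻¹ * ev Φ u v * (ev Φ u v)⁻¹) :=
        h2.mul_right h3.inv_right
      rw [mul_inv_cancel_right] at h4
      exact (Commute.inv_right_iff.1 h4)
    have h5 : Commute u v :=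
      comm_closures ⁅u, v⁆ v h1 u v (hle _ hD hu) (subset_normalClosure (Set.mem_singleton v))
    exact hne h5
  have htc : t ∈ center K := by
    rw [Subgroup.mem_center_iff]
    intro v
    exact (hcentral t (subset_normalClosure (Set.mem_singleton t)) v).symm
  have htm : t ∈ commutator K := by
    apply hmono _ inferInstance
    intro h
    apply hD1
    have : ⁅x, y⁆ ∈ commutator K := by
      rw [_root_.commutator_def]
      exact Subgroup.commutator_mem_commutator (Subgroup.mem_top x) (Subgroup.mem_top y)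
    rw [h] at this
    exact Subgroup.mem_bot.1 this
  exact ht (center_inf hΦ hT hK t htc htm)

include hΦ hT in
/-- Separation. -/
theorem sep {G : Type} [Group G] (hG : Tr T G) (h : G) (hne : h ≠ 1) :
    ∃ M : Subgroup G, ∃ _ : M.Normal, h ∉ M ∧ Star Φ (G ⧸ M) := by
  obtain ⟨M, -, hMmax⟩ := zorn_le_nonempty₀ {M : Subgroup G | M.Normal ∧ h ∉ M} (by
      intro c hcs hc y hy
      have hdir : DirectedOn (· ≤ ·) c := hc.directedOn
      have hmem : ∀ x, x ∈ sSup c ↔ ∃ s ∈ c, x ∈ s := fun x =>
        Subgroup.mem_sSup_of_directedOn ⟨y, hy⟩ hdir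
      refine ⟨sSup c, ⟨⟨?_⟩, ?_⟩, fun z hz => le_sSup hz⟩
      · intro n hn g
        obtain ⟨s, hs, hns⟩ := (hmem n).1 hn
        exact (hmem _).2 ⟨s, hs, (hcs hs).1.conj_mem n hns g⟩
      · intro hh
        obtain ⟨s, hs, hns⟩ := (hmem h).1 hh
        exact (hcs hs).2 hns)
    ⊥ ⟨inferInstance, fun h' => hne (Subgroup.mem_bot.1 h')⟩
  have hM : M.Normal ∧ h ∉ M := hMmax.prop
  have hMn : M.Normal := hM.1
  refine ⟨M, hMn, hM.2, ?_⟩
  have hK : Tr T (G ⧸ M) := hG.of_surj (QuotientGroup.mk' M) (QuotientGroup.mk'_surjective M)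
  apply star_of_mono hΦ hT hK (QuotientGroup.mk' M h)
  · intro h1
    exact hM.2 ((QuotientGroup.eq_one_iff h).1 h1)
  · intro N hN hNne
    by_contra hnot
    have h1 : N.comap (QuotientGroup.mk' M) ∈ {M : Subgroup G | M.Normal ∧ h ∉ M} :=
      ⟨hN.comap _, hnot⟩
    have h2 : M ≤ N.comap (QuotientGroup.mk' M) := by
      intro x hx
      have h3 : (QuotientGroup.mk' M) x = 1 := (QuotientGroup.eq_one_iff x).2 hx
      show (QuotientGroup.mk' M) x ∈ N
      rw [h3]; exact N.one_mem
    have h3 := hMmax.le_of_ge h1 h2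
    apply hNne
    rw [eq_bot_iff]
    intro x hx
    obtain ⟨y, rfl⟩ := QuotientGroup.mk_surjective x
    have h5 : y ∈ M := h3 hx
    exact Subgroup.mem_bot.2 ((QuotientGroup.eq_one_iff y).2 h5)

end vars2

/-! ### The main step -/

theorem lift_mul_central {G : Type*} [Group G] (k y : ℕ → G) (hk : ∀ i, k i ∈ center G)
    (w : FreeGroup ℕ) : FreeGroup.lift (fun i => k i * y i) w =
      FreeGroup.lift k w * FreeGroup.lift y w ∧ FreeGroup.lift k w ∈ center G := by
  induction w using FreeGroup.induction_on with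
  | C1 => simp
  | of i => simp [hk i]
  | inv_of i _ =>
    refine ⟨?_, ?_⟩
    · simp only [map_inv, FreeGroup.lift_apply_of, mul_inv_rev]
      exact Subgroup.mem_center_iff.1 (Subgroup.inv_mem _ (hk i)) _
    · rw [map_inv, FreeGroup.lift_apply_of]; exact Subgroup.inv_mem _ (hk i)
  | mul a b ha hb =>
    refine ⟨?_, ?_⟩
    · rw [map_mul, map_mul, map_mul, ha.1, hb.1]
      have := Subgroup.mem_center_iff.1 hb.2 (FreeGroup.lift y a)
      calc FreeGroup.lift k a * FreeGroup.lift y a * (FreeGroup.lift k b * FreeGroup.lift y b)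
          = FreeGroup.lift k a * (FreeGroup.lift y a * FreeGroup.lift k b) *
            FreeGroup.lift y b := by group
        _ = _ := by rw [this]; group
    · rw [map_mul]; exact Subgroup.mul_mem _ ha.2 hb.2

theorem lift_mem {G : Type*} [Group G] (S : Subgroup G) (y : ℕ → G) (hy : ∀ i, y i ∈ S)
    (w : FreeGroup ℕ) : FreeGroup.lift y w ∈ S := by
  induction w using FreeGroup.induction_on with
  | C1 => simp
  | of i => simpa using hy i
  | inv_of i _ => rw [map_inv, FreeGroup.lift_apply_of]; exact S.inv_mem (hy i)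
  | mul a b ha hb => rw [map_mul]; exact S.mul_mem ha hb

section vars3

variable {Φ : FreeGroup (Fin 2)} (hΦ : Φ ∈ commutator (FreeGroup (Fin 2))) {T : Type} [Group T]
  (hT : Star Φ T)

include hΦ hT in
/-- Quasi-identities of a finitely generated group of the variety of `T` hold in its quotients. -/
theorem main {H : Type} [Group H] (hH : Tr T H) {p : ℕ} (hp : p.Prime)
    (hexp : ∀ x : H, x ^ p = 1) (l : List H) (hl : closure {x | x ∈ l} = ⊤)
    (N : Subgroup H) [N.Normal] (q : QuasiId) (hq : SatQ H q) (x : ℕ → H)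
    (hx : ∀ u ∈ q.prem, FreeGroup.lift x u ∈ N) : FreeGroup.lift x q.concl ∈ N := by
  classical
  set ws : List H := q.prem.map (FreeGroup.lift x) with hws
  have hwsN : ∀ w ∈ ws, w ∈ N := by
    intro w hw
    obtain ⟨u, hu, rfl⟩ := List.mem_map.1 hw
    exact hx u hu
  set x' : ℕ → H := fun i => kapS Φ l ws (x i) with hx'
  -- behaviour in the quotients
  have hgen : ∀ (M : Subgroup H) [M.Normal],
      closure {y | y ∈ l.map (QuotientGroup.mk' M)} = ⊤ := by
    intro M _
    have h1 : (closure {x | x ∈ l}).map (QuotientGroup.mk' M) = ⊤ := by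
      rw [hl, ← MonoidHom.range_eq_map]
      exact MonoidHom.range_eq_top.2 (QuotientGroup.mk'_surjective M)
    rw [MonoidHom.map_closure] at h1
    rw [← h1]
    congr 1
    ext y
    simp
  have hgood : ∀ (M : Subgroup H) [M.Normal], (∀ w ∈ ws, QuotientGroup.mk' M w ∈ center (H ⧸ M)) →
      ∀ z : H, QuotientGroup.mk' M (kapS Φ l ws z) = QuotientGroup.mk' M z := by
    intro M _ hM z
    rw [kapS_hom]
    apply kapS_central hΦ
    intro w hw
    obtain ⟨w', hw', rfl⟩ := List.mem_map.1 hw
    exact hM w' hw'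
  have hbad : ∀ (M : Subgroup H) [M.Normal], Star Φ (H ⧸ M) →
      (¬ ∀ w ∈ ws, QuotientGroup.mk' M w ∈ center (H ⧸ M)) →
      ∀ z : H, QuotientGroup.mk' M (kapS Φ l ws z) = 1 := by
    intro M _ hS hM z
    rw [kapS_hom]
    apply kapS_star hΦ hS _ (hgen M)
    push Not at hM
    obtain ⟨w, hw, hwc⟩ := hM
    exact ⟨_, List.mem_map_of_mem hw, hwc⟩
  have hval : ∀ (M : Subgroup H) [M.Normal], (∀ w ∈ ws, QuotientGroup.mk' M w ∈ center (H ⧸ M)) →
      ∀ u : FreeGroup ℕ, QuotientGroup.mk' M (FreeGroup.lift x' u) =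
        QuotientGroup.mk' M (FreeGroup.lift x u) := by
    intro M _ hM u
    rw [lift_hom, lift_hom]
    congr 2
    funext i
    exact hgood M hM (x i)
  have hval' : ∀ (M : Subgroup H) [M.Normal], Star Φ (H ⧸ M) →
      (¬ ∀ w ∈ ws, QuotientGroup.mk' M w ∈ center (H ⧸ M)) →
      ∀ u : FreeGroup ℕ, QuotientGroup.mk' M (FreeGroup.lift x' u) = 1 := by
    intro M _ hS hM u
    rw [lift_hom]
    have h1 : (fun i => QuotientGroup.mk' M (x' i)) = fun _ => 1 := by
      funext i
      exact hbad M hS hM (x i)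
    rw [h1, ← Subgroup.mem_bot]
    exact lift_mem ⊥ _ (fun _ => Subgroup.one_mem _) u
  -- the premises are central
  have hcent : ∀ u ∈ q.prem, FreeGroup.lift x' u ∈ center H := by
    intro u hu
    rw [Subgroup.mem_center_iff]
    intro g
    by_contra hne
    have hne' : ⁅g, FreeGroup.lift x' u⁆ ≠ 1 := fun h =>
      hne (commutatorElement_eq_one_iff_commute.1 h)
    obtain ⟨M, hM, hnot, hS⟩ := sep hΦ hT hH _ hne'
    apply hnot
    rw [← QuotientGroup.eq_one_iff]
    show QuotientGroup.mk' M ⁅g, FreeGroup.lift x' u⁆ = 1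
    rw [map_commutatorElement, commutatorElement_eq_one_iff_commute]
    by_cases hg : ∀ w ∈ ws, QuotientGroup.mk' M w ∈ center (H ⧸ M)
    · rw [hval M hg]
      have h1 := hg _ (List.mem_map_of_mem (f := FreeGroup.lift x) hu)
      exact Subgroup.mem_center_iff.1 h1 _
    · rw [hval' M hS hg]
      exact Commute.one_right _
  -- first complement
  obtain ⟨L, hL1, hL2⟩ := exists_compl hp hexp (center H)
    (fun z hz hz' => center_inf hΦ hT hH z hz hz')
  choose k hk y hy hky using fun i => hL2 (x' i)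
  have hkc : ∀ i, k i ∈ center H := hk
  have hxky : x' = fun i => k i * y i := funext hky
  have hprem : ∀ u ∈ q.prem, FreeGroup.lift y u = 1 ∧ FreeGroup.lift k u = FreeGroup.lift x' u := by
    intro u hu
    have h1 := lift_mul_central k y hkc u
    rw [← hxky] at h1
    have h2 : FreeGroup.lift y u = (FreeGroup.lift k u)⁻¹ * FreeGroup.lift x' u := by
      rw [h1.1]; group
    have h3 : FreeGroup.lift y u = 1 := by
      apply hL1 _ (lift_mem L y hy u)
      rw [h2]
      exact Subgroup.mul_mem _ (Subgroup.inv_mem _ h1.2) (hcent u hu)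
    refine ⟨h3, ?_⟩
    rw [h1.1, h3, mul_one]
  have hy1 : FreeGroup.lift y q.concl = 1 := hq y (fun u hu => (hprem u hu).1)
  have hconc : FreeGroup.lift x' q.concl = FreeGroup.lift k q.concl := by
    have h1 := lift_mul_central k y hkc q.concl
    rw [← hxky, hy1, mul_one] at h1
    exact h1.1
  -- second complement
  let Z := center H
  let k' : ℕ → Z := fun i => ⟨k i, hkc i⟩
  have hk' : ∀ u : FreeGroup ℕ, ((FreeGroup.lift k' u : Z) : H) = FreeGroup.lift k u := by
    intro u
    exact lift_hom Z.subtype k' u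
  let C2 : Subgroup Z := closure {z | ∃ u ∈ q.prem, z = FreeGroup.lift k' u}
  have hZc : ∀ a b : Z, a * b = b * a := by
    intro a b
    apply Subtype.ext
    exact (Subgroup.mem_center_iff.1 a.2 b).symm
  have hZcomm : ∀ z : Z, z ∈ commutator Z → z = 1 := by
    intro z hz
    have h1 : commutator Z ≤ ⊥ := by
      rw [_root_.commutator_def, Subgroup.commutator_le]
      intro a _ b _
      rw [Subgroup.mem_bot]
      exact commutatorElement_eq_one_iff_commute.2 (hZc a b)
    exact Subgroup.mem_bot.1 (h1 hz)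
  obtain ⟨D, hD1, hD2⟩ := exists_compl (G := Z) hp
    (fun z => Subtype.ext (by rw [Subgroup.coe_pow]; exact hexp z)) C2
    (fun z _ hz' => hZcomm z hz')
  choose e he d hd hed using fun i => hD2 (k' i)
  have hked : k' = fun i => e i * d i := funext hed
  have hec : ∀ i, e i ∈ center Z := fun i => Subgroup.mem_center_iff.2 (fun g => hZc g (e i))
  have hd1 : ∀ u ∈ q.prem, FreeGroup.lift (fun i => (d i : H)) u = 1 := by
    intro u hu
    have h1 := lift_mul_central e d hec u
    rw [← hked] at h1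
    have h2 : FreeGroup.lift d u = (FreeGroup.lift e u)⁻¹ * FreeGroup.lift k' u := by
      rw [h1.1]; group
    have h3 : FreeGroup.lift d u = 1 := by
      apply hD1 _ (lift_mem D d hd u)
      rw [h2]
      exact C2.mul_mem (C2.inv_mem (lift_mem C2 e he u)) (subset_closure ⟨u, hu, rfl⟩)
    have h4 := lift_hom Z.subtype d u
    rw [h3, map_one] at h4
    exact h4.symm
  have hd2 : FreeGroup.lift (fun i => (d i : H)) q.concl = 1 := hq _ hd1
  have hd3 : FreeGroup.lift d q.concl = 1 := by
    apply Subtype.ext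
    have h4 := lift_hom Z.subtype d q.concl
    exact h4.trans hd2
  have hkC : FreeGroup.lift k' q.concl ∈ C2 := by
    have h1 := (lift_mul_central e d hec q.concl).1
    rw [← hked, hd3, mul_one] at h1
    rw [h1]
    exact lift_mem C2 e he q.concl
  -- a parallel element of `N`
  let P : Subgroup (H × H) := closure {a | ∃ u ∈ q.prem, a = (FreeGroup.lift x u, FreeGroup.lift x' u)}
  have hP2 : C2.map Z.subtype ≤ P.map (MonoidHom.snd H H) := by
    rw [MonoidHom.map_closure, closure_le]
    rintro _ ⟨z, ⟨u, hu, rfl⟩, rfl⟩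
    refine ⟨(FreeGroup.lift x u, FreeGroup.lift x' u), subset_closure ⟨u, hu, rfl⟩, ?_⟩
    show FreeGroup.lift x' u = ((FreeGroup.lift k' u : Z) : H)
    rw [hk', (hprem u hu).2]
  have hcP : FreeGroup.lift x' q.concl ∈ P.map (MonoidHom.snd H H) := by
    apply hP2
    refine ⟨FreeGroup.lift k' q.concl, hkC, ?_⟩
    show ((FreeGroup.lift k' q.concl : Z) : H) = _
    rw [hk', hconc]
  obtain ⟨⟨n, c⟩, hnc, hc⟩ := hcP
  have hc' : c = FreeGroup.lift x' q.concl := hc
  have hPN : P ≤ N.comap (MonoidHom.fst H H) := by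
    rw [closure_le]
    rintro _ ⟨u, hu, rfl⟩
    exact hx u hu
  have hnN : n ∈ N := hPN hnc
  have hPM : ∀ (M : Subgroup H) [M.Normal],
      (∀ w ∈ ws, QuotientGroup.mk' M w ∈ center (H ⧸ M)) →
      QuotientGroup.mk' M n = QuotientGroup.mk' M c := by
    intro M _ hM
    have h1 : P ≤ ((QuotientGroup.mk' M).comp (MonoidHom.fst H H)).eqLocus
        ((QuotientGroup.mk' M).comp (MonoidHom.snd H H)) := by
      rw [closure_le]
      rintro _ ⟨u, hu, rfl⟩
      exact (hval M hM u).symm
    exact h1 hnc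
  have hzero : kapS Φ l ws (FreeGroup.lift x q.concl * n⁻¹) = 1 := by
    by_contra hne
    obtain ⟨M, hM, hnot, hS⟩ := sep hΦ hT hH _ hne
    apply hnot
    rw [← QuotientGroup.eq_one_iff]
    show QuotientGroup.mk' M (kapS Φ l ws (FreeGroup.lift x q.concl * n⁻¹)) = 1
    by_cases hg : ∀ w ∈ ws, QuotientGroup.mk' M w ∈ center (H ⧸ M)
    · rw [hgood M hg, map_mul, map_inv, hPM M hg, hc', hval M hg, mul_inv_cancel]
    · exact hbad M hS hg _
  have hfin := kapS_mem hΦ N l ws hwsN (FreeGroup.lift x q.concl * n⁻¹)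
  rw [hzero, mul_one] at hfin
  have h5 : FreeGroup.lift x q.concl * n⁻¹ ∈ N := by
    have := N.inv_mem hfin
    rwa [inv_inv] at this
  have h6 := N.mul_mem h5 hnN
  rwa [inv_mul_cancel_right] at h6

end vars3

/-! ### Primitivity -/

theorem sat_pow {T : Type} [Group T] {p : ℕ} (hexp : ∀ x : T, x ^ p = 1) :
    (FreeGroup.of 0 : FreeGroup ℕ) ^ p ∈ laws T := by
  intro v
  rw [map_pow]
  exact hexp _

theorem exp_of_inVar {T G : Type} [Group T] [Group G] {p : ℕ} (hexp : ∀ x : T, x ^ p = 1)
    (h : InVar (laws T) G) (x : G) : x ^ p = 1 := by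
  have h1 := h _ (sat_pow hexp) (fun _ => x)
  rw [map_pow, FreeGroup.lift_apply_of] at h1
  exact h1

/-- The variety generated by `T` is primitive. -/
theorem primitive {Φ : FreeGroup (Fin 2)} (hΦ : Φ ∈ commutator (FreeGroup (Fin 2))) {T : Type}
    [Group T] (hT : Star Φ T) {p : ℕ} (hp : p.Prime) (hexp : ∀ x : T, x ^ p = 1) :
    IsPrimitive (laws T) := by
  classical
  intro Θ hΘ
  refine ⟨{w | ∀ (G : Type) [Group G], InQVar Θ G → SatLaw G w}, fun G _ => ⟨?_, ?_⟩⟩
  · intro hG w hw
    exact hw G hG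
  intro hG q hq v hv
  obtain ⟨n, hn⟩ := list_bound (q.concl :: q.prem)
  let K := FreeGroup (Fin n) ⧸ relSub Θ n
  have hK : InQVar Θ K := relFree_mem Θ n
  have hKW : InVar (laws T) K := hΘ K hK
  have hρ0 : ∀ w ∈ relSub Θ n, FreeGroup.lift (fun i : Fin n => v i) w = 1 := by
    intro w hw
    have h1 : FreeGroup.map Fin.val w ∈
        {w | ∀ (G : Type) [Group G], InQVar Θ G → SatLaw G w} := by
      intro H _ hH u
      have h2 := hw H hH ((FreeGroup.lift u).comp (FreeGroup.map Fin.val))
      exact h2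
    have h2 := hG _ h1 v
    have h3 : (FreeGroup.lift v).comp (FreeGroup.map (Fin.val (n := n))) =
        FreeGroup.lift (fun i : Fin n => v i) := by
      apply FreeGroup.ext_hom
      intro a
      simp
    rw [← h3]
    exact h2
  let ρ : K →* G := QuotientGroup.lift (relSub Θ n) (FreeGroup.lift (fun i : Fin n => v i)) hρ0
  have hρ : ∀ i : Fin n, ρ ((FreeGroup.of i : FreeGroup (Fin n)) : K) = v i := by
    intro i
    show FreeGroup.lift (fun i : Fin n => v i) (FreeGroup.of i) = v i
    simp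
  let x : ℕ → K := fun i => if h : i < n then ((FreeGroup.of (⟨i, h⟩ : Fin n) :
    FreeGroup (Fin n)) : K) else 1
  have hval : ∀ w ∈ q.concl :: q.prem, ρ (FreeGroup.lift x w) = FreeGroup.lift v w := by
    intro w hw
    rw [lift_hom]
    apply hn _ _ _ _ w hw
    intro i hi
    show ρ (x i) = v i
    simp only [x, dif_pos hi]
    exact hρ ⟨i, hi⟩
  let l : List K := (List.finRange n).map fun i => ((FreeGroup.of i : FreeGroup (Fin n)) : K)
  have hl : closure {y | y ∈ l} = ⊤ := by
    have h1 : (closure (Set.range (FreeGroup.of : Fin n → FreeGroup (Fin n)))).map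
        (QuotientGroup.mk' (relSub Θ n)) = ⊤ := by
      rw [FreeGroup.closure_range_of, ← MonoidHom.range_eq_map]
      exact MonoidHom.range_eq_top.2 (QuotientGroup.mk'_surjective _)
    rw [MonoidHom.map_closure] at h1
    rw [← h1]
    congr 1
    ext y
    constructor
    · intro hy
      obtain ⟨i, -, rfl⟩ := List.mem_map.1 hy
      exact ⟨FreeGroup.of i, ⟨i, rfl⟩, rfl⟩
    · rintro ⟨_, ⟨i, rfl⟩, rfl⟩
      exact List.mem_map.2 ⟨i, List.mem_finRange i, rfl⟩
  have hmain := main hΦ hT (tr_of_inVar T K hKW) hp (exp_of_inVar hexp hKW) l hl ρ.ker q (hK q hq)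
    x (by
      intro u hu
      rw [MonoidHom.mem_ker, hval u (List.mem_cons_of_mem _ hu)]
      exact hv u hu)
  rw [MonoidHom.mem_ker, hval _ List.mem_cons_self] at hmain
  exact hmain

/-- A nonabelian group of prime exponent generated by two elements with the property Star is
infinite. -/
theorem infinite_of_star {Φ : FreeGroup (Fin 2)} (hΦ : Φ ∈ commutator (FreeGroup (Fin 2)))
    {S : Type} [Group S] (hS : Star Φ S) {p : ℕ} (hp : p.Prime) (hexp : ∀ x : S, x ^ p = 1)
    (a b : S) (hab : a * b ≠ b * a) (hcl : Subgroup.closure {a, b} = ⊤) : Infinite S := by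
  rw [← not_finite_iff_infinite]
  intro hfin
  have : Fact p.Prime := ⟨hp⟩
  have hP : IsPGroup p S := by
    intro g
    exact ⟨1, by rw [pow_one]; exact hexp g⟩
  have hnil : Group.IsNilpotent S := hP.isNilpotent
  have hnt : Nontrivial S := by
    refine ⟨⟨a, 1, fun h => hab ?_⟩⟩
    rw [h]; simp
  have hlt := Group.IsSolvable.commutator_lt_top_of_nontrivial S
  apply hlt.ne
  rw [eq_top_iff, ← hcl, closure_le]
  have h1 : ∀ u v : S, u * v ≠ v * u → v ∈ commutator S := by
    intro u v huv
    rw [← (hS u v).resolve_left huv]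
    exact ev_mem_commutator hΦ u v
  intro z hz
  rcases hz with rfl | rfl
  · exact h1 _ _ (Ne.symm hab)
  · exact h1 _ _ hab

theorem Star.subgroup {Φ : FreeGroup (Fin 2)} {T : Type} [Group T] (hT : Star Φ T)
    (S : Subgroup T) : Star Φ S := by
  intro x y
  rcases hT x y with h | h
  · left
    exact Subtype.ext h
  · right
    apply Subtype.ext
    have h1 := ev_hom Φ S.subtype x y
    exact h1.trans h

/-- The variety generated by a nonabelian `T` is not locally finite. -/
theorem not_locFinite {Φ : FreeGroup (Fin 2)} (hΦ : Φ ∈ commutator (FreeGroup (Fin 2))) {T : Type}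
    [Group T] (hT : Star Φ T) {p : ℕ} (hp : p.Prime) (hexp : ∀ x : T, x ^ p = 1)
    (hna : ∃ a b : T, a * b ≠ b * a) : ¬ IsLocFinite (laws T) := by
  intro hlf
  obtain ⟨a, b, hab⟩ := hna
  let S : Subgroup T := closure {a, b}
  have ha : a ∈ S := subset_closure (by simp)
  have hb : b ∈ S := subset_closure (by simp)
  have hST : InVar (laws T) S := by
    intro w hw
    exact SatLaw.of_inj hw S.subtype S.subtype_injective
  have hfg : Group.FG S := by
    classical
    exact (Group.fg_iff_subgroup_fg S).2 ⟨({a, b} : Finset T), by simp [S]⟩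
  have hfin : Finite S := hlf S hST hfg
  have habS : (⟨a, ha⟩ : S) * ⟨b, hb⟩ ≠ ⟨b, hb⟩ * ⟨a, ha⟩ := fun h => hab (congrArg Subtype.val h)
  have h2 : Subgroup.closure {(⟨a, ha⟩ : S), ⟨b, hb⟩} = (⊤ : Subgroup S) := by
    rw [eq_top_iff]
    rintro ⟨z, hz⟩ -
    have h3 : (Subgroup.closure {(⟨a, ha⟩ : S), ⟨b, hb⟩}).map S.subtype = S := by
      rw [MonoidHom.map_closure]
      congr 1
      simp [Set.image_pair]
    rw [← h3] at hz
    obtain ⟨z', hz', hzz⟩ := hz
    have : z' = ⟨z, by rw [← h3]; exact ⟨z', hz', hzz⟩⟩ := Subtype.ext hzz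
    rw [← this]
    exact hz'
  have hinf := infinite_of_star hΦ (hT.subgroup S) hp
    (fun x => Subtype.ext (by rw [Subgroup.coe_pow]; exact hexp x)) _ _ habS h2
  exact not_finite S

/-- **The one-word criterion.** -/
theorem criterion {Φ : FreeGroup (Fin 2)} (hΦ : Φ ∈ commutator (FreeGroup (Fin 2))) {T : Type}
    [Group T] (hT : ∀ x y : T, x * y ≠ y * x → FreeGroup.lift ![x, y] Φ = y) {p : ℕ}
    (hp : p.Prime) (hexp : ∀ x : T, x ^ p = 1) (hna : ∃ a b : T, a * b ≠ b * a) :
    ∃ W : Set (FreeGroup ℕ), IsPrimitive W ∧ ¬ IsLocFinite W := by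
  have hS : Star Φ T := fun x y => or_iff_not_imp_left.2 (hT x y)
  exact ⟨laws T, primitive hΦ hS hp hexp, not_locFinite hΦ hS hp hexp hna⟩

/-- From a word `E(x, y)` which is trivial for all noncommuting pairs and equal to `x ^ σ`, `σ`
prime to `p`, for commuting pairs. -/
theorem exists_phi (E : FreeGroup (Fin 2)) (σ : ℕ) (p : ℕ) (hp : p.Prime)
    (hσ : Nat.Coprime σ p)
    (hE : E * (FreeGroup.of 0 : FreeGroup (Fin 2))⁻¹ ^ σ ∈ commutator (FreeGroup (Fin 2)))
    (T : Type) [Group T] (hexp : ∀ x : T, x ^ p = 1)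
    (hT : ∀ x y : T, x * y ≠ y * x → FreeGroup.lift ![x, y] E = 1) :
    ∃ Φ ∈ commutator (FreeGroup (Fin 2)), Star Φ T := by
  -- a number `τ` with `σ τ = 1` modulo `p`
  obtain ⟨τ, hτ⟩ : ∃ τ : ℕ, σ * τ ≡ 1 [MOD p] := by
    obtain ⟨τ, hτ⟩ := Nat.exists_mul_mod_eq_one_of_coprime hσ hp.one_lt
    exact ⟨τ, by rw [Nat.ModEq, hτ.2, Nat.mod_eq_of_lt hp.one_lt]⟩
  let sw : FreeGroup (Fin 2) →* FreeGroup (Fin 2) := FreeGroup.lift ![FreeGroup.of 1, FreeGroup.of 0]
  let Ψ : FreeGroup (Fin 2) := E * (FreeGroup.of 0 : FreeGroup (Fin 2))⁻¹ ^ σ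
  let Φ : FreeGroup (Fin 2) := (sw Ψ)⁻¹ ^ τ
  have hΦ : Φ ∈ commutator (FreeGroup (Fin 2)) := by
    apply Subgroup.pow_mem
    apply Subgroup.inv_mem
    have h1 : (commutator (FreeGroup (Fin 2))).map sw ≤ commutator (FreeGroup (Fin 2)) := by
      rw [_root_.commutator_def, Subgroup.map_commutator]
      exact Subgroup.commutator_mono le_top le_top
    exact h1 ⟨Ψ, hE, rfl⟩
  refine ⟨Φ, hΦ, fun x y => or_iff_not_imp_left.2 fun hxy => ?_⟩
  have h1 : (FreeGroup.lift ![x, y]).comp sw = FreeGroup.lift ![y, x] := by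
    apply FreeGroup.ext_hom
    intro i
    fin_cases i <;> simp [sw]
  have h2 : FreeGroup.lift ![x, y] (sw Ψ) = y⁻¹ ^ σ := by
    have h3 : FreeGroup.lift ![x, y] (sw Ψ) = FreeGroup.lift ![y, x] Ψ := by rw [← h1]; rfl
    rw [h3]
    simp only [Ψ, map_mul, map_pow, map_inv, FreeGroup.lift_apply_of]
    rw [hT y x (Ne.symm hxy)]
    simp
  show FreeGroup.lift ![x, y] ((sw Ψ)⁻¹ ^ τ) = y
  rw [map_pow, map_inv, h2]
  have h4 : ((y⁻¹ ^ σ)⁻¹) ^ τ = y ^ (σ * τ) := by
    rw [inv_pow y σ, inv_inv, pow_mul]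
  rw [h4]
  have h5 : y ^ (σ * τ) = y ^ 1 := by
    apply pow_eq_pow_of_modEq hτ
    exact hexp y
  rw [h5, pow_one]

/-- Version with a word `E(x, y)` which is trivial for all noncommuting pairs and equal to
`x ^ σ`, `σ` prime to `p`, for commuting pairs. -/
theorem criterion_E (E : FreeGroup (Fin 2)) (σ : ℕ) (p : ℕ) (hp : p.Prime)
    (hσ : Nat.Coprime σ p)
    (hE : E * (FreeGroup.of 0 : FreeGroup (Fin 2))⁻¹ ^ σ ∈ commutator (FreeGroup (Fin 2)))
    (T : Type) [Group T] (hexp : ∀ x : T, x ^ p = 1) (hna : ∃ a b : T, a * b ≠ b * a)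
    (hT : ∀ x y : T, x * y ≠ y * x → FreeGroup.lift ![x, y] E = 1) :
    ∃ W : Set (FreeGroup ℕ), IsPrimitive W ∧ ¬ IsLocFinite W := by
  obtain ⟨Φ, hΦ, hS⟩ := exists_phi E σ p hp hσ hE T hexp hT
  exact ⟨laws T, primitive hΦ hS hp hexp, not_locFinite hΦ hS hp hexp hna⟩

end Pool.Agent.Work.MP_6f5fa7_al.OneWord
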