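import Pool.Agent.Work.MP_6f5fa7_al.Suff
import Pool.Agent.Work.MP_6f5fa7_al.Nec
import Pool.Agent.Work.MP_6f5fa7_al.CommP

/-!
# Primitive varieties of soluble groups
-/

set_option autoImplicit false

namespace Pool.Agent.Work.MP_6f5fa7_al

open Subgroup
open scoped commutatorElement

variable {W : Set (FreeGroup ℕ)}

/-! ## Finite exponent -/

lemma finite_of_fg_solvable (n : ℕ) : ∀ (G : Type) [Group G], Group.FG G →
    derivedSeries G n = ⊥ → ∀ e : ℕ, e ≠ 0 → (∀ g : G, g ^ e = 1) → Finite G := by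
  induction n with
  | zero =>
    intro G _ _ h e _ _
    rw [derivedSeries_zero] at h
    have h1 : ∀ a : G, a = 1 := fun a => by
      have : a ∈ (⊤ : Subgroup G) := mem_top a
      rw [h] at this
      exact Subgroup.mem_bot.1 this
    have : Subsingleton G := ⟨fun a b => by rw [h1 a, h1 b]⟩
    infer_instance
  | succ n ih =>
    intro G _ hfg h e he hexp
    have hAn : (derivedSeries G n).Normal := inferInstance
    have h1 : Finite (G ⧸ derivedSeries G n) := by
      refine ih (G ⧸ derivedSeries G n) inferInstance ?_ e he ?_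
      · rw [← map_derivedSeries_eq (QuotientGroup.mk'_surjective (derivedSeries G n)) n,
          QuotientGroup.map_mk'_self]
      · intro g
        obtain ⟨x, rfl⟩ := QuotientGroup.mk_surjective g
        rw [← QuotientGroup.mk_pow, hexp]; rfl
    have h2 : (derivedSeries G n).FiniteIndex := Subgroup.finiteIndex_of_finite_quotient
    have h3 : Group.FG (derivedSeries G n) := Subgroup.fg_of_index_ne_zero _
    have h4 : ∀ a b : derivedSeries G n, a * b = b * a := by
      rintro ⟨a, ha⟩ ⟨b, hb⟩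
      have h5 : ⁅a, b⁆ ∈ derivedSeries G (n + 1) := by
        rw [derivedSeries_succ]; exact Subgroup.commutator_mem_commutator ha hb
      rw [h, Subgroup.mem_bot, commutatorElement_eq_one_iff_mul_comm] at h5
      exact Subtype.ext h5
    let cg : CommGroup (derivedSeries G n) := { (inferInstance : Group (derivedSeries G n)) with
      mul_comm := h4 }
    have h5 : Finite (derivedSeries G n) := by
      refine @CommGroup.finite_of_fg_isMulTorsion _ cg h3 ?_
      intro x
      rw [isOfFinOrder_iff_pow_eq_one]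
      exact ⟨e, Nat.pos_of_ne_zero he, Subtype.ext (hexp x)⟩
    exact Finite.of_subgroup_quotient (derivedSeries G n)

/-- the infinite cyclic group is not in a primitive variety -/
lemma IsPrimitive.no_int (hprim : IsPrimitive W) : ¬ InVar W (Multiplicative ℤ) := by
  intro hZ
  let q : QuasiId := ⟨[FreeGroup.of 0 ^ 2], FreeGroup.of 0⟩
  let π : Multiplicative ℤ →* Multiplicative (ZMod 2) :=
    AddMonoidHom.toMultiplicative (Int.castAddHom (ZMod 2))
  have hπ : Function.Surjective π := fun y => by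
    obtain ⟨x, hx⟩ := ZMod.intCast_surjective y.toAdd
    exact ⟨Multiplicative.ofAdd x, hx⟩
  have h1 : SatQ (Multiplicative ℤ) q := by
    intro v hv
    have h2 := hv (FreeGroup.of 0 ^ 2) (by simp [q])
    rw [map_pow, FreeGroup.lift_apply_of] at h2
    show FreeGroup.lift v (FreeGroup.of 0) = 1
    rw [FreeGroup.lift_apply_of]
    have h3 : 2 • (v 0).toAdd = 0 := h2
    have h4 : (v 0).toAdd = 0 := by
      rw [two_nsmul] at h3; omega
    exact h4
  have h2 := hprim.satQ hZ π hπ q h1 (fun _ => Multiplicative.ofAdd 1) (by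
    intro u hu
    have hu' : u = FreeGroup.of 0 ^ 2 := by simpa [q] using hu
    rw [hu', map_pow, FreeGroup.lift_apply_of]
    show (2 • (1 : ZMod 2)) = 0
    decide)
  have h3 : FreeGroup.lift (fun _ => Multiplicative.ofAdd (1 : ZMod 2)) (FreeGroup.of (0 : ℕ)) = 1 :=
    h2
  rw [FreeGroup.lift_apply_of] at h3
  have h4 : (1 : ZMod 2) = 0 := h3
  exact absurd h4 (by decide)

/-- a variety which does not contain the infinite cyclic group has finite exponent -/
lemma exists_exp (hno : ¬ InVar W (Multiplicative ℤ)) :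
    ∃ e : ℕ, e ≠ 0 ∧ ∀ (G : Type) [Group G], InVar W G → ∀ g : G, g ^ e = 1 := by
  unfold InVar SatLaw at hno
  push Not at hno
  obtain ⟨w, hw, v, hv⟩ := hno
  refine ⟨(FreeGroup.lift v w).toAdd.natAbs, ?_, ?_⟩
  · rw [Int.natAbs_ne_zero]
    exact hv
  · intro G _ hG g
    have h1 := lift_hom (zpowersHom G g) v w
    rw [hG w hw, zpowersHom_apply] at h1
    rw [← orderOf_dvd_iff_pow_eq_one, ← Int.natCast_dvd, orderOf_dvd_iff_zpow_eq_one]
    exact h1

/-- the least exponent -/
lemma exists_min_exp (hex : ∃ e : ℕ, e ≠ 0 ∧ ∀ (G : Type) [Group G], InVar W G →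
    ∀ g : G, g ^ e = 1) :
    ∃ e : ℕ, e ≠ 0 ∧ (∀ (G : Type) [Group G], InVar W G → ∀ g : G, g ^ e = 1) ∧
      ∀ p : ℕ, p.Prime → p ^ 2 ∣ e → InVar W (Multiplicative (ZMod (p ^ 2))) := by
  classical
  refine ⟨Nat.find hex, (Nat.find_spec hex).1, (Nat.find_spec hex).2, ?_⟩
  intro p hp hpe
  obtain ⟨he0, he⟩ := Nat.find_spec hex
  set e := Nat.find hex with hedef
  have hpd : p ∣ e := (dvd_pow_self p two_ne_zero).trans hpe
  have h1 := Nat.find_min hex (m := e / p) (Nat.div_lt_self (Nat.pos_of_ne_zero he0) hp.one_lt)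
  push Not at h1
  obtain ⟨G, _, hG, g, hg⟩ := h1 (Nat.div_ne_zero_iff.2 ⟨hp.ne_zero, Nat.le_of_dvd
    (Nat.pos_of_ne_zero he0) hpd⟩)
  have h2 : orderOf g ∣ e := orderOf_dvd_of_pow_eq_one (he G hG g)
  have h3 : ¬ orderOf g ∣ e / p := fun h => hg (orderOf_dvd_iff_pow_eq_one.1 h)
  obtain ⟨c, hc⟩ := h2
  have h4 : ¬ p ∣ c := by
    rintro ⟨d, hd⟩
    apply h3
    refine ⟨d, ?_⟩
    rw [hc, hd, Nat.div_eq_of_eq_mul_right hp.pos]
    ring
  have h5 : p ^ 2 ∣ orderOf g := by
    refine Nat.Coprime.dvd_of_dvd_mul_right (Nat.Coprime.pow_left 2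
      ((Nat.Prime.coprime_iff_not_dvd hp).2 h4)) ?_
    rw [← hc]; exact hpe
  obtain ⟨m, hm⟩ := h5
  have hg0 : orderOf g ≠ 0 := by
    intro h0; rw [h0, zero_mul] at hc; exact he0 hc
  have hm0 : m ≠ 0 := by
    rintro rfl
    rw [mul_zero] at hm; exact hg0 hm
  refine hG.cyclic (g ^ m) ?_
  rw [orderOf_pow' g hm0, hm, Nat.gcd_eq_right (Dvd.intro_left _ rfl),
    Nat.mul_div_cancel _ (Nat.pos_of_ne_zero hm0)]

/-- factorisation of the exponent -/
lemma exists_factor (e : ℕ) : e ≠ 0 → ∃ n s : ℕ, n ≠ 0 ∧ e = n * s ∧ Squarefree s ∧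
    n.Coprime s ∧ ∀ p : ℕ, p.Prime → p ∣ n → p ^ 2 ∣ e := by
  induction e using Nat.recOnPosPrimePosCoprime with
  | zero => intro h; exact absurd rfl h
  | one => intro _; exact ⟨1, 1, one_ne_zero, rfl, squarefree_one, by simp, fun p hp h => by
      exact absurd (Nat.dvd_one.1 h) hp.ne_one⟩
  | prime_pow p k hp hk =>
    intro _
    by_cases h1 : k = 1
    · subst h1
      refine ⟨1, p, one_ne_zero, by ring, hp.prime.squarefree, by simp, fun q hq h => ?_⟩
      exact absurd (Nat.dvd_one.1 h) hq.ne_one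
    · refine ⟨p ^ k, 1, pow_ne_zero _ hp.ne_zero, by ring, squarefree_one, by simp,
        fun q hq h => ?_⟩
      have h2 : q = p := (Nat.prime_dvd_prime_iff_eq hq hp).1 (hq.dvd_of_dvd_pow h)
      subst h2
      exact pow_dvd_pow q (by omega)
  | coprime a b ha hb hab iha ihb =>
    intro _
    obtain ⟨n1, s1, hn1, he1, hs1, hc1, hp1⟩ := iha (by omega)
    obtain ⟨n2, s2, hn2, he2, hs2, hc2, hp2⟩ := ihb (by omega)
    have hcop : (n1 * s1).Coprime (n2 * s2) := by rw [← he1, ← he2]; exact hab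
    have e1 : s1.Coprime s2 := Nat.Coprime.coprime_mul_left
      (Nat.Coprime.coprime_mul_left_right hcop)
    have e2 : n1.Coprime s2 := Nat.Coprime.coprime_mul_right
      (Nat.Coprime.coprime_mul_left_right hcop)
    have e3 : s1.Coprime n2 := Nat.Coprime.coprime_mul_left
      (Nat.Coprime.coprime_mul_right_right hcop)
    refine ⟨n1 * n2, s1 * s2, mul_ne_zero hn1 hn2, by rw [he1, he2]; ring,
      (Nat.squarefree_mul e1).2 ⟨hs1, hs2⟩, ?_, ?_⟩
    · exact Nat.Coprime.mul_right (Nat.Coprime.mul_left hc1 e3.symm)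
        (Nat.Coprime.mul_left e2 hc2)
    · intro p hp h
      rcases (Nat.Prime.dvd_mul hp).1 h with h | h
      · exact (hp1 p hp h).trans (Dvd.intro _ rfl)
      · exact (hp2 p hp h).trans (Dvd.intro_left _ rfl)

/-! ## Necessity -/

/-- In soluble groups, condition (ii) means that the `p`-elements commute. -/
theorem commP_of_solvable (hW : Cond W) {p : ℕ} (hp : p.Prime)
    (hV : InVar W (Multiplicative (ZMod (p ^ 2)))) : ∀ (n : ℕ) (G : Type) [Group G] [Finite G],
    Nat.card G = n → InVar W G → Group.IsSolvable G → CommP p G := by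
  intro n
  induction n using Nat.strong_induction_on with
  | _ n ih =>
  intro G _ _ hcard hG hsol x y m k hx hy
  have hpf : Fact p.Prime := ⟨hp⟩
  have hab : AbSyl p G := hW.abSyl hp hG
  have hstep : ∀ S : Subgroup G, S ≠ ⊤ → ∀ x ∈ S, ∀ y ∈ S, x ^ (p ^ m) = 1 →
      y ^ (p ^ k) = 1 → x * y = y * x := by
    intro S hS x hx y hy hxm hyk
    have hlt : Nat.card S < n := by
      rw [← hcard]
      refine lt_of_le_of_ne (Subgroup.card_le_card_group S) (fun h => hS ?_)
      exact Subgroup.eq_top_of_card_eq S h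
    have := ih _ hlt S rfl (hG.of_inj S.subtype S.subtype_injective) inferInstance ⟨x, hx⟩ ⟨y, hy⟩
      m k (Subtype.ext hxm) (Subtype.ext hyk)
    exact congrArg Subtype.val this
  obtain ⟨A, X, hA, hX, hAX1, hAX2, hAp, hAc, hXidx⟩ := hW.split p hp hV G hG
  by_cases hXt : X = ⊤
  · -- no normal subgroup of index `p`
    have hno : NoIdx p G := noIdx_of_surj hXidx X.subtype
      (fun g => ⟨⟨g, by rw [hXt]; trivial⟩, rfl⟩)
    have hOpp : Opp p G = ⊤ := by
      by_contra hne
      have hpg : IsPGroup p (G ⧸ Opp p G) := isPGroup_quot _ le_rfl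
      have : Nontrivial (G ⧸ Opp p G) := QuotientGroup.nontrivial_iff.2 hne
      obtain ⟨M, hM1, hM2⟩ := exists_index_p hpg (AbSyl.comm_of_isPGroup
        (hab.of_surj (QuotientGroup.mk' _) (QuotientGroup.mk'_surjective _)) hpg)
      exact noIdx_of_surj hno (QuotientGroup.mk' (Opp p G)) (QuotientGroup.mk'_surjective _)
        M hM1 hM2
    rcases subsingleton_or_nontrivial G with hs | hs
    · exact Subsingleton.elim _ _
    have hlt : commutator G < ⊤ := Group.IsSolvable.commutator_lt_top_of_nontrivial G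
    have habel : ∀ a b : G ⧸ commutator G, a * b = b * a := by
      intro a b
      obtain ⟨a, rfl⟩ := QuotientGroup.mk_surjective a
      obtain ⟨b, rfl⟩ := QuotientGroup.mk_surjective b
      have h1 : ⁅a, b⁆ ∈ commutator G := commutator_mem_commutator (mem_top a) (mem_top b)
      have h2 : ((⁅a, b⁆ : G) : G ⧸ commutator G) = 1 := (QuotientGroup.eq_one_iff _).2 h1
      have h3 : ⁅(a : G ⧸ commutator G), (b : G ⧸ commutator G)⁆ = 1 := h2
      rwa [commutatorElement_eq_one_iff_mul_comm] at h3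
    have hcopr : ∀ g : G, ∃ j : ℕ, j.Coprime p ∧ ((g : G ⧸ commutator G)) ^ j = 1 := by
      intro g
      have hg : g ∈ Opp p G := by rw [hOpp]; trivial
      rw [Opp] at hg
      induction hg using Subgroup.closure_induction with
      | mem x hx =>
        exact ⟨orderOf x, hx, by rw [← QuotientGroup.mk_pow, pow_orderOf_eq_one]; rfl⟩
      | one => exact ⟨1, by simp, by simp⟩
      | mul a b _ _ ha hb =>
        obtain ⟨j, hj, ha⟩ := ha
        obtain ⟨l, hl, hb⟩ := hb
        refine ⟨j * l, Nat.Coprime.mul_left hj hl, ?_⟩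
        have hc : Commute (a : G ⧸ commutator G) (b : G ⧸ commutator G) := habel _ _
        rw [QuotientGroup.mk_mul, hc.mul_pow, pow_mul, ha, one_pow, mul_comm j l, pow_mul, hb,
          one_pow, one_mul]
      | inv a _ ha =>
        obtain ⟨j, hj, ha⟩ := ha
        exact ⟨j, hj, by rw [QuotientGroup.mk_inv, inv_pow, ha, inv_one]⟩
    have hin : ∀ (g : G) (l : ℕ), g ^ (p ^ l) = 1 → g ∈ commutator G := by
      intro g l hg
      obtain ⟨j, hj, hgj⟩ := hcopr g
      have h1 : ((g : G ⧸ commutator G)) ^ (p ^ l) = 1 := by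
        rw [← QuotientGroup.mk_pow, hg]; rfl
      rw [← QuotientGroup.eq_one_iff, ← orderOf_eq_one_iff]
      exact Nat.eq_one_of_dvd_coprimes (hj.pow_right l) (orderOf_dvd_of_pow_eq_one hgj)
        (orderOf_dvd_of_pow_eq_one h1)
    exact hstep (commutator G) hlt.ne x (hin x m hx) y (hin y k hy) hx hy
  · obtain ⟨f, hf1, hf2, hf3, hf4⟩ := exists_proj A X hAX1 hAX2
    have h1 : f x * f y = f y * f x :=
      hstep X hXt _ (hf1 x) _ (hf1 y) (by rw [← map_pow, hx, map_one])
        (by rw [← map_pow, hy, map_one])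
    have hx1 := ((split_A_mem hab hAX1 hAX2 hAp hXidx _).1 (hf4 x)).1
    have hy1 := ((split_A_mem hab hAX1 hAX2 hAp hXidx _).1 (hf4 y)).1
    have hxe : x = (x * (f x)⁻¹) * f x := by group
    have hye : y = (y * (f y)⁻¹) * f y := by group
    generalize x * (f x)⁻¹ = a at hx1 hxe
    generalize y * (f y)⁻¹ = b at hy1 hye
    rw [hxe, hye]
    calc a * f x * (b * f y) = a * (f x * b) * f y := by group
      _ = a * (b * f x) * f y := by rw [hy1 (f x)]
      _ = (a * b) * (f x * f y) := by group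
      _ = (b * a) * (f y * f x) := by rw [h1, hx1 b]
      _ = b * (a * f y) * f x := by group
      _ = b * f y * (a * f x) := by rw [hx1 (f y)]; group

lemma split_coprime {G : Type*} [Group G] {k l : ℕ} (h : k.Coprime l) (x : G)
    (hx : x ^ (k * l) = 1) : ∃ u v : G, x = u * v ∧ u ^ l = 1 ∧ v ^ k = 1 := by
  refine ⟨(x ^ k) ^ (Nat.gcdA k l), (x ^ l) ^ (Nat.gcdB k l), ?_, ?_, ?_⟩
  · rw [← zpow_natCast, ← zpow_natCast, ← zpow_mul, ← zpow_mul, ← zpow_add,
      ← Nat.gcd_eq_gcd_ab, h.gcd_eq_one, Nat.cast_one, zpow_one]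
  · rw [← zpow_natCast, ← zpow_mul, mul_comm, zpow_mul, zpow_natCast, ← pow_mul, hx, one_zpow]
  · rw [← zpow_natCast, ← zpow_mul, mul_comm, zpow_mul, zpow_natCast, ← pow_mul, mul_comm l k, hx,
      one_zpow]

lemma cross {G : Type*} [Group G] {p q : ℕ} (hp : p.Prime) (hq : q.Prime) (hpc : CommP p G)
    (hqc : CommP q G) (x y : G) (m k : ℕ) (hx : x ^ (p ^ m) = 1) (hy : y ^ (q ^ k) = 1) :
    x * y = y * x := by
  by_cases hpq : p = q
  · subst hpq
    exact hpc x y m k hx hy
  have h1 : (x * (y * x⁻¹ * y⁻¹)) ^ (p ^ m) = 1 := by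
    have e1 : (y * x⁻¹ * y⁻¹) ^ (p ^ m) = 1 := by
      rw [conj_pow, inv_pow, hx]; group
    have hc : Commute x (y * x⁻¹ * y⁻¹) := hpc _ _ m m hx e1
    rw [hc.mul_pow, hx, e1, one_mul]
  have h2 : ((x * y * x⁻¹) * y⁻¹) ^ (q ^ k) = 1 := by
    have e1 : (x * y * x⁻¹) ^ (q ^ k) = 1 := by
      rw [conj_pow, hy]; group
    have e2 : (y⁻¹) ^ (q ^ k) = 1 := by rw [inv_pow, hy, inv_one]
    have hc : Commute (x * y * x⁻¹) y⁻¹ := hqc _ _ k k e1 e2
    rw [hc.mul_pow, e1, e2, one_mul]
  have e3 : x * (y * x⁻¹ * y⁻¹) = (x * y * x⁻¹) * y⁻¹ := by group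
  rw [e3] at h1
  have h3 : (x * y * x⁻¹) * y⁻¹ = 1 := by
    rw [← orderOf_eq_one_iff]
    exact Nat.eq_one_of_dvd_coprimes (Nat.coprime_pow_primes m k hp hq hpq)
      (orderOf_dvd_of_pow_eq_one h1) (orderOf_dvd_of_pow_eq_one h2)
  rw [mul_inv_eq_one, mul_inv_eq_iff_eq_mul] at h3
  exact h3

lemma comm_of_pow {G : Type*} [Group G] {n : ℕ} (hn : n ≠ 0)
    (hc : ∀ p : ℕ, p.Prime → p ∣ n → CommP p G) (a b : G) (ha : a ^ n = 1) (hb : b ^ n = 1) :
    a * b = b * a := by
  have key2 : ∀ p : ℕ, p.Prime → p ∣ n → ∀ (m : ℕ) (a : G), a ^ (p ^ m) = 1 →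
      ∀ l : ℕ, l ∣ n → ∀ b : G, b ^ l = 1 → a * b = b * a := by
    intro p hp hpn m a ha l
    induction l using Nat.recOnPosPrimePosCoprime with
    | zero => intro h; exact absurd (zero_dvd_iff.1 h) hn
    | one => intro _ b hb; rw [pow_one] at hb; rw [hb, mul_one, one_mul]
    | prime_pow q k hq hk =>
      intro h b hb
      exact cross hp hq (hc p hp hpn) (hc q hq ((dvd_pow_self q hk.ne').trans h)) a b m k ha hb
    | coprime k l _ _ hkl ihk ihl =>
      intro h b hb
      obtain ⟨u, v, huv, hu, hv⟩ := split_coprime hkl b hb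
      have h1 : Commute a u := ihl ((Dvd.intro_left _ rfl).trans h) u hu
      have h2 : Commute a v := ihk ((Dvd.intro _ rfl).trans h) v hv
      rw [huv]
      exact (h1.mul_right h2).eq
  have key1 : ∀ l : ℕ, l ∣ n → ∀ a : G, a ^ l = 1 → a * b = b * a := by
    intro l
    induction l using Nat.recOnPosPrimePosCoprime with
    | zero => intro h; exact absurd (zero_dvd_iff.1 h) hn
    | one => intro _ a ha; rw [pow_one] at ha; rw [ha, mul_one, one_mul]
    | prime_pow q k hq hk =>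
      intro h a ha
      exact key2 q hq ((dvd_pow_self q hk.ne').trans h) k a ha n dvd_rfl b hb
    | coprime k l _ _ hkl ihk ihl =>
      intro h a ha
      obtain ⟨u, v, huv, hu, hv⟩ := split_coprime hkl a ha
      have h1 : Commute u b := ihl ((Dvd.intro_left _ rfl).trans h) u hu
      have h2 : Commute v b := ihk ((Dvd.intro _ rfl).trans h) v hv
      rw [huv]
      exact (h1.mul_left h2).eq
  exact key1 n dvd_rfl a ha

/-- a locally soluble variety of finite exponent is locally finite -/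
lemma locFinite_of_exp (hsol : ∀ (G : Type) [Group G], InVar W G → Group.FG G →
    Group.IsSolvable G) {e : ℕ} (he : e ≠ 0)
    (hexp : ∀ (G : Type) [Group G], InVar W G → ∀ g : G, g ^ e = 1) : IsLocFinite W := by
  intro G _ hG hfg
  obtain ⟨n, hn⟩ := (hsol G hG hfg).solvable
  exact finite_of_fg_solvable n G hfg hn e he (hexp G hG)

theorem sol_nec (hsol : ∀ (G : Type) [Group G], InVar W G → Group.FG G → Group.IsSolvable G)
    (hprim : IsPrimitive W) : ∃ n s : ℕ, n ≠ 0 ∧ Squarefree s ∧ n.Coprime s ∧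
      ∀ (G : Type) [Group G], InVar W G → ∀ x y : G,
        x ^ (n * s) = 1 ∧ x ^ s * y ^ s = y ^ s * x ^ s := by
  obtain ⟨e, he, hexp, hpe⟩ := exists_min_exp (exists_exp hprim.no_int)
  obtain ⟨n, s, hn, hes, hs, hcop, hp⟩ := exists_factor e he
  refine ⟨n, s, hn, hs, hcop, fun G _ hG x y => ⟨by rw [← hes]; exact hexp G hG x, ?_⟩⟩
  have hlf := locFinite_of_exp hsol he hexp
  have hcond := nec hprim
  let H : Subgroup G := closure {x, y}
  have hxH : x ∈ H := Subgroup.subset_closure (by simp)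
  have hyH : y ∈ H := Subgroup.subset_closure (by simp)
  have hHfg : Group.FG H := Group.closure_finite_fg _
  have hHV : InVar W H := hG.of_inj H.subtype H.subtype_injective
  have hHfin : Finite H := hlf H hHV hHfg
  have h1 := comm_of_pow (G := H) hn (fun p hpp hpn => commP_of_solvable hcond hpp
    (hpe p hpp (hp p hpp hpn)) _ H rfl hHV (hsol H hHV hHfg)) (⟨x, hxH⟩ ^ s) (⟨y, hyH⟩ ^ s)
    (by rw [← pow_mul, mul_comm, ← hes, hexp H hHV]) (by rw [← pow_mul, mul_comm, ← hes, hexp H hHV])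
  exact congrArg Subtype.val h1

/-! ## Sufficiency -/

theorem sol_suff (hsol : ∀ (G : Type) [Group G], InVar W G → Group.FG G → Group.IsSolvable G)
    (hex : ∃ n s : ℕ, n ≠ 0 ∧ Squarefree s ∧ n.Coprime s ∧
      ∀ (G : Type) [Group G], InVar W G → ∀ x y : G,
        x ^ (n * s) = 1 ∧ x ^ s * y ^ s = y ^ s * x ^ s)
    (hab : ∀ p : ℕ, p.Prime → ∀ (G : Type) [Group G] [Finite G], InVar W G → IsPGroup p G →
    ∀ a b : G, a * b = b * a) : IsPrimitive W := by
  obtain ⟨n, s, hn, hs, hcop, hlaw⟩ := hex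
  have hs0 : s ≠ 0 := hs.ne_zero
  have hlf := locFinite_of_exp hsol (mul_ne_zero hn hs0) (fun G _ hG g => (hlaw G hG g g).1)
  refine suff hlf ⟨hab, ?_⟩
  intro p hp hV G _ _ hG
  have hpf : Fact p.Prime := ⟨hp⟩
  -- `p` does not divide `s`
  have h1 : p ^ 2 ∣ n * s := by
    have h2 := (hlaw _ hV (Multiplicative.ofAdd (1 : ZMod (p ^ 2))) 1).1
    have h3 : ((n * s : ℕ) : ZMod (p ^ 2)) = 0 := by
      have h4 : (n * s) • (1 : ZMod (p ^ 2)) = 0 := h2
      rwa [nsmul_eq_mul, mul_one] at h4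
    rwa [ZMod.natCast_eq_zero_iff] at h3
  have h2 : ¬ p ∣ s := by
    intro hps
    have h3 : (p ^ 2).Coprime n := by
      refine Nat.Coprime.pow_left 2 ?_
      exact Nat.Coprime.coprime_dvd_left hps hcop.symm
    have h4 : p ^ 2 ∣ s := h3.dvd_of_dvd_mul_left h1
    rw [Nat.squarefree_iff_prime_squarefree] at hs
    exact hs p hp (by rw [← pow_two]; exact h4)
  have hcp : ∀ (T : Type) [Group T], InVar W T → CommP p T := by
    intro T _ hT x y m k hx hy
    have hroot : ∀ (z : T) (l : ℕ), z ^ (p ^ l) = 1 → ∃ w : T, w ^ s = z := by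
      intro z l hz
      have hc : s.Coprime (p ^ l) := ((Nat.Prime.coprime_iff_not_dvd hp).2 h2).symm.pow_right l
      refine ⟨z ^ (Nat.gcdA s (p ^ l)), ?_⟩
      have e1 : z ^ ((s : ℤ) * Nat.gcdA s (p ^ l) + ((p ^ l : ℕ) : ℤ) * Nat.gcdB s (p ^ l)) = z := by
        rw [← Nat.gcd_eq_gcd_ab, hc.gcd_eq_one, Nat.cast_one, zpow_one]
      rw [zpow_add, zpow_mul z ((p ^ l : ℕ) : ℤ), zpow_natCast z (p ^ l), hz, one_zpow,
        mul_one] at e1
      rw [← zpow_natCast, ← zpow_mul, mul_comm]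
      exact e1
    obtain ⟨u, rfl⟩ := hroot x m hx
    obtain ⟨v, rfl⟩ := hroot y k hy
    exact (hlaw T hT u v).2
  have habG : AbSyl p G := (hcp G hG).abSyl
  refine splits_of_monolithic habG (fun L _ hLm hLn => ?_)
  exact noIdx_of_commP (hcp _ (hG.of_surj (QuotientGroup.mk' L)
    (QuotientGroup.mk'_surjective L))) hLm hLn

end Pool.Agent.Work.MP_6f5fa7_al
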