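import Mathlib

/-!
A fusion lemma: if the Sylow `s`-subgroups of a finite group are abelian and every `s`-element
centralises each `q`-subgroup (`q` a prime different from `s`) which it normalises, then an element
of a Sylow `s`-subgroup `P` which is central in the normaliser of `P` is central in the group.
-/

open Subgroup

open scoped IsMulCommutative

namespace Pool.Agent.Work.MP_6f5fa7_al.Star

universe u

/-- Every `s`-subgroup is abelian. -/
def AbP (s : ℕ) (G : Type u) [Group G] : Prop :=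
  ∀ S : Subgroup G, IsPGroup s S → ∀ x ∈ S, ∀ y ∈ S, x * y = y * x

/-- Every `s`-element centralises each `q`-subgroup (`q` a prime different from `s`) which it
normalises. -/
def Cen (s : ℕ) (G : Type u) [Group G] : Prop :=
  ∀ q : ℕ, q.Prime → q ≠ s → ∀ Q : Subgroup G, IsPGroup q Q → ∀ z : G,
    (∃ k : ℕ, z ^ s ^ k = 1) → (∀ y ∈ Q, z * y * z⁻¹ ∈ Q) → ∀ y ∈ Q, z * y = y * z

theorem AbP.sub {s : ℕ} {G : Type u} [Group G] (h : AbP s G) (L : Subgroup G) : AbP s L := by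
  intro S hS x hx y hy
  have h1 := h (S.map L.subtype) (hS.map _) x ⟨x, hx, rfl⟩ y ⟨y, hy, rfl⟩
  exact Subtype.ext h1

theorem Cen.sub {s : ℕ} {G : Type u} [Group G] (h : Cen s G) (L : Subgroup G) : Cen s L := by
  intro q hq hqs Q hQ z hz hn y hy
  obtain ⟨k, hk⟩ := hz
  have h1 := h q hq hqs (Q.map L.subtype) (hQ.map _) z ⟨k, by exact_mod_cast congrArg Subtype.val hk⟩
    (by
      rintro w ⟨w', hw', rfl⟩
      exact ⟨z * w' * z⁻¹, hn w' hw', by simp⟩) y ⟨y, hy, rfl⟩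
  exact Subtype.ext h1

theorem isPGroup_zpowers {s : ℕ} [Fact s.Prime] {G : Type u} [Group G] {x : G}
    (hx : ∃ k : ℕ, x ^ s ^ k = 1) : IsPGroup s (zpowers x) := by
  obtain ⟨k, hk⟩ := hx
  rintro ⟨y, hy⟩
  obtain ⟨i, rfl⟩ := mem_zpowers_iff.mp hy
  refine ⟨k, ?_⟩
  apply Subtype.ext
  show (x ^ i) ^ s ^ k = 1
  rw [← zpow_natCast, ← zpow_mul, mul_comm, zpow_mul, zpow_natCast, hk, one_zpow]

theorem mem_of_sylow_smul {s : ℕ} [Fact s.Prime] {G : Type u} [Group G] {P : Sylow s G} {g y : G}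
    (hy : y ∈ (g • P : Sylow s G)) : g⁻¹ * y * g ∈ P := by
  have h1 : y ∈ ((g • P : Sylow s G) : Subgroup G) := hy
  rw [Sylow.coe_subgroup_smul, Subgroup.mem_pointwise_smul_iff_inv_smul_mem] at h1
  have h2 : (MulAut.conj g)⁻¹ • y ∈ (P : Subgroup G) := h1
  rw [← map_inv, MulAut.smul_def, MulAut.conj_apply, inv_inv] at h2
  exact h2

theorem exists_conj_mem {s : ℕ} [Fact s.Prime] {G : Type u} [Group G] [Finite G] (P : Sylow s G)
    {z : G} (hz : ∃ k : ℕ, z ^ s ^ k = 1) : ∃ g : G, g⁻¹ * z * g ∈ P := by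
  obtain ⟨P', hP'⟩ := (isPGroup_zpowers hz).exists_le_sylow
  obtain ⟨g, hg⟩ := MulAction.exists_smul_eq G P P'
  refine ⟨g, mem_of_sylow_smul ?_⟩
  rw [hg]
  exact hP' (mem_zpowers z)

theorem star (s : ℕ) [Fact s.Prime] : ∀ n : ℕ, ∀ (G : Type u) [Group G] [Finite G],
    Nat.card G = n → AbP s G → Cen s G → ∀ (P : Sylow s G) (x : G), x ∈ P →
    (∀ g ∈ normalizer (P : Set G), g * x = x * g) → ∀ g : G, g * x = x * g := by
  intro n
  induction n using Nat.strong_induction_on with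
  | _ n ih =>
  intro G _ _ hn hA hC P x hxP hxN
  have hPab : ∀ a ∈ P, ∀ b ∈ P, a * b = b * a := fun a ha b hb =>
    hA P P.isPGroup' a ha b hb
  have hcomm : IsMulCommutative P := ⟨⟨fun a b => Subtype.ext (hPab a a.2 b b.2)⟩⟩
  -- isolated elements
  have iso : ∀ x ∈ P, (∀ g ∈ normalizer (P : Set G), g * x = x * g) →
      ∀ g : G, g⁻¹ * x * g ∈ P → g⁻¹ * x * g = x := by
    intro x hx hxN g hg
    obtain ⟨m, hm, h⟩ := P.conj_eq_normalizer_conj_of_mem x g hx hg
    rw [h, mul_assoc, ← hxN m hm, inv_mul_cancel_left]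
  have hprim : ∀ x ∈ P, ∃ k : ℕ, x ^ s ^ k = 1 := by
    intro x hx
    obtain ⟨k, hk⟩ := P.isPGroup' ⟨x, hx⟩
    exact ⟨k, congrArg Subtype.val hk⟩
  -- elements which are central in the normalizer are central in all proper subgroups
  have hii : ∀ x ∈ P, (∀ g ∈ normalizer (P : Set G), g * x = x * g) →
      ∀ L : Subgroup G, L ≠ ⊤ → x ∈ L → ∀ g ∈ L, g * x = x * g := by
    intro x hx hxN L hL hxL g hg
    have hcard : Nat.card L < n := by
      rw [← hn]
      have h1 := Subgroup.card_mul_index L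
      have h2 : L.index ≠ 1 := fun h => hL (Subgroup.index_eq_one.mp h)
      have h3 : 0 < Nat.card L := Nat.card_pos
      have h4 : L.index ≠ 0 := Subgroup.index_ne_zero_of_finite
      have h5 : 2 ≤ L.index := by omega
      nlinarith
    obtain ⟨k, hk⟩ := hprim x hx
    have hx' : ∃ k : ℕ, (⟨x, hxL⟩ : L) ^ s ^ k = 1 := ⟨k, Subtype.ext hk⟩
    obtain ⟨PL, hPL⟩ := (isPGroup_zpowers hx').exists_le_sylow
    obtain ⟨P', hP'⟩ := (PL.isPGroup'.map L.subtype).exists_le_sylow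
    obtain ⟨g0, hg0⟩ := MulAction.exists_smul_eq G P P'
    have key : ∀ h : G, h * x * h⁻¹ ∈ P' → h * x * h⁻¹ = g0 * x * g0⁻¹ := by
      intro h hh
      rw [← hg0] at hh
      have h1 := mem_of_sylow_smul hh
      have h2 : (h⁻¹ * g0)⁻¹ * x * (h⁻¹ * g0) ∈ P := by
        have : (h⁻¹ * g0)⁻¹ * x * (h⁻¹ * g0) = g0⁻¹ * (h * x * h⁻¹) * g0 := by group
        rw [this]; exact h1
      have h3 := iso x hx hxN _ h2
      have h4 : h * x * h⁻¹ = g0 * ((h⁻¹ * g0)⁻¹ * x * (h⁻¹ * g0)) * g0⁻¹ := by group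
      rw [h4, h3]
    have hxP' : x ∈ P' := hP' ⟨⟨x, hxL⟩, hPL (mem_zpowers _), rfl⟩
    have hx1 : x = g0 * x * g0⁻¹ := by
      have := key 1 (by simpa using hxP')
      simpa using this
    have h5 := ih (Nat.card L) hcard L rfl (hA.sub L) (hC.sub L) PL ⟨x, hxL⟩
      (hPL (mem_zpowers _)) (by
        intro m hm
        have h6 : m * ⟨x, hxL⟩ * m⁻¹ ∈ PL :=
          (mem_normalizer_iff.mp hm ⟨x, hxL⟩).mp (hPL (mem_zpowers _))
        have h7 : (m : G) * x * (m : G)⁻¹ ∈ P' := hP' ⟨_, h6, by simp⟩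
        have h8 := key m h7
        rw [← hx1] at h8
        apply Subtype.ext
        show (m : G) * x = x * m
        exact mul_inv_eq_iff_eq_mul.mp h8) ⟨g, hg⟩
    exact congrArg Subtype.val h5
  by_contra hcon
  push Not at hcon
  obtain ⟨g1, hg1⟩ := hcon
  have hx1 : x ≠ 1 := by
    intro h
    exact hg1 (by rw [h]; simp)
  set C : Subgroup G := centralizer {x} with hCdef
  have hmemC : ∀ g, g ∈ C ↔ g * x = x * g := by
    intro g
    rw [hCdef, mem_centralizer_singleton_iff]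
  have hCtop : C ≠ ⊤ := by
    intro h
    have : g1 ∈ C := by rw [h]; trivial
    exact hg1 ((hmemC g1).mp this)
  have hPC : (P : Subgroup G) ≤ C := fun a ha => (hmemC a).mpr (hPab a ha x hxP)
  -- the transfer
  let τ : G →* P := MonoidHom.transfer (MonoidHom.id P)
  have hτx : τ x ≠ 1 := by
    have hkey : ∀ (k : ℕ) (g₀ : G), g₀⁻¹ * x ^ k * g₀ ∈ (P : Subgroup G) →
        g₀⁻¹ * x ^ k * g₀ = x ^ k := by
      intro k g₀ hk
      refine iso (x ^ k) (pow_mem hxP k) (fun g hg => ?_) g₀ hk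
      exact (Commute.pow_right (hxN g hg) k)
    intro h
    have h1 := MonoidHom.transfer_eq_pow (H := (P : Subgroup G)) (MonoidHom.id P) x hkey
    have h2 : x ^ (P : Subgroup G).index = 1 := by
      have h3 : (MonoidHom.id P) ⟨x ^ (P : Subgroup G).index,
        MonoidHom.transfer_eq_pow_aux x hkey⟩ = 1 := by rw [← h1]; exact h
      exact congrArg Subtype.val h3
    obtain ⟨k, hk⟩ := hprim x hxP
    have hcop : Nat.Coprime (s ^ k) (P : Subgroup G).index :=
      Nat.Coprime.pow_left _ ((Nat.Prime.coprime_iff_not_dvd Fact.out).mpr P.not_dvd_index)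
    have h4 : orderOf x ∣ 1 := by
      rw [← Nat.Coprime.gcd_eq_one hcop]
      exact Nat.dvd_gcd (orderOf_dvd_of_pow_eq_one hk) (orderOf_dvd_of_pow_eq_one h2)
    exact hx1 (orderOf_eq_one_iff.mp (Nat.dvd_one.mp h4))
  set Y : Subgroup G := τ.ker with hY
  have hYtop : Y ≠ ⊤ := by
    intro h
    have : x ∈ Y := by rw [h]; trivial
    exact hτx (MonoidHom.mem_ker.mp this)
  -- the index of `Y` is a power of `s`
  obtain ⟨c, hc⟩ : ∃ c : ℕ, Y.index = s ^ c := by
    have h1 : Y.index = Nat.card τ.range := Subgroup.index_ker τ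
    have h2 : IsPGroup s τ.range := P.isPGroup'.to_subgroup _
    obtain ⟨c, hc⟩ := IsPGroup.iff_card.mp h2
    exact ⟨c, by rw [h1, hc]⟩
  -- the prime `q`
  have hCindex : C.index ≠ 1 := fun h => hCtop (Subgroup.index_eq_one.mp h)
  obtain ⟨q, hq, hqC⟩ := Nat.exists_prime_and_dvd hCindex
  have : Fact q.Prime := ⟨hq⟩
  have hqs : q ≠ s := by
    rintro rfl
    have h1 : C.index ∣ (P : Subgroup G).index := Subgroup.index_dvd_of_le hPC
    exact P.not_dvd_index (hqC.trans h1)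
  obtain ⟨Q⟩ : Nonempty (Sylow q Y) := inferInstance
  set Qm : Subgroup G := (Q : Subgroup Y).map Y.subtype with hQm
  have hfrat : normalizer (Qm : Set G) ⊔ Y = ⊤ := Sylow.normalizer_sup_eq_top Q
  have hQmp : IsPGroup q Qm := Q.isPGroup'.map _
  -- the order of `Qm`
  have hQmind : ¬ q ∣ Qm.index := by
    rw [hQm, Subgroup.index_map_subtype, hc]
    intro hdvd
    rcases hq.dvd_mul.mp hdvd with h | h
    · exact Q.not_dvd_index h
    · exact hqs ((Nat.prime_dvd_prime_iff_eq hq Fact.out).mp (hq.dvd_of_dvd_pow h))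
  -- `s`-elements of the normalizer of `Qm` are central
  have hcentral : ∀ z ∈ normalizer (Qm : Set G), (∃ k : ℕ, z ^ s ^ k = 1) →
      ∀ g : G, g * z = z * g := by
    intro z hz hzs
    by_contra hcon
    push Not at hcon
    obtain ⟨g2, hg2⟩ := hcon
    have hzQ := hC q hq hqs Qm hQmp z hzs (fun y hy => (mem_normalizer_iff.mp hz y).mp hy)
    obtain ⟨g, hg⟩ := exists_conj_mem P hzs
    set y : G := g⁻¹ * z * g with hy
    set L : Subgroup G := centralizer {y} with hL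
    have hmemL : ∀ a, a ∈ L ↔ a * y = y * a := by
      intro a
      rw [hL, mem_centralizer_singleton_iff]
    have hLtop : L ≠ ⊤ := by
      intro h
      have h1 : g⁻¹ * g2 * g ∈ L := by rw [h]; trivial
      rw [hmemL, hy] at h1
      apply hg2
      have h2 : g * (g⁻¹ * g2 * g * (g⁻¹ * z * g)) * g⁻¹ = g2 * z := by group
      have h3 : g * (g⁻¹ * z * g * (g⁻¹ * g2 * g)) * g⁻¹ = z * g2 := by group
      rw [← h2, ← h3, h1]
    have hxL : x ∈ L := (hmemL x).mpr (hPab x hxP y hg)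
    have hLC : L ≤ C := fun a ha => (hmemC a).mpr (hii x hxP hxN L hLtop hxL a ha)
    -- a conjugate of `Qm` lies in `C`
    have hconj : Qm.map (MulAut.conj g⁻¹).toMonoidHom ≤ C := by
      rintro _ ⟨w, hw, rfl⟩
      apply hLC
      rw [hmemL]
      simp only [MulEquiv.coe_toMonoidHom, MulAut.conj_apply, inv_inv, hy]
      have h1 := hzQ w hw
      have h2 : g⁻¹ * w * g * (g⁻¹ * z * g) = g⁻¹ * (w * z) * g := by group
      have h3 : g⁻¹ * z * g * (g⁻¹ * w * g) = g⁻¹ * (z * w) * g := by group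
      rw [h2, h3, h1]
    have h4 : (Qm.map (MulAut.conj g⁻¹).toMonoidHom).index = Qm.index := by
      have := Subgroup.index_map_equiv Qm (MulAut.conj g⁻¹)
      exact this
    have h5 : C.index ∣ Qm.index := h4 ▸ Subgroup.index_dvd_of_le hconj
    exact hQmind (hqC.trans h5)
  -- decomposition modulo `Y`
  have hdec : ∀ g : G, ∃ z : G, (∀ h, h * z = z * h) ∧ (∃ k : ℕ, z ^ s ^ k = 1) ∧
      z⁻¹ * g ∈ Y := by
    intro g
    have hg : g ∈ normalizer (Qm : Set G) ⊔ Y := by rw [hfrat]; trivial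
    rw [← SetLike.mem_coe, Subgroup.mul_normal] at hg
    obtain ⟨m, hm, y, hy, rfl⟩ := hg
    have hm' : m ∈ normalizer (Qm : Set G) := hm
    have hy' : y ∈ Y := hy
    obtain ⟨a, b, hb, hab⟩ := Nat.exists_eq_pow_mul_and_not_dvd
      (orderOf_pos m).ne' s (Fact.out : s.Prime).ne_one
    have hcop : Nat.Coprime b (s ^ c) :=
      (Nat.Coprime.pow_left _ ((Nat.Prime.coprime_iff_not_dvd Fact.out).mpr hb)).symm
    obtain ⟨u, v, huv⟩ := Nat.isCoprime_iff_coprime.mpr hcop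
    have hzs : (m ^ ((b : ℤ) * u)) ^ s ^ a = 1 := by
      rw [← zpow_natCast, ← zpow_mul]
      have h1 : (b : ℤ) * u * ((s ^ a : ℕ) : ℤ) = (orderOf m : ℤ) * u := by
        rw [hab]; push_cast; ring
      rw [h1, zpow_mul, zpow_natCast, pow_orderOf_eq_one, one_zpow]
    refine ⟨m ^ ((b : ℤ) * u), hcentral _ (zpow_mem hm' _) ⟨a, hzs⟩, ⟨a, hzs⟩, ?_⟩
    have h1 : (m ^ ((b : ℤ) * u))⁻¹ * (m * y) = (m ^ s ^ c) ^ v * y := by
      rw [← mul_assoc]
      congr 1
      rw [← zpow_neg, ← zpow_add_one, ← zpow_natCast m (s ^ c), ← zpow_mul]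
      congr 1
      push_cast at huv ⊢
      linear_combination -huv
    rw [h1]
    refine mul_mem (zpow_mem ?_ _) hy'
    rw [← hc]
    exact Y.pow_index_mem m
  obtain ⟨z0, hz0c, hz0s, hz0Y⟩ := hdec x
  have hz0P : z0 ∈ P := by
    obtain ⟨g, hg⟩ := exists_conj_mem P hz0s
    rw [mul_assoc, ← hz0c g, inv_mul_cancel_left] at hg
    exact hg
  have hyP : z0⁻¹ * x ∈ P := mul_mem (inv_mem hz0P) hxP
  have hyN : ∀ g ∈ normalizer (P : Set G), g * (z0⁻¹ * x) = z0⁻¹ * x * g := by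
    intro g hg
    have h1 : Commute g z0⁻¹ := (show Commute g z0 from hz0c g).inv_right
    exact h1.mul_right (hxN g hg)
  have hyY := hii _ hyP hyN Y hYtop hz0Y
  apply hg1
  obtain ⟨z1, hz1c, -, hz1Y⟩ := hdec g1
  have h1 : Commute (z1⁻¹ * g1) (z0⁻¹ * x) := hyY _ hz1Y
  have h2 : Commute z1 (z0⁻¹ * x) := (show Commute (z0⁻¹ * x) z1 from hz1c _).symm
  have h3 : Commute g1 (z0⁻¹ * x) := by
    have := h2.mul_left h1
    simpa using this
  have h4 : Commute g1 z0 := hz0c g1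
  have h5 := h4.mul_right h3
  rw [mul_inv_cancel_left] at h5
  exact h5

end Pool.Agent.Work.MP_6f5fa7_al.Star
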