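import Pool.Agent.Work.MP_6f5fa7_al.Defs

/-!
# Finite groups with abelian Sylow `p`-subgroups
-/

set_option autoImplicit false
set_option linter.unusedSectionVars false

namespace Pool.Agent.Work.MP_6f5fa7_al

open Subgroup

/-- all `p`-subgroups are abelian -/
def AbSyl (p : ℕ) (G : Type*) [Group G] : Prop :=
  ∀ H : Subgroup G, IsPGroup p H → ∀ a ∈ H, ∀ b ∈ H, a * b = b * a

/-- no normal subgroup of index `p` -/
def NoIdx (p : ℕ) (G : Type*) [Group G] : Prop :=
  ∀ M : Subgroup G, M.Normal → M.index ≠ p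

/-- a group with a unique minimal normal subgroup -/
def Monolithic (G : Type*) [Group G] : Prop :=
  ∃ h : G, h ≠ 1 ∧ ∀ N : Subgroup G, N.Normal → N ≠ ⊥ → h ∈ N

section basics

variable {G : Type*} [Group G] {p : ℕ} [hp : Fact p.Prime]

lemma exists_pow_coprime [Finite G] (g : G) : ∃ n, (orderOf (g ^ (p ^ n))).Coprime p := by
  obtain ⟨n, m, hm, h⟩ := Nat.exists_eq_pow_mul_and_not_dvd (orderOf_pos g).ne' p hp.1.ne_one
  refine ⟨n, ?_⟩
  rw [orderOf_pow, h]
  have h1 : Nat.gcd (p ^ n * m) (p ^ n) = p ^ n := by simp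
  rw [h1, Nat.mul_div_cancel_left _ (pow_pos hp.1.pos n)]
  exact (hp.1.coprime_iff_not_dvd.2 hm).symm

lemma eq_one_of_coprime_of_pow {g : G} (h : (orderOf g).Coprime p) {n : ℕ}
    (hn : g ^ (p ^ n) = 1) : g = 1 := by
  rw [← orderOf_eq_one_iff]
  exact Nat.eq_one_of_dvd_coprimes (h.pow_right n) dvd_rfl (orderOf_dvd_of_pow_eq_one hn)

/-- a nontrivial abelian finite `p`-group has a subgroup of index `p` -/
lemma exists_index_p [Finite G] [Nontrivial G] (hG : IsPGroup p G)
    (hc : ∀ a b : G, a * b = b * a) : ∃ M : Subgroup G, M.Normal ∧ M.index = p := by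
  obtain ⟨n, hn⟩ := IsPGroup.iff_card.1 hG
  have hn0 : n ≠ 0 := by
    rintro rfl
    rw [pow_zero] at hn
    exact (Finite.one_lt_card (α := G)).ne' hn
  obtain ⟨m, rfl⟩ := Nat.exists_eq_succ_of_ne_zero hn0
  obtain ⟨K, hK⟩ := Sylow.exists_subgroup_card_pow_prime p
    (show p ^ m ∣ Nat.card G from hn ▸ pow_dvd_pow p (Nat.le_succ m))
  refine ⟨K, ⟨fun a ha g => by rw [hc g a, mul_inv_cancel_right]; exact ha⟩, ?_⟩
  have h1 := K.card_mul_index
  rw [hK, hn, pow_succ] at h1
  exact Nat.eq_of_mul_eq_mul_left (pow_pos hp.1.pos m) h1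

lemma noIdx_of_surj {H : Type*} [Group H] (h : NoIdx p G) (f : G →* H)
    (hf : Function.Surjective f) : NoIdx p H := by
  intro M hM hidx
  apply h (M.comap f) inferInstance
  rw [index_comap_of_surjective _ hf, hidx]

lemma comm_mem_of_index [Finite G] {M : Subgroup G} [M.Normal] (hM : M.index = p) (a b : G) :
    a * b * a⁻¹ * b⁻¹ ∈ M := by
  have hcard : Nat.card (G ⧸ M) = p := hM
  have hcyc : IsCyclic (G ⧸ M) := isCyclic_of_prime_card hcard
  rw [← QuotientGroup.eq_one_iff]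
  have : (a : G ⧸ M) * b = b * a := (IsCyclic.commGroup (α := G ⧸ M)).mul_comm _ _
  show (a : G ⧸ M) * b * (a : G ⧸ M)⁻¹ * (b : G ⧸ M)⁻¹ = 1
  rw [this]; group

lemma pow_mem_of_index [Finite G] {M : Subgroup G} [M.Normal] (hM : M.index = p) (a : G) :
    a ^ p ∈ M := by
  rw [← hM]
  exact Subgroup.pow_index_mem M a

lemma AbSyl.of_surj [Finite G] {H : Type*} [Group H] (h : AbSyl p G) (f : G →* H)
    (hf : Function.Surjective f) : AbSyl p H := by
  intro Q hQ
  have : Finite H := Finite.of_surjective f hf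
  obtain ⟨S, hS⟩ := hQ.exists_le_sylow
  obtain ⟨g, hg⟩ := MulAction.exists_smul_eq H (Sylow.mapSurjective hf (default : Sylow p G)) S
  have key : ∀ a ∈ Q, ∃ x ∈ (default : Sylow p G), a = g * f x * g⁻¹ := by
    intro a ha
    have h1 : a ∈ S := hS ha
    rw [← hg] at h1
    have h2 : a ∈ (g • (Sylow.mapSurjective hf (default : Sylow p G)) : Sylow p H).1 := h1
    rw [Sylow.coe_subgroup_smul] at h2
    obtain ⟨y, hy, rfl⟩ := h2
    obtain ⟨x, hx, rfl⟩ := hy
    exact ⟨x, hx, rfl⟩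
  intro a ha b hb
  obtain ⟨x, hx, rfl⟩ := key a ha
  obtain ⟨y, hy, rfl⟩ := key b hb
  have h3 := congrArg f (h _ (default : Sylow p G).isPGroup' x hx y hy)
  rw [map_mul, map_mul] at h3
  calc g * f x * g⁻¹ * (g * f y * g⁻¹) = g * (f x * f y) * g⁻¹ := by group
    _ = g * (f y * f x) * g⁻¹ := by rw [h3]
    _ = _ := by group

lemma AbSyl.of_inj {H : Type*} [Group H] (h : AbSyl p G) (f : H →* G)
    (hf : Function.Injective f) : AbSyl p H := by
  intro Q hQ a ha b hb
  apply hf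
  rw [map_mul, map_mul]
  exact h (Q.map f) (hQ.map f) _ (Subgroup.mem_map_of_mem f ha) _ (Subgroup.mem_map_of_mem f hb)

lemma AbSyl.comm_of_isPGroup (h : AbSyl p G) (hG : IsPGroup p G) (a b : G) : a * b = b * a :=
  h ⊤ (hG.to_subgroup ⊤) a (Subgroup.mem_top a) b (Subgroup.mem_top b)

/-- **T1**: with abelian Sylow `p`-subgroups and no normal subgroup of index `p`, there is no
central element of order `p`. -/
theorem T1 [Finite G] (hab : AbSyl p G) (hidx : NoIdx p G) {z : G} (hz : ∀ x, z * x = x * z)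
    (hzp : z ^ p = 1) : z = 1 := by
  by_contra hz1
  have hzpg : IsPGroup p (zpowers z) := by
    rintro ⟨y, hy⟩
    obtain ⟨k, rfl⟩ := Subgroup.mem_zpowers_iff.1 hy
    refine ⟨1, Subtype.ext ?_⟩
    show (z ^ k) ^ (p ^ 1) = 1
    rw [pow_one, ← zpow_natCast, ← zpow_mul, mul_comm, zpow_mul, zpow_natCast, hzp, one_zpow]
  obtain ⟨P, hP⟩ := hzpg.exists_le_sylow
  let cg : CommGroup P := { (inferInstance : Group P) with
    mul_comm := fun a b => Subtype.ext (hab _ P.isPGroup' _ a.2 _ b.2) }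
  let V : G →* P := MonoidHom.transfer (MonoidHom.id P)
  have key : ∀ (k : ℕ) (g₀ : G), g₀⁻¹ * z ^ k * g₀ ∈ (P : Subgroup G) →
      g₀⁻¹ * z ^ k * g₀ = z ^ k := by
    intro k g₀ _
    have h1 : Commute z g₀ := hz g₀
    have h2 := (h1.pow_left k).eq
    rw [mul_assoc, h2]; group
  have hV : (V z : G) = z ^ (P : Subgroup G).index := by
    have := MonoidHom.transfer_eq_pow (ϕ := MonoidHom.id P) z key
    exact congrArg Subtype.val this
  have hcop : (orderOf z).Coprime (P : Subgroup G).index := by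
    rw [orderOf_eq_prime hzp hz1, hp.1.coprime_iff_not_dvd]
    exact P.not_dvd_index
  have hVne : V z ≠ 1 := by
    intro h
    rw [h] at hV
    apply hz1
    rw [← orderOf_eq_one_iff]
    exact Nat.eq_one_of_dvd_coprimes hcop dvd_rfl (orderOf_dvd_of_pow_eq_one hV.symm)
  have hR : IsPGroup p V.range := (P.isPGroup').to_subgroup V.range
  have : Nontrivial V.range := ⟨⟨⟨V z, z, rfl⟩, 1, fun h => hVne (congrArg Subtype.val h)⟩⟩
  obtain ⟨M, hM1, hM2⟩ := exists_index_p hR (fun a b => Subtype.ext (mul_comm a.1 b.1))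
  exact noIdx_of_surj hidx V.rangeRestrict V.rangeRestrict_surjective M hM1 hM2

/-- **T1'**: no nontrivial central `p`-element. -/
theorem T1' [Finite G] (hab : AbSyl p G) (hidx : NoIdx p G) {z : G} (hz : ∀ x, z * x = x * z)
    {n : ℕ} (hzp : z ^ (p ^ n) = 1) : z = 1 := by
  induction n with
  | zero => simpa using hzp
  | succ n ih =>
    apply ih
    refine T1 hab hidx (fun x => ?_) ?_
    · have h : Commute z x := hz x
      exact (h.pow_left _).eq
    rw [← pow_mul, ← pow_succ, hzp]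

/-- **T2** -/
theorem T2 [Finite G] (hab : AbSyl p G) (L1 L2 M : Subgroup G) [hL1 : L1.Normal]
    [hL2 : L2.Normal] [hMn : M.Normal] (hM : M.index = p) (h : L1 ⊓ L2 ≤ M) (h1 : ¬ L1 ≤ M) :
    ∃ M2 : Subgroup G, M2.Normal ∧ M2.index = p ∧ L2 ≤ M2 := by
  by_contra hcon
  push Not at hcon
  let D : Subgroup G := L2 ⊔ (L1 ⊓ M)
  have hD : D.Normal := inferInstance
  have hno : NoIdx p (G ⧸ D) := by
    intro M' hM' hidx
    refine hcon (M'.comap (QuotientGroup.mk' D)) inferInstance ?_ ?_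
    · rw [index_comap_of_surjective _ (QuotientGroup.mk'_surjective D), hidx]
    · refine le_trans (le_sup_left : L2 ≤ D) ?_
      intro x hx
      have : (QuotientGroup.mk' D) x = 1 := (QuotientGroup.eq_one_iff x).2 hx
      show (QuotientGroup.mk' D) x ∈ M'
      rw [this]; exact M'.one_mem
  obtain ⟨y, hy1, hy2⟩ := Set.not_subset.1 h1
  have habD : AbSyl p (G ⧸ D) := hab.of_surj (QuotientGroup.mk' D) (QuotientGroup.mk'_surjective D)
  have hcen : ∀ x : G ⧸ D, (y : G ⧸ D) * x = x * (y : G ⧸ D) := by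
    intro x
    obtain ⟨g, rfl⟩ := QuotientGroup.mk_surjective x
    have h2 : y * g * y⁻¹ * g⁻¹ ∈ D := by
      apply (le_sup_right : L1 ⊓ M ≤ D)
      refine ⟨?_, comm_mem_of_index hM y g⟩
      have h3 : y * g * y⁻¹ * g⁻¹ = y * (g * y⁻¹ * g⁻¹) := by group
      rw [h3]
      exact L1.mul_mem hy1 (hL1.conj_mem _ (L1.inv_mem hy1) g)
    have h4 := (QuotientGroup.eq_one_iff _).2 h2
    have h5 : (y : G ⧸ D) * g * (y : G ⧸ D)⁻¹ * (g : G ⧸ D)⁻¹ = 1 := h4
    rw [mul_inv_eq_one] at h5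
    rw [mul_inv_eq_iff_eq_mul] at h5
    exact h5
  have hyp : (y : G ⧸ D) ^ p = 1 := by
    have : y ^ p ∈ D := (le_sup_right : L1 ⊓ M ≤ D) ⟨L1.pow_mem hy1 p, pow_mem_of_index hM y⟩
    exact (QuotientGroup.eq_one_iff _).2 this
  have hy3 : y ∈ D := (QuotientGroup.eq_one_iff _).1 (T1 habD hno hcen hyp)
  have hy4 : y ∈ (↑(L2 ⊔ (L1 ⊓ M)) : Set G) := hy3
  rw [Subgroup.mul_normal] at hy4
  obtain ⟨l, hl, m, hm, rfl⟩ := hy4
  apply hy2
  have hl1 : l ∈ L1 := by
    have := L1.mul_mem hy1 (L1.inv_mem hm.1)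
    simpa using this
  exact M.mul_mem (h ⟨hl1, hl⟩) hm.2

/-- projection onto a factor of an internal direct product -/
lemma exists_proj (A X : Subgroup G) [hA : A.Normal] [hX : X.Normal] (h1 : A ⊓ X = ⊥)
    (h2 : A ⊔ X = ⊤) : ∃ f : G →* G, (∀ g, f g ∈ X) ∧ (∀ x ∈ X, f x = x) ∧
      (∀ a ∈ A, f a = 1) ∧ ∀ g, g * (f g)⁻¹ ∈ A := by
  classical
  have hcomm : ∀ a ∈ A, ∀ x ∈ X, a * x = x * a := fun a ha x hx =>
    Subgroup.commute_of_normal_of_disjoint A X hA hX (disjoint_iff.2 h1) a x ha hx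
  have hex : ∀ g : G, ∃ x ∈ X, g * x⁻¹ ∈ A := by
    intro g
    have hg : g ∈ (↑(A ⊔ X) : Set G) := by rw [h2]; trivial
    rw [Subgroup.mul_normal] at hg
    obtain ⟨a, ha, x, hx, rfl⟩ := hg
    exact ⟨x, hx, by simpa using ha⟩
  choose f hf1 hf2 using hex
  have huniq : ∀ g x, x ∈ X → g * x⁻¹ ∈ A → f g = x := by
    intro g x hx hgx
    have h3 : (f g) * x⁻¹ ∈ A ⊓ X := by
      refine ⟨?_, X.mul_mem (hf1 g) (X.inv_mem hx)⟩
      have := A.mul_mem (A.inv_mem (hf2 g)) hgx
      have h4 : (g * (f g)⁻¹)⁻¹ * (g * x⁻¹) = f g * x⁻¹ := by group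
      rwa [h4] at this
    rw [h1, Subgroup.mem_bot, mul_inv_eq_one] at h3
    exact h3
  refine ⟨MonoidHom.mk' f ?_, hf1, ?_, ?_, hf2⟩
  · intro a b
    apply huniq _ _ (X.mul_mem (hf1 a) (hf1 b))
    have h3 := hcomm _ (hf2 b) _ (hf1 a)
    have h4 : a * b * (f a * f b)⁻¹ = (a * (f a)⁻¹) * (f a * (b * (f b)⁻¹) * (f a)⁻¹) := by group
    rw [h4, ← h3, mul_assoc (b * (f b)⁻¹), mul_inv_cancel, mul_one]
    exact A.mul_mem (hf2 a) (hf2 b)
  · intro x hx
    apply huniq _ _ hx
    rw [mul_inv_cancel]; exact A.one_mem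
  · intro a ha
    apply huniq _ _ X.one_mem
    simpa using ha

/-- the closure of a conjugation invariant set is normal -/
lemma closure_normal_of_conj {S : Set G} (h : ∀ s ∈ S, ∀ g : G, g * s * g⁻¹ ∈ S) :
    (closure S).Normal := by
  constructor
  intro n hn g
  induction hn using Subgroup.closure_induction with
  | mem x hx => exact subset_closure (h x hx g)
  | one => simp
  | mul x y _ _ hx hy =>
    have : g * (x * y) * g⁻¹ = (g * x * g⁻¹) * (g * y * g⁻¹) := by group
    rw [this]; exact mul_mem hx hy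
  | inv x _ hx =>
    have : g * x⁻¹ * g⁻¹ = (g * x * g⁻¹)⁻¹ := by group
    rw [this]; exact inv_mem hx

/-- the subgroup generated by the `p'`-elements -/
def Opp (p : ℕ) (G : Type*) [Group G] : Subgroup G := closure {g : G | (orderOf g).Coprime p}

lemma orderOf_conj' (g x : G) : orderOf (g * x * g⁻¹) = orderOf x := by
  have := orderOf_injective (MulAut.conj g).toMonoidHom (MulAut.conj g).injective x
  simpa using this

instance Opp_normal : (Opp p G).Normal := by
  apply closure_normal_of_conj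
  intro s hs g
  show (orderOf (g * s * g⁻¹)).Coprime p
  rw [orderOf_conj']; exact hs

lemma Opp_le_of_isPGroup [Finite G] (T : Subgroup G) [T.Normal] (h : IsPGroup p (G ⧸ T)) :
    Opp p G ≤ T := by
  rw [Opp, closure_le]
  intro g hg
  obtain ⟨n, hn⟩ := h (g : G ⧸ T)
  have h1 : (orderOf (g : G ⧸ T)).Coprime p :=
    Nat.Coprime.coprime_dvd_left (orderOf_map_dvd (QuotientGroup.mk' T) g) hg
  exact (QuotientGroup.eq_one_iff _).1 (eq_one_of_coprime_of_pow h1 hn)

lemma isPGroup_quot [Finite G] (T : Subgroup G) [T.Normal] (h : Opp p G ≤ T) :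
    IsPGroup p (G ⧸ T) := by
  intro x
  obtain ⟨g, rfl⟩ := QuotientGroup.mk_surjective x
  obtain ⟨n, hn⟩ := exists_pow_coprime (p := p) g
  refine ⟨n, ?_⟩
  show ((g ^ p ^ n : G) : G ⧸ T) = 1
  rw [QuotientGroup.eq_one_iff]
  exact h (subset_closure hn)

/-- **Decomposition.** If no nonabelian monolithic quotient of `G` has a normal subgroup of index
`p`, then `G` splits. -/
theorem splits_of_monolithic {G : Type} [Group G] [Finite G] (hab : AbSyl p G)
    (hmono : ∀ (L : Subgroup G) [L.Normal], Monolithic (G ⧸ L) →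
      (¬ ∀ a b : G ⧸ L, a * b = b * a) → NoIdx p (G ⧸ L)) : SplitsAt p G := by
  classical
  let Ys : Set (Subgroup G) :=
    {L | L.Normal ∧ ∀ M : Subgroup G, M.Normal → M.index = p → ¬ L ≤ M}
  have hYfin : Ys.Finite := Set.toFinite _
  have htop : (⊤ : Subgroup G) ∈ Ys := by
    refine ⟨inferInstance, fun M _ hidx hle => ?_⟩
    rw [top_le_iff.1 hle, index_top] at hidx
    exact hp.1.one_lt.ne hidx
  obtain ⟨Y, hY, hYmin⟩ := hYfin.exists_minimalFor (fun L : Subgroup G => Nat.card L) Ys ⟨_, htop⟩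
  have hYn : Y.Normal := hY.1
  have hYle : ∀ L ∈ Ys, Y ≤ L := by
    intro L hL
    have hLn : L.Normal := hL.1
    have h1 : Y ⊓ L ∈ Ys := by
      refine ⟨inferInstance, fun M hM hidx hle => ?_⟩
      obtain ⟨M2, h2, h3, h4⟩ := T2 hab Y L M hidx hle (hY.2 M hM hidx)
      exact hL.2 M2 h2 h3 h4
    have h2 : Nat.card (Y ⊓ L : Subgroup G) ≤ Nat.card Y :=
      Subgroup.card_le_of_le inf_le_left
    have h3 := hYmin h1 h2
    have h4 : Y ⊓ L = Y := Subgroup.eq_of_le_of_card_ge inf_le_left h3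
    exact inf_eq_left.1 h4
  -- the subgroup generated by the `p'`-elements
  let X : Subgroup G := Opp p G
  have hXn : X.Normal := inferInstance
  have hYX : Y ⊓ X = ⊥ := by
    by_contra hne
    obtain ⟨⟨g, hg⟩, hg0⟩ := (Subgroup.ne_bot_iff_exists_ne_one).1 hne
    have hg1 : g ≠ 1 := fun h => hg0 (Subtype.ext h)
    -- a maximal normal subgroup avoiding `g`
    let Ls : Set (Subgroup G) := {L | L.Normal ∧ g ∉ L}
    obtain ⟨L, hL, hLmax⟩ := (Set.toFinite Ls).exists_maximalFor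
      (fun L : Subgroup G => Nat.card L) Ls ⟨⊥, inferInstance, fun h => hg1 (Subgroup.mem_bot.1 h)⟩
    have hLn : L.Normal := hL.1
    have hgL : g ∉ L := hL.2
    have hmon : ∀ N : Subgroup (G ⧸ L), N.Normal → N ≠ ⊥ → (g : G ⧸ L) ∈ N := by
      intro N hN hNne
      by_contra hgN
      have h1 : N.comap (QuotientGroup.mk' L) ∈ Ls := ⟨inferInstance, hgN⟩
      have h2 : L ≤ N.comap (QuotientGroup.mk' L) := by
        intro x hx
        have : (QuotientGroup.mk' L) x = 1 := (QuotientGroup.eq_one_iff x).2 hx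
        show (QuotientGroup.mk' L) x ∈ N
        rw [this]; exact N.one_mem
      have h3 := hLmax h1 (Subgroup.card_le_of_le h2)
      have h4 := Subgroup.eq_of_le_of_card_ge h2 h3
      apply hNne
      rw [eq_bot_iff]
      intro x hx
      obtain ⟨y, rfl⟩ := QuotientGroup.mk_surjective x
      have h5 : y ∈ L := by rw [h4]; exact hx
      exact Subgroup.mem_bot.2 ((QuotientGroup.eq_one_iff y).2 h5)
    have hg2 : (g : G ⧸ L) ≠ 1 := fun h => hgL ((QuotientGroup.eq_one_iff g).1 h)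
    have hLY : L ∉ Ys := fun h => hgL (hYle L h hg.1)
    have hMex : ∃ M : Subgroup G, M.Normal ∧ M.index = p ∧ L ≤ M := by
      by_contra hno
      push Not at hno
      exact hLY ⟨hLn, hno⟩
    obtain ⟨M, hMn, hMidx, hLM⟩ := hMex
    have hcomm : ∀ a b : G ⧸ L, a * b = b * a := by
      by_contra hnc
      refine hmono L ⟨_, hg2, hmon⟩ hnc (M.map (QuotientGroup.mk' L))
        (Subgroup.Normal.map hMn _ (QuotientGroup.mk'_surjective L)) ?_
      rw [Subgroup.index_map_eq M (QuotientGroup.mk'_surjective L) (by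
        rw [QuotientGroup.ker_mk']; exact hLM), hMidx]
    have hnorm : ∀ N : Subgroup (G ⧸ L), N.Normal := fun N =>
      ⟨fun a ha b => by rw [hcomm b a, mul_inv_cancel_right]; exact ha⟩
    -- an element of order `p`
    have hdvd : p ∣ Nat.card (G ⧸ L) := by
      show p ∣ L.index
      rw [← hMidx]
      exact Subgroup.index_dvd_of_le hLM
    obtain ⟨c, hc⟩ := exists_prime_orderOf_dvd_card' p hdvd
    have hgc : (g : G ⧸ L) ∈ zpowers c := by
      apply hmon _ (hnorm _)
      intro h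
      rw [Subgroup.zpowers_eq_bot] at h
      rw [h, orderOf_one] at hc
      exact hp.1.one_lt.ne hc
    have hgord : orderOf (g : G ⧸ L) ∣ p := by
      rw [← hc]
      exact orderOf_dvd_of_mem_zpowers hgc
    have hXL : X ≤ L := by
      show Opp p G ≤ L
      rw [Opp, closure_le]
      intro b hb
      by_contra hbL
      have hbo : (orderOf (b : G ⧸ L)).Coprime p :=
        Nat.Coprime.coprime_dvd_left (orderOf_map_dvd (QuotientGroup.mk' L) b) hb
      have hgb : (g : G ⧸ L) ∈ zpowers (b : G ⧸ L) := by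
        apply hmon _ (hnorm _)
        intro h
        rw [Subgroup.zpowers_eq_bot] at h
        exact hbL ((QuotientGroup.eq_one_iff b).1 h)
      apply hg2
      rw [← orderOf_eq_one_iff]
      exact Nat.eq_one_of_dvd_coprimes hbo (orderOf_dvd_of_mem_zpowers hgb) hgord
    exact hgL (hXL hg.2)
  have hYXtop : Y ⊔ X = ⊤ := by
    by_contra hne
    have hTn : (Y ⊔ X).Normal := inferInstance
    have hpg : IsPGroup p (G ⧸ (Y ⊔ X)) := isPGroup_quot _ le_sup_right
    have : Nontrivial (G ⧸ (Y ⊔ X)) := QuotientGroup.nontrivial_iff.2 hne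
    obtain ⟨M, hM1, hM2⟩ := exists_index_p hpg (AbSyl.comm_of_isPGroup
      (hab.of_surj (QuotientGroup.mk' _) (QuotientGroup.mk'_surjective _)) hpg)
    refine hY.2 (M.comap (QuotientGroup.mk' (Y ⊔ X))) inferInstance ?_ ?_
    · rw [index_comap_of_surjective _ (QuotientGroup.mk'_surjective _), hM2]
    · refine le_trans (le_sup_left : Y ≤ Y ⊔ X) ?_
      intro x hx
      have : (QuotientGroup.mk' (Y ⊔ X)) x = 1 := (QuotientGroup.eq_one_iff x).2 hx
      show (QuotientGroup.mk' (Y ⊔ X)) x ∈ M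
      rw [this]; exact M.one_mem
  have hYp : IsPGroup p Y := by
    rintro ⟨y, hy⟩
    obtain ⟨n, hn⟩ := exists_pow_coprime (p := p) y
    refine ⟨n, Subtype.ext ?_⟩
    have h1 : y ^ p ^ n ∈ Y ⊓ X := ⟨Y.pow_mem hy _, subset_closure hn⟩
    rw [hYX] at h1
    exact Subgroup.mem_bot.1 h1
  refine ⟨Y, X, hYn, hXn, hYX, hYXtop, hYp, hab Y hYp, ?_⟩
  intro M0 hM0 hidx
  obtain ⟨f, hf1, hf2, hf3, hf4⟩ := exists_proj Y X hYX hYXtop
  let f' : G →* X := f.codRestrict X hf1
  have hf' : Function.Surjective f' := fun x => ⟨x, Subtype.ext (hf2 x x.2)⟩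
  refine hY.2 (M0.comap f') inferInstance ?_ ?_
  · rw [index_comap_of_surjective _ hf', hidx]
  · intro y hy
    have : f' y = 1 := Subtype.ext (hf3 y hy)
    show f' y ∈ M0
    rw [this]; exact M0.one_mem

/-- In a split group, the factor without normal subgroup of index `p` is generated by the
`p'`-elements. -/
lemma split_X_eq [Finite G] (hab : AbSyl p G) {A X : Subgroup G} [hA : A.Normal] [hX : X.Normal]
    (h1 : A ⊓ X = ⊥) (h2 : A ⊔ X = ⊤) (hAp : IsPGroup p A)
    (hidx : ∀ M : Subgroup X, M.Normal → M.index ≠ p) : X = Opp p G := by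
  obtain ⟨f, hf1, hf2, hf3, hf4⟩ := exists_proj A X h1 h2
  have hcomm : ∀ a ∈ A, ∀ x ∈ X, a * x = x * a := fun a ha x hx =>
    Subgroup.commute_of_normal_of_disjoint A X hA hX (disjoint_iff.2 h1) a x ha hx
  have hle : Opp p G ≤ X := by
    rw [Opp, closure_le]
    intro g hg
    have h3 : g * (f g)⁻¹ ∈ A := hf4 g
    have h4 : Commute (g * (f g)⁻¹) (f g) := hcomm _ h3 _ (hf1 g)
    have h5 : (g * (f g)⁻¹) ^ (orderOf g) = 1 := by
      have h6 := h4.mul_pow (orderOf g)
      have h7 : g * (f g)⁻¹ * f g = g := by group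
      rw [h7, pow_orderOf_eq_one, ← map_pow, pow_orderOf_eq_one, map_one, mul_one] at h6
      exact h6.symm
    obtain ⟨n, hn⟩ := hAp ⟨_, h3⟩
    have h8 : (g * (f g)⁻¹) ^ (p ^ n) = 1 := congrArg Subtype.val hn
    have h9 : g * (f g)⁻¹ = 1 :=
      eq_one_of_coprime_of_pow (p := p)
        (Nat.Coprime.coprime_dvd_left (orderOf_dvd_of_pow_eq_one h5) hg) h8
    have h10 : g = f g := mul_inv_eq_one.1 h9
    rw [h10]; exact hf1 g
  apply le_antisymm _ hle
  by_contra hne
  -- the subgroup `Opp` inside `X`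
  let T : Subgroup X := (Opp p G).subgroupOf X
  have hTn : T.Normal := inferInstance
  have hpg : IsPGroup p (X ⧸ T) := by
    intro x
    obtain ⟨g, rfl⟩ := QuotientGroup.mk_surjective x
    obtain ⟨n, hn⟩ := exists_pow_coprime (p := p) (g : G)
    refine ⟨n, ?_⟩
    show ((g ^ p ^ n : X) : X ⧸ T) = 1
    rw [QuotientGroup.eq_one_iff]
    show ((g ^ p ^ n : X) : G) ∈ Opp p G
    rw [Subgroup.coe_pow]
    exact subset_closure hn
  have : Nontrivial (X ⧸ T) := by
    rw [QuotientGroup.nontrivial_iff]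
    intro h
    apply hne
    intro x hx
    have : (⟨x, hx⟩ : X) ∈ T := by rw [h]; trivial
    exact this
  have habX : AbSyl p X := hab.of_inj X.subtype X.subtype_injective
  obtain ⟨M, hM1, hM2⟩ := exists_index_p hpg (AbSyl.comm_of_isPGroup
      (habX.of_surj (QuotientGroup.mk' _) (QuotientGroup.mk'_surjective _)) hpg)
  refine hidx (M.comap (QuotientGroup.mk' T)) inferInstance ?_
  rw [index_comap_of_surjective _ (QuotientGroup.mk'_surjective _), hM2]

/-- In a split group, the abelian factor consists of the central `p`-elements. -/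
lemma split_A_mem [Finite G] (hab : AbSyl p G) {A X : Subgroup G} [hA : A.Normal] [hX : X.Normal]
    (h1 : A ⊓ X = ⊥) (h2 : A ⊔ X = ⊤) (hAp : IsPGroup p A)
    (hidx : ∀ M : Subgroup X, M.Normal → M.index ≠ p) (z : G) :
    z ∈ A ↔ (∀ g, z * g = g * z) ∧ ∃ n, z ^ (p ^ n) = 1 := by
  obtain ⟨f, hf1, hf2, hf3, hf4⟩ := exists_proj A X h1 h2
  have hcomm : ∀ a ∈ A, ∀ x ∈ X, a * x = x * a := fun a ha x hx =>
    Subgroup.commute_of_normal_of_disjoint A X hA hX (disjoint_iff.2 h1) a x ha hx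
  constructor
  · intro hz
    refine ⟨fun g => ?_, ?_⟩
    · have h3 := hab A hAp _ hz _ (hf4 g)
      have h4 := hcomm z hz _ (hf1 g)
      calc z * g = z * (g * (f g)⁻¹) * f g := by group
        _ = (g * (f g)⁻¹) * (z * f g) := by rw [h3]; group
        _ = g * z := by rw [h4]; group
    · obtain ⟨n, hn⟩ := hAp ⟨z, hz⟩
      exact ⟨n, congrArg Subtype.val hn⟩
  · rintro ⟨hz, n, hn⟩
    have habX : AbSyl p X := hab.of_inj X.subtype X.subtype_injective
    have hfz : f z = 1 := by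
      have h3 : (⟨f z, hf1 z⟩ : X) = 1 := by
        refine T1' (p := p) (n := n) habX hidx (fun x => Subtype.ext ?_) (Subtype.ext ?_)
        · show f z * x = x * f z
          rw [← hf2 x x.2, ← map_mul, ← map_mul, hz]
        · show (f z) ^ (p ^ n) = 1
          rw [← map_pow, hn, map_one]
      exact congrArg Subtype.val h3
    have := hf4 z
    rwa [hfz, inv_one, mul_one] at this

end basics

end Pool.Agent.Work.MP_6f5fa7_al
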