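import Pool.Agent.Work.MP_6f5fa7_al.Embed

/-!
# The conditions are sufficient
-/

set_option autoImplicit false

namespace Pool.Agent.Work.MP_6f5fa7_al

open Subgroup

lemma exists_mono {G : Type*} [Group G] [Finite G] (g : G) (hg1 : g ≠ 1) :
    ∃ L : Subgroup G, ∃ _ : L.Normal, (g : G ⧸ L) ≠ 1 ∧
      ∀ N : Subgroup (G ⧸ L), N.Normal → N ≠ ⊥ → (g : G ⧸ L) ∈ N := by
  classical
  let Ls : Set (Subgroup G) := {L | L.Normal ∧ g ∉ L}
  obtain ⟨L, hL, hLmax⟩ := (Set.toFinite Ls).exists_maximalFor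
    (fun L : Subgroup G => Nat.card L) Ls ⟨⊥, inferInstance, fun h => hg1 (Subgroup.mem_bot.1 h)⟩
  have hLn : L.Normal := hL.1
  have hgL : g ∉ L := hL.2
  refine ⟨L, hLn, fun h => hgL ((QuotientGroup.eq_one_iff g).1 h), ?_⟩
  intro N hN hNne
  by_contra hgN
  have h1 : N.comap (QuotientGroup.mk' L) ∈ Ls := ⟨inferInstance, hgN⟩
  have h2 : L ≤ N.comap (QuotientGroup.mk' L) := by
    intro x hx
    have : (QuotientGroup.mk' L) x = 1 := (QuotientGroup.eq_one_iff x).2 hx
    show (QuotientGroup.mk' L) x ∈ N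
    rw [this]; exact N.one_mem
  have h3 := hLmax h1 (Subgroup.card_le_of_le h2)
  have h4 := Subgroup.eq_of_le_of_card_ge h2 h3
  apply hNne
  rw [eq_bot_iff]
  intro x hx
  obtain ⟨y, rfl⟩ := QuotientGroup.mk_surjective x
  have h5 : y ∈ L := by rw [h4]; exact hx
  exact Subgroup.mem_bot.2 ((QuotientGroup.eq_one_iff y).2 h5)

/-- a word depends on finitely many variables -/
lemma word_bound (w : FreeGroup ℕ) : ∃ n : ℕ, ∀ (G : Type) [Group G] (v v' : ℕ → G),
    (∀ i < n, v i = v' i) → FreeGroup.lift v w = FreeGroup.lift v' w := by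
  induction w using FreeGroup.induction_on with
  | C1 => exact ⟨0, fun G _ v v' _ => by simp⟩
  | of i =>
    refine ⟨i + 1, fun G _ v v' h => ?_⟩
    simp [h i (Nat.lt_succ_self i)]
  | inv_of i _ =>
    refine ⟨i + 1, fun G _ v v' h => ?_⟩
    simp [h i (Nat.lt_succ_self i)]
  | mul x y hx hy =>
    obtain ⟨n, hn⟩ := hx
    obtain ⟨m, hm⟩ := hy
    refine ⟨max n m, fun G _ v v' h => ?_⟩
    rw [map_mul, map_mul, hn G v v' (fun i hi => h i (lt_of_lt_of_le hi (le_max_left _ _))),
      hm G v v' (fun i hi => h i (lt_of_lt_of_le hi (le_max_right _ _)))]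

lemma list_bound (l : List (FreeGroup ℕ)) : ∃ n : ℕ, ∀ (G : Type) [Group G] (v v' : ℕ → G),
    (∀ i < n, v i = v' i) → ∀ w ∈ l, FreeGroup.lift v w = FreeGroup.lift v' w := by
  induction l with
  | nil => exact ⟨0, fun G _ v v' _ w hw => by simp at hw⟩
  | cons a l ih =>
    obtain ⟨n, hn⟩ := ih
    obtain ⟨m, hm⟩ := word_bound a
    refine ⟨max n m, fun G _ v v' h w hw => ?_⟩
    rcases List.mem_cons.1 hw with rfl | hw
    · exact hm G v v' (fun i hi => h i (lt_of_lt_of_le hi (le_max_right _ _)))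
    · exact hn G v v' (fun i hi => h i (lt_of_lt_of_le hi (le_max_left _ _))) w hw

/-- words in `n` letters which are trivial in all groups of the quasivariety -/
def relSub (Θ : Set QuasiId) (n : ℕ) : Subgroup (FreeGroup (Fin n)) where
  carrier := {w | ∀ (G : Type) [Group G], InQVar Θ G → ∀ f : FreeGroup (Fin n) →* G, f w = 1}
  one_mem' := fun G _ _ f => map_one f
  mul_mem' := fun {a b} ha hb G _ hG f => by rw [map_mul, ha G hG f, hb G hG f, one_mul]
  inv_mem' := fun {a} ha G _ hG f => by rw [map_inv, ha G hG f, inv_one]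

instance relSub_normal (Θ : Set QuasiId) (n : ℕ) : (relSub Θ n).Normal :=
  ⟨fun a ha g G _ hG f => by rw [map_mul, map_mul, ha G hG f, map_inv, mul_one, mul_inv_cancel]⟩

lemma relFree_mem (Θ : Set QuasiId) (n : ℕ) : InQVar Θ (FreeGroup (Fin n) ⧸ relSub Θ n) := by
  intro q hq v hv
  obtain ⟨c, hc⟩ := QuotientGroup.mk_surjective (FreeGroup.lift v q.concl)
  rw [← hc, QuotientGroup.eq_one_iff]
  intro G _ hG f
  let f' : FreeGroup (Fin n) ⧸ relSub Θ n →* G :=
    QuotientGroup.lift (relSub Θ n) f (fun w hw => hw G hG f)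
  have h1 : f c = f' (FreeGroup.lift v q.concl) := by rw [← hc]; rfl
  rw [h1, lift_hom]
  apply hG q hq
  intro u hu
  rw [← lift_hom, hv u hu, map_one]

variable {W : Set (FreeGroup ℕ)}

theorem suff (hlf : IsLocFinite W) (hW : Cond W) : IsPrimitive W := by
  classical
  intro Θ hΘ
  refine ⟨{w | ∀ (G : Type) [Group G], InQVar Θ G → SatLaw G w}, fun G _ => ⟨?_, ?_⟩⟩
  · intro hG w hw
    exact hw G hG
  intro hG q hq v hv
  obtain ⟨n, hn⟩ := list_bound (q.concl :: q.prem)
  let K := FreeGroup (Fin n) ⧸ relSub Θ n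
  have hK : InQVar Θ K := relFree_mem Θ n
  have hKW : InVar W K := hΘ K hK
  have hKfg : Group.FG K := inferInstance
  have hKfin : Finite K := hlf K hKW hKfg
  have hρ0 : ∀ w ∈ relSub Θ n, FreeGroup.lift (fun i : Fin n => v i) w = 1 := by
    intro w hw
    have h1 : FreeGroup.map Fin.val w ∈
        {w | ∀ (G : Type) [Group G], InQVar Θ G → SatLaw G w} := by
      intro H _ hH u
      have h2 := hw H hH ((FreeGroup.lift u).comp (FreeGroup.map Fin.val))
      exact h2
    have h2 := hG _ h1 v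
    have h3 : (FreeGroup.lift v).comp (FreeGroup.map (Fin.val (n := n))) =
        FreeGroup.lift (fun i : Fin n => v i) := by
      apply FreeGroup.ext_hom
      intro a
      simp
    rw [← h3]
    exact h2
  let ρ : K →* G := QuotientGroup.lift (relSub Θ n) (FreeGroup.lift (fun i : Fin n => v i)) hρ0
  have hρ : ∀ i : Fin n, ρ ((FreeGroup.of i : FreeGroup (Fin n)) : K) = v i := by
    intro i
    show FreeGroup.lift (fun i : Fin n => v i) (FreeGroup.of i) = v i
    simp
  let v' : ℕ → ρ.range := fun i => if h : i < n then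
    ⟨v i, ⟨_, hρ ⟨i, h⟩⟩⟩ else 1
  have hv' : ∀ w ∈ q.concl :: q.prem, ((FreeGroup.lift v' w : ρ.range) : G) =
      FreeGroup.lift v w := by
    intro w hw
    have h1 : ((FreeGroup.lift v' w : ρ.range) : G) = ρ.range.subtype (FreeGroup.lift v' w) := rfl
    rw [h1, lift_hom]
    apply hn _ _ _ _ w hw
    intro i hi
    show ((v' i : ρ.range) : G) = v i
    simp only [v', dif_pos hi]
  by_contra hcon
  have hfin0 : Finite ρ.range := Finite.of_surjective ρ.rangeRestrict ρ.rangeRestrict_surjective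
  let h0 : ρ.range := FreeGroup.lift v' q.concl
  have hh0 : h0 ≠ 1 := by
    intro h
    apply hcon
    rw [← hv' _ List.mem_cons_self]
    show (h0 : G) = 1
    rw [h]; rfl
  obtain ⟨L, hL, hL1, hL2⟩ := exists_mono h0 hh0
  have hmono : Monolithic (ρ.range ⧸ L) := ⟨_, hL1, hL2⟩
  obtain ⟨ι, hι⟩ := embed hW hmono _ K hKW rfl ((QuotientGroup.mk' L).comp ρ.rangeRestrict)
    ((QuotientGroup.mk'_surjective L).comp ρ.rangeRestrict_surjective)
  have hfin : ι (QuotientGroup.mk' L h0) = 1 := by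
    have h1 : ι (QuotientGroup.mk' L h0) =
        (ι.comp (QuotientGroup.mk' L)) (FreeGroup.lift v' q.concl) := rfl
    rw [h1, lift_hom]
    apply hK q hq
    intro u hu
    rw [← lift_hom]
    have h2 : FreeGroup.lift v' u = 1 := by
      apply Subtype.ext
      rw [hv' _ (List.mem_cons_of_mem _ hu), hv u hu]; rfl
    rw [h2, map_one]
  apply hL1
  apply hι
  rw [map_one]
  exact hfin

end Pool.Agent.Work.MP_6f5fa7_al
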