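import Pool.Agent.Work.MP_6f5fa7_al.Struct
import Pool.Agent.Work.MP_6f5fa7_al.Avg

/-!
# Normal abelian Sylow subgroups of monolithic groups
-/

set_option autoImplicit false
set_option linter.unusedSectionVars false

namespace Pool.Agent.Work.MP_6f5fa7_al

open Subgroup

section pw

variable {G : Type*} [Group G]

/-- the subgroup of `n`-th powers of elements of the abelian subgroup `P` -/
def pw (P : Subgroup G) (hP : ∀ a ∈ P, ∀ b ∈ P, a * b = b * a) (n : ℕ) : Subgroup G where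
  carrier := {x | ∃ y ∈ P, y ^ n = x}
  one_mem' := ⟨1, P.one_mem, one_pow n⟩
  mul_mem' := by
    rintro _ _ ⟨y, hy, rfl⟩ ⟨z, hz, rfl⟩
    have h : Commute y z := hP y hy z hz
    exact ⟨y * z, P.mul_mem hy hz, h.mul_pow n⟩
  inv_mem' := by
    rintro _ ⟨y, hy, rfl⟩
    exact ⟨y⁻¹, P.inv_mem hy, inv_pow y n⟩

lemma mem_pw {P : Subgroup G} {hP : ∀ a ∈ P, ∀ b ∈ P, a * b = b * a} {n : ℕ} {x : G} :
    x ∈ pw P hP n ↔ ∃ y ∈ P, y ^ n = x := Iff.rfl

lemma pw_normal {P : Subgroup G} [hn : P.Normal] (hP : ∀ a ∈ P, ∀ b ∈ P, a * b = b * a) (n : ℕ) :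
    (pw P hP n).Normal := by
  constructor
  rintro _ ⟨y, hy, rfl⟩ g
  exact ⟨g * y * g⁻¹, hn.conj_mem y hy g, conj_pow⟩

lemma pw_le {P : Subgroup G} {hP : ∀ a ∈ P, ∀ b ∈ P, a * b = b * a} {n : ℕ} : pw P hP n ≤ P := by
  rintro _ ⟨y, hy, rfl⟩
  exact P.pow_mem hy n

/-- the subgroup of elements of `P` of exponent `n` -/
def om (P : Subgroup G) (hP : ∀ a ∈ P, ∀ b ∈ P, a * b = b * a) (n : ℕ) : Subgroup G where
  carrier := {x | x ∈ P ∧ x ^ n = 1}
  one_mem' := ⟨P.one_mem, one_pow n⟩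
  mul_mem' := by
    rintro y z ⟨hy, hy1⟩ ⟨hz, hz1⟩
    have h : Commute y z := hP y hy z hz
    exact ⟨P.mul_mem hy hz, by rw [h.mul_pow n, hy1, hz1, one_mul]⟩
  inv_mem' := by
    rintro y ⟨hy, hy1⟩
    exact ⟨P.inv_mem hy, by rw [inv_pow, hy1, inv_one]⟩

lemma om_normal {P : Subgroup G} [hn : P.Normal] (hP : ∀ a ∈ P, ∀ b ∈ P, a * b = b * a) (n : ℕ) :
    (om P hP n).Normal := by
  constructor
  rintro y ⟨hy, hy1⟩ g
  exact ⟨hn.conj_mem y hy g, by rw [conj_pow, hy1, mul_one, mul_inv_cancel]⟩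

end pw

section main

variable {p : ℕ} [hp : Fact p.Prime]

/-- in a monolithic group with an abelian normal Sylow `p`-subgroup `Q`, the elements of order `p`
of `Q` are in every nontrivial normal subgroup contained in `Q` -/
lemma socle {H : Type*} [Group H] [Finite H] (Q : Subgroup H) [hQn : Q.Normal]
    (hQc : ∀ a ∈ Q, ∀ b ∈ Q, a * b = b * a) (hQp : IsPGroup p Q)
    (hcop : (Nat.card Q).Coprime Q.index) (hmono : Monolithic H) (B : Subgroup H) [hB : B.Normal]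
    (hBQ : B ≤ Q) (hBne : B ≠ ⊥) (x : H) (hx : x ∈ Q) (hxp : x ^ p = 1) : x ∈ B := by
  obtain ⟨h, hh1, hh⟩ := hmono
  let E := om Q hQc p
  have hEn : E.Normal := om_normal hQc p
  have hEQ : E ≤ Q := fun y hy => hy.1
  have hB0ne : B ⊓ E ≠ ⊥ := by
    obtain ⟨⟨b, hb⟩, hb0⟩ := (Subgroup.ne_bot_iff_exists_ne_one).1 hBne
    have hb1 : b ≠ 1 := fun h => hb0 (Subtype.ext h)
    obtain ⟨n, hn⟩ := hQp ⟨b, hBQ hb⟩
    have hn' : b ^ (p ^ n) = 1 := congrArg Subtype.val hn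
    classical
    have hex : ∃ n, b ^ (p ^ n) = 1 := ⟨n, hn'⟩
    have h1 := Nat.find_spec hex
    have h2 : Nat.find hex ≠ 0 := by
      intro h0
      rw [h0, pow_zero, pow_one] at h1
      exact hb1 h1
    obtain ⟨m, hm⟩ := Nat.exists_eq_succ_of_ne_zero h2
    have h3 : b ^ (p ^ m) ≠ 1 := Nat.find_min hex (by omega)
    intro hbot
    have h4 : b ^ (p ^ m) ∈ B ⊓ E := by
      refine ⟨B.pow_mem hb _, Q.pow_mem (hBQ hb) _, ?_⟩
      rw [← pow_mul, ← pow_succ, ← Nat.succ_eq_add_one, ← hm]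
      exact h1
    rw [hbot] at h4
    exact h3 (Subgroup.mem_bot.1 h4)
  have hEc : ∀ a ∈ E, ∀ b ∈ E, a * b = b * a := fun a ha b hb => hQc a ha.1 b hb.1
  obtain ⟨r, hr1, hr2⟩ := exists_retract (p := p) E (B ⊓ E) hEc (fun y hy => hy.2)
  obtain ⟨B', hB'n, hB'E, hB'1, hB'2⟩ := maschke Q E (B ⊓ E) inf_le_right
    (fun a ha x hx => hQc a ha x hx.1) hEc
    (Nat.Coprime.coprime_dvd_left (Subgroup.card_dvd_of_le (inf_le_right.trans hEQ)) hcop)
    r hr1 hr2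
  have hB'bot : B' = ⊥ := by
    by_contra hne
    have h1 := hh _ inferInstance hB0ne
    have h2 := hh B' hB'n hne
    have h3 : h ∈ (B ⊓ E) ⊓ B' := ⟨h1, h2⟩
    rw [hB'1] at h3
    exact hh1 (Subgroup.mem_bot.1 h3)
  rw [hB'bot, sup_bot_eq] at hB'2
  have : x ∈ E := ⟨hx, hxp⟩
  rw [← hB'2] at this
  exact this.1

/-- the top of `Q` is simple -/
lemma top_simple {H : Type*} [Group H] [Finite H] (Q : Subgroup H) [hQn : Q.Normal]
    (hQc : ∀ a ∈ Q, ∀ b ∈ Q, a * b = b * a) (hQp : IsPGroup p Q)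
    (hcop : (Nat.card Q).Coprime Q.index) (hmono : Monolithic H) (B : Subgroup H) [hB : B.Normal]
    (hBQ : B ≤ Q) (hpB : ∀ x ∈ Q, x ^ p ∈ B) (hBne : B ≠ Q) (b : H) (hb : b ∈ B) :
    ∃ y ∈ Q, y ^ p = b := by
  classical
  -- the exponent of `Q`
  obtain ⟨N, hN⟩ := IsPGroup.iff_card.1 hQp
  have hexN : ∀ x ∈ Q, x ^ (p ^ N) = 1 := by
    intro x hx
    have : (⟨x, hx⟩ : Q) ^ (Nat.card Q) = 1 := pow_card_eq_one'
    rw [hN] at this
    exact congrArg Subtype.val this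
  have hex : ∃ m, ∀ x ∈ Q, x ^ (p ^ m) = 1 := ⟨N, hexN⟩
  have hm := Nat.find_spec hex
  have hm0 : Nat.find hex ≠ 0 := by
    intro h0
    rw [h0, pow_zero] at hm
    apply hBne
    apply le_antisymm hBQ
    intro x hx
    have := hm x hx
    rw [pow_one] at this
    rw [this]; exact B.one_mem
  obtain ⟨m, hmm⟩ := Nat.exists_eq_succ_of_ne_zero hm0
  have hmin : ¬ ∀ x ∈ Q, x ^ (p ^ m) = 1 := Nat.find_min hex (by omega)
  rw [hmm, Nat.succ_eq_add_one] at hm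
  push Not at hmin
  obtain ⟨x0, hx0, hx01⟩ := hmin
  -- elements of order `p` are `p ^ m`-th powers
  have h1 : ∀ x ∈ Q, x ^ p = 1 → ∃ y ∈ Q, y ^ (p ^ m) = x := by
    intro x hx hxp
    have hn : (pw Q hQc (p ^ m)).Normal := pw_normal hQc _
    refine socle Q hQc hQp hcop hmono (pw Q hQc (p ^ m)) pw_le ?_ x hx hxp
    intro hbot
    have : x0 ^ (p ^ m) ∈ pw Q hQc (p ^ m) := ⟨x0, hx0, rfl⟩
    rw [hbot] at this
    exact hx01 (Subgroup.mem_bot.1 this)
  -- homocyclic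
  have h2 : ∀ i, i ≤ m + 1 → ∀ x ∈ Q, x ^ (p ^ i) = 1 → ∃ y ∈ Q, y ^ (p ^ (m + 1 - i)) = x := by
    intro i
    induction i with
    | zero =>
      intro _ x hx hx1
      rw [pow_zero, pow_one] at hx1
      exact ⟨1, Q.one_mem, by rw [one_pow, hx1]⟩
    | succ i ih =>
      intro hi x hx hx1
      obtain ⟨y, hy, hyx⟩ := h1 (x ^ (p ^ i)) (Q.pow_mem hx _)
        (by rw [← pow_mul, ← pow_succ, hx1])
      have hc1 : Commute x (y ^ (p ^ (m - i)))⁻¹ := hQc _ hx _ (Q.inv_mem (Q.pow_mem hy _))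
      obtain ⟨w, hw, hwz⟩ := ih (by omega) (x * (y ^ (p ^ (m - i)))⁻¹)
        (Q.mul_mem hx (Q.inv_mem (Q.pow_mem hy _))) (by
          rw [hc1.mul_pow, inv_pow, ← pow_mul, ← pow_add, Nat.sub_add_cancel (by omega), hyx,
            mul_inv_cancel])
      refine ⟨w ^ p * y, Q.mul_mem (Q.pow_mem hw _) hy, ?_⟩
      have hc2 : Commute (w ^ p) y := hQc _ (Q.pow_mem hw _) _ hy
      have e1 : m + 1 - (i + 1) = m - i := by omega
      have e2 : m + 1 - i = (m - i) + 1 := by omega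
      rw [e1, hc2.mul_pow, ← pow_mul, ← pow_succ', ← e2, hwz]
      group
  have h3 : ∀ x ∈ Q, x ^ (p ^ m) = 1 → ∃ y ∈ Q, y ^ p = x := by
    intro x hx hx1
    obtain ⟨y, hy, hyx⟩ := h2 m (by omega) x hx hx1
    refine ⟨y, hy, ?_⟩
    rwa [Nat.add_sub_cancel_left, pow_one] at hyx
  -- the powers of `B`
  apply h3 b (hBQ hb)
  by_contra hb1
  apply hBne
  apply le_antisymm hBQ
  intro x hx
  have hBc : ∀ a ∈ B, ∀ b ∈ B, a * b = b * a := fun a ha b hb => hQc a (hBQ ha) b (hBQ hb)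
  have hn : (pw B hBc (p ^ m)).Normal := pw_normal hBc _
  have h4 : x ^ (p ^ m) ∈ pw B hBc (p ^ m) := by
    refine socle Q hQc hQp hcop hmono (pw B hBc (p ^ m)) (pw_le.trans hBQ) ?_ _
      (Q.pow_mem hx _) (by rw [← pow_mul, ← pow_succ, hm x hx])
    intro hbot
    have : b ^ (p ^ m) ∈ pw B hBc (p ^ m) := ⟨b, hb, rfl⟩
    rw [hbot] at this
    exact hb1 (Subgroup.mem_bot.1 this)
  obtain ⟨b', hb', hb'x⟩ := h4
  have hc3 : Commute x b'⁻¹ := hQc _ hx _ (Q.inv_mem (hBQ hb'))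
  obtain ⟨y, hy, hyx⟩ := h3 (x * b'⁻¹) (Q.mul_mem hx (Q.inv_mem (hBQ hb'))) (by
    rw [hc3.mul_pow, inv_pow, hb'x, mul_inv_cancel])
  have h5 : x = y ^ p * b' := by rw [hyx]; group
  rw [h5]
  exact B.mul_mem (hpB y hy) hb'

/-- Nakayama -/
lemma nakayama {K : Type*} [Group K] (P B : Subgroup K)
    (hPc : ∀ a ∈ P, ∀ b ∈ P, a * b = b * a) (hBP : B ≤ P) {m : ℕ}
    (hm : ∀ x ∈ P, x ^ (p ^ m) = 1) (h : ∀ x ∈ P, ∃ b ∈ B, ∃ y ∈ P, x = b * y ^ p) : B = P := by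
  apply le_antisymm hBP
  have key : ∀ i, ∀ x ∈ P, ∃ b ∈ B, ∃ y ∈ P, x = b * y ^ (p ^ i) := by
    intro i
    induction i with
    | zero =>
      intro x hx
      exact ⟨1, B.one_mem, x, hx, by simp⟩
    | succ i ih =>
      intro x hx
      obtain ⟨b, hb, y, hy, hxy⟩ := ih x hx
      obtain ⟨b', hb', y', hy', hyy⟩ := h y hy
      refine ⟨b * b' ^ (p ^ i), B.mul_mem hb (B.pow_mem hb' _), y', hy', ?_⟩
      have hc : Commute b' (y' ^ p) := hPc _ (hBP hb') _ (P.pow_mem hy' _)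
      rw [hxy, hyy, hc.mul_pow, ← pow_mul, ← pow_succ', mul_assoc]
  intro x hx
  obtain ⟨b, hb, y, hy, hxy⟩ := key m x hx
  rw [hxy, hm y hy, mul_one]
  exact hb

theorem ker_eq_om {K H : Type*} [Group K] [Finite K] [Group H] (P : Subgroup K)
    [hPn : P.Normal] (hPc : ∀ a ∈ P, ∀ b ∈ P, a * b = b * a) (hPp : IsPGroup p P)
    (hcop : (Nat.card P).Coprime P.index) (π : K →* H) (hπ : Function.Surjective π)
    (hNP : π.ker ≤ P) (hfrat : ∀ U : Subgroup K, U ⊔ π.ker = ⊤ → U = ⊤)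
    (hmono : Monolithic H) : ∃ j, ∀ x ∈ P, x ∈ π.ker ↔ x ^ (p ^ j) = 1 := by
  classical
  have hHfin : Finite H := Finite.of_surjective π hπ
  -- the kernel consists of `p`-th powers
  have hD : (pw P hPc p).Normal := pw_normal hPc p
  have hkerD : π.ker ≤ pw P hPc p := by
    let D := pw P hPc p
    let q := QuotientGroup.mk' D
    have hq : Function.Surjective q := QuotientGroup.mk'_surjective D
    have hqk : q.ker ≤ P := by rw [QuotientGroup.ker_mk']; exact pw_le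
    have hN1 : (π.ker.map q).Normal := Subgroup.Normal.map inferInstance _ hq
    have hP1c : ∀ a ∈ P.map q, ∀ b ∈ P.map q, a * b = b * a := by
      rintro _ ⟨a, ha, rfl⟩ _ ⟨b, hb, rfl⟩
      rw [← map_mul, ← map_mul, hPc a ha b hb]
    have hP1e : ∀ a ∈ P.map q, a ^ p = 1 := by
      rintro _ ⟨a, ha, rfl⟩
      rw [← map_pow]
      exact (QuotientGroup.eq_one_iff _).2 ⟨a, ha, rfl⟩
    have hle : π.ker.map q ≤ P.map q := Subgroup.map_mono hNP
    obtain ⟨r, hr1, hr2⟩ := exists_retract (p := p) (P.map q) (π.ker.map q) hP1c hP1e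
    obtain ⟨U1, hU1, hU2⟩ := gaschutz (P.map q) (π.ker.map q) hle hP1c (by
      rw [Subgroup.index_map_eq P hq hqk]
      refine Nat.Coprime.coprime_dvd_left ?_ hcop
      exact (Subgroup.card_map_dvd π.ker q).trans (Subgroup.card_dvd_of_le hNP)) r hr1 hr2
    have hU : U1.comap q = ⊤ := by
      apply hfrat
      rw [eq_top_iff]
      intro k _
      have hk : q k ∈ (↑(U1 ⊔ π.ker.map q) : Set (K ⧸ D)) := by rw [hU2]; trivial
      rw [Subgroup.mul_normal] at hk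
      obtain ⟨u, hu, _, ⟨n, hn, rfl⟩, hun⟩ := hk
      have h1 : k * n⁻¹ ∈ U1.comap q := by
        show q (k * n⁻¹) ∈ U1
        have h2 : u * q n = q k := hun
        rw [map_mul, map_inv, ← h2, mul_inv_cancel_right]
        exact hu
      have h3 : k = (k * n⁻¹) * n := by group
      rw [h3]
      exact Subgroup.mul_mem _ (Subgroup.mem_sup_left h1) (Subgroup.mem_sup_right hn)
    have hU1top : U1 = ⊤ := by
      rw [eq_top_iff]
      intro x _
      obtain ⟨k, rfl⟩ := hq x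
      have : k ∈ U1.comap q := by rw [hU]; trivial
      exact this
    rw [hU1top, top_inf_eq] at hU1
    intro n hn
    have h4 : q n ∈ π.ker.map q := ⟨n, hn, rfl⟩
    rw [hU1, Subgroup.mem_bot] at h4
    exact (QuotientGroup.eq_one_iff _).1 h4
  -- the image of `P`
  have hQn : (P.map π).Normal := hPn.map _ hπ
  have hQc : ∀ a ∈ P.map π, ∀ b ∈ P.map π, a * b = b * a := by
    rintro _ ⟨a, ha, rfl⟩ _ ⟨b, hb, rfl⟩
    rw [← map_mul, ← map_mul, hPc a ha b hb]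
  have hQcop : (Nat.card (P.map π)).Coprime (P.map π).index := by
    rw [Subgroup.index_map_eq P hπ hNP]
    exact Nat.Coprime.coprime_dvd_left (Subgroup.card_map_dvd P π) hcop
  have hQp : IsPGroup p (P.map π) := hPp.map π
  -- the top of `P` is simple
  have htop : ∀ B : Subgroup K, B.Normal → B ≤ P → (∀ x ∈ P, x ^ p ∈ B) → B ≠ P →
      ∀ b ∈ B, ∃ y ∈ P, y ^ p = b := by
    intro B hB hBP hpB hBne b hb
    have hNB : π.ker ≤ B := fun n hn => by
      obtain ⟨y, hy, rfl⟩ := hkerD hn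
      exact hpB y hy
    have hBn : (B.map π).Normal := hB.map _ hπ
    obtain ⟨_, ⟨y, hy, rfl⟩, hyb⟩ := top_simple (p := p) (P.map π) hQc hQp hQcop hmono (B.map π)
      (Subgroup.map_mono hBP) (by
        rintro _ ⟨x, hx, rfl⟩
        rw [← map_pow]
        exact Subgroup.mem_map_of_mem π (hpB x hx)) (by
        intro h
        apply hBne
        apply le_antisymm hBP
        intro x hx
        have h1 : π x ∈ B.map π := by rw [h]; exact Subgroup.mem_map_of_mem π hx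
        obtain ⟨z, hz, hzx⟩ := h1
        have h2 : z⁻¹ * x ∈ π.ker := by
          rw [MonoidHom.mem_ker, map_mul, map_inv, hzx, inv_mul_cancel]
        have h3 : x = z * (z⁻¹ * x) := by group
        rw [h3]; exact B.mul_mem hz (hNB h2)) (π b) (Subgroup.mem_map_of_mem π hb)
    rw [← map_pow] at hyb
    have h4 : (y ^ p)⁻¹ * b ∈ π.ker := by
      rw [MonoidHom.mem_ker, map_mul, map_inv, hyb, inv_mul_cancel]
    obtain ⟨z, hz, hzb⟩ := hkerD h4
    have hc : Commute y z := hPc _ hy _ hz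
    refine ⟨y * z, P.mul_mem hy hz, ?_⟩
    rw [hc.mul_pow, hzb]; group
  -- exponent of `P`
  obtain ⟨m, hm0⟩ := IsPGroup.iff_card.1 hPp
  have hm : ∀ x ∈ P, x ^ (p ^ m) = 1 := by
    intro x hx
    have : (⟨x, hx⟩ : P) ^ (Nat.card P) = 1 := pow_card_eq_one'
    rw [hm0] at this
    exact congrArg Subtype.val this
  -- an element which is not a `p`-th power generates `P`
  have hgen : ∀ y ∈ P, (¬ ∃ w ∈ P, w ^ p = y) → ∀ B : Subgroup K, B.Normal → B ≤ P → y ∈ B →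
      B = P := by
    intro y hy hny B hB hBP hyB
    have hB1 : (B ⊔ pw P hPc p) = P := by
      by_contra hne
      exact hny (htop (B ⊔ pw P hPc p) inferInstance (sup_le hBP pw_le)
        (fun x hx => Subgroup.mem_sup_right ⟨x, hx, rfl⟩) hne y (Subgroup.mem_sup_left hyB))
    refine nakayama (p := p) P B hPc hBP hm (fun x hx => ?_)
    have hx' : x ∈ (↑(B ⊔ pw P hPc p) : Set K) := by rw [hB1]; exact hx
    rw [Subgroup.mul_normal] at hx'
    obtain ⟨b, hb, _, ⟨z, hz, rfl⟩, rfl⟩ := hx'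
    exact ⟨b, hb, z, hz, rfl⟩
  have hgen2 : ∀ y ∈ P, (¬ ∃ w ∈ P, w ^ p = y) → ∀ i, ∀ C : Subgroup K, C.Normal →
      y ^ (p ^ i) ∈ C → ∀ x ∈ P, x ^ (p ^ i) ∈ C := by
    intro y hy hny i C hC hyC x hx
    let T : Subgroup K :=
      { carrier := {x | x ∈ P ∧ x ^ (p ^ i) ∈ C}
        one_mem' := ⟨P.one_mem, by rw [one_pow]; exact C.one_mem⟩
        mul_mem' := by
          rintro a b ⟨ha, ha1⟩ ⟨hb, hb1⟩
          have hc : Commute a b := hPc _ ha _ hb
          exact ⟨P.mul_mem ha hb, by rw [hc.mul_pow]; exact C.mul_mem ha1 hb1⟩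
        inv_mem' := by
          rintro a ⟨ha, ha1⟩
          exact ⟨P.inv_mem ha, by rw [inv_pow]; exact C.inv_mem ha1⟩ }
    have hTn : T.Normal := by
      constructor
      rintro a ⟨ha, ha1⟩ g
      exact ⟨hPn.conj_mem a ha g, by rw [conj_pow]; exact hC.conj_mem _ ha1 g⟩
    have hT := hgen y hy hny T hTn (fun a ha => ha.1) ⟨hy, hyC⟩
    have hxT : x ∈ T := by rw [hT]; exact hx
    exact hxT.2
  have hroot : ∀ n ∈ P, n ≠ 1 → ∃ k, ∃ y ∈ P, (¬ ∃ w ∈ P, w ^ p = y) ∧ y ^ (p ^ k) = n := by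
    intro n hn hn1
    have hex : ∃ k, ¬ ∃ y ∈ P, y ^ (p ^ k) = n := by
      refine ⟨m, ?_⟩
      rintro ⟨y, hy, hyn⟩
      rw [hm y hy] at hyn
      exact hn1 hyn.symm
    have h1 := Nat.find_spec hex
    have h2 : Nat.find hex ≠ 0 := by
      intro h0
      rw [h0] at h1
      exact h1 ⟨n, hn, by rw [pow_zero, pow_one]⟩
    obtain ⟨k, hk⟩ := Nat.exists_eq_succ_of_ne_zero h2
    have h3 : ∃ y ∈ P, y ^ (p ^ k) = n := by
      by_contra h
      have := Nat.find_min hex (m := k) (by omega)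
      exact this h
    obtain ⟨y, hy, hyn⟩ := h3
    refine ⟨k, y, hy, ?_, hyn⟩
    rintro ⟨w, hw, hwy⟩
    apply h1
    rw [hk, Nat.succ_eq_add_one]
    exact ⟨w, hw, by rw [pow_succ', pow_mul, hwy, hyn]⟩
  -- conclusion
  by_cases hN : ∀ n ∈ π.ker, n = 1
  · refine ⟨0, fun x _ => ?_⟩
    rw [pow_zero, pow_one]
    exact ⟨hN x, fun h => by rw [h]; exact Subgroup.one_mem _⟩
  push Not at hN
  obtain ⟨n1, hn1, hn1'⟩ := hN
  have hexj : ∃ j, ∀ n ∈ π.ker, n ^ (p ^ j) = 1 := ⟨m, fun n hn => hm n (hNP hn)⟩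
  have hj := Nat.find_spec hexj
  have hj0 : Nat.find hexj ≠ 0 := by
    intro h0
    rw [h0] at hj
    have := hj n1 hn1
    rw [pow_zero, pow_one] at this
    exact hn1' this
  obtain ⟨j, hjj⟩ := Nat.exists_eq_succ_of_ne_zero hj0
  have hjmin : ¬ ∀ n ∈ π.ker, n ^ (p ^ j) = 1 := Nat.find_min hexj (by omega)
  rw [hjj, Nat.succ_eq_add_one] at hj
  push Not at hjmin
  obtain ⟨n0, hn0, hn01⟩ := hjmin
  refine ⟨j + 1, fun x hx => ⟨hj x, fun hx1 => ?_⟩⟩
  by_cases hxe : x = 1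
  · rw [hxe]; exact Subgroup.one_mem _
  have hn0ne : n0 ≠ 1 := fun h => hn01 (by rw [h, one_pow])
  obtain ⟨k, y, hy, hny, hyn⟩ := hroot n0 (hNP hn0) hn0ne
  obtain ⟨l, w, hw, hnw, hwx⟩ := hroot x hx hxe
  have h1 : ∀ z ∈ P, z ^ (p ^ (l + (j + 1))) = 1 := by
    intro z hz
    have hbn : (⊥ : Subgroup K).Normal := inferInstance
    have h2 := hgen2 w hw hnw (l + (j + 1)) ⊥ hbn (by
      rw [Subgroup.mem_bot, pow_add, pow_mul, hwx, hx1]) z hz
    exact Subgroup.mem_bot.1 h2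
  have hlk : k ≤ l := by
    by_contra hlt
    apply hn01
    rw [← hyn, ← pow_mul, ← pow_add]
    obtain ⟨d, hd⟩ : ∃ d, k + j = l + (j + 1) + d := ⟨k + j - (l + (j + 1)), by omega⟩
    rw [hd, pow_add, pow_mul, h1 y hy, one_pow]
  have h3 := hgen2 y hy hny k π.ker inferInstance (by rw [hyn]; exact hn0) (w ^ (p ^ (l - k)))
    (P.pow_mem hw _)
  rw [← pow_mul, ← pow_add, Nat.sub_add_cancel hlk, hwx] at h3
  exact h3

end main

end Pool.Agent.Work.MP_6f5fa7_al
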